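import Pool.Agent.H833R3.Bridge

/-!
# The partition property of an uncountable cardinal implies that it is inaccessible
-/

set_option autoImplicit false
set_option linter.unusedSectionVars false

namespace Pool.Agent.TH770

open Cardinal Set Pool.Agent.H833R3.Levy

variable {K : Type} [LinearOrder K]

theorem iic_lt [WellFoundedLT K] (hs : ∀ x : K, #(Iio x) < #K) (h0 : ℵ₀ < #K) (x : K) :
    #(Iic x) < #K := by
  have h1 : Iic x = insert x (Iio x) := by
    ext y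
    simp [le_iff_eq_or_lt]
  rw [h1]
  refine (Cardinal.mk_insert_le).trans_lt ?_
  exact Cardinal.add_lt_of_lt h0.le (hs x) (Cardinal.one_lt_aleph0.trans h0)

/-- Regularity. -/
theorem reg_of_part [WellFoundedLT K] (hs : ∀ x : K, #(Iio x) < #K) (h0 : ℵ₀ < #K)
    (hP : PairPart K) (ι : Type) (hι : #ι < #K) (f : ι → K) : ∃ γ, ∀ i, f i < γ := by
  classical
  by_contra hcon
  push Not at hcon
  choose g hg using hcon
  obtain ⟨H, hH, h | h⟩ := hP (fun x y => g x = g y)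
  · have hne : H.Nonempty := by
      by_contra h1
      rw [Set.not_nonempty_iff_eq_empty] at h1
      rw [h1, Cardinal.mk_emptyCollection] at hH
      exact absurd (hH ▸ h0) (not_lt.2 (zero_le))
    obtain ⟨x₀, hx₀⟩ := hne
    have h1 : H ⊆ Iic (f (g x₀)) := by
      intro x hx
      have h2 : g x = g x₀ := by
        rcases lt_trichotomy x x₀ with h3 | h3 | h3
        · exact h x hx x₀ hx₀ h3
        · rw [h3]
        · exact (h x₀ hx₀ x hx h3).symm
      have h3 := hg x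
      rw [h2] at h3
      exact h3
    have h2 := mk_le_mk_of_subset h1
    rw [hH] at h2
    exact absurd (iic_lt hs h0 _) (not_lt.2 h2)
  · have h1 : Function.Injective (fun x : H => g x.1) := by
      rintro ⟨x, hx⟩ ⟨y, hy⟩ hxy
      rcases lt_trichotomy x y with h3 | h3 | h3
      · exact absurd hxy (h x hx y hy h3)
      · exact Subtype.ext h3
      · exact absurd hxy.symm (h y hy x hx h3)
    have h2 := Cardinal.mk_le_of_injective h1
    rw [hH] at h2
    exact absurd hι (not_lt.2 h2)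

/-- The set `H` is increasing in the lexicographic order, with the first differences below
`δ`. -/
def LI {M : Type} [LinearOrder M] (f : K → M → Prop) (D : M → Prop) (H : Set K) : Prop :=
  ∀ x ∈ H, ∀ y ∈ H, x < y → ∃ ξ, D ξ ∧ (∀ η < ξ, (f x η ↔ f y η)) ∧ ¬ f x ξ ∧ f y ξ

theorem li_step [WellFoundedLT K] (hs : ∀ x : K, #(Iio x) < #K) (h0 : ℵ₀ < #K)
    (hreg : ∀ ι : Type, #ι < #K → ∀ f : ι → K, ∃ γ, ∀ i, f i < γ) {M : Type} [LinearOrder M]
    [WellFoundedLT M] (hM : #M < #K) (f : K → M → Prop) (D : M → Prop) {H : Set K}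
    (hH : #H = #K) (hL : LI f D H) : ∃ δ, D δ ∧ ∃ H' : Set K, #H' = #K ∧ LI f (· < δ) H' := by
  classical
  have hunb : ∀ (A : Set K), (∀ γ, ∃ x ∈ A, γ ≤ x) → #A = #K := by
    intro A hA
    by_contra h
    have h1 : #A < #K := lt_of_le_of_ne (Cardinal.mk_set_le _) h
    obtain ⟨γ, hγ⟩ := hreg A h1 (fun x => x.1)
    obtain ⟨x, hx, h2⟩ := hA γ
    exact absurd (hγ ⟨x, hx⟩) (not_lt.2 h2)
  have hbig : ∀ (A : Set K), #A = #K → ∀ x, ∃ y ∈ A, x < y := by
    intro A hA x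
    by_contra h
    push Not at h
    have h1 := mk_le_mk_of_subset (show A ⊆ Iic x from fun y hy => h y hy)
    rw [hA] at h1
    exact absurd (iic_lt hs h0 x) (not_lt.2 h1)
  -- the successor in `H`
  have hsucc : ∀ x, ∃ y ∈ H, x < y ∧ ∀ z ∈ H, x < z → y ≤ z := by
    intro x
    obtain ⟨y, hy, hxy⟩ := hbig H hH x
    have hne : ({y | y ∈ H ∧ x < y} : Set K).Nonempty := ⟨y, hy, hxy⟩
    refine ⟨wellFounded_lt.min _ hne, (WellFounded.min_mem _ _ hne).1,
      (WellFounded.min_mem _ _ hne).2, fun z hz hxz => ?_⟩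
    exact not_lt.1 (WellFounded.not_lt_min _ _ (show z ∈ {y | y ∈ H ∧ x < y} from ⟨hz, hxz⟩))
  choose s hsH hs1 hs2 using hsucc
  have hd : ∀ x : K, ∃ ξ, x ∈ H → D ξ ∧ (∀ η < ξ, (f x η ↔ f (s x) η)) ∧ ¬ f x ξ ∧
      f (s x) ξ := by
    intro x
    by_cases hx : x ∈ H
    · obtain ⟨ξ, h1⟩ := hL x hx (s x) (hsH x) (hs1 x)
      exact ⟨ξ, fun _ => h1⟩
    · have : Nonempty H := by
        by_contra h
        rw [not_nonempty_iff] at h
        rw [Cardinal.mk_eq_zero] at hH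
        exact absurd (hH ▸ h0) (not_lt.2 (zero_le))
      obtain ⟨⟨x₁, hx₁⟩⟩ := this
      obtain ⟨ξ, -⟩ := hL x₁ hx₁ (s x₁) (hsH x₁) (hs1 x₁)
      exact ⟨ξ, fun h => absurd h hx⟩
  choose d hdd using hd
  -- a value that is attained unboundedly often
  obtain ⟨δ, hδ⟩ : ∃ δ, ∀ γ, ∃ x ∈ H, γ ≤ x ∧ d x = δ := by
    by_contra hcon
    push Not at hcon
    choose γ hγ using hcon
    obtain ⟨γ₀, hγ₀⟩ := hreg M hM γ
    obtain ⟨x, hx, hx'⟩ := hbig H hH γ₀
    exact hγ (d x) x hx ((hγ₀ _).le.trans hx'.le) rfl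
  obtain ⟨x₁, hx₁, -, hdx₁⟩ := hδ (s (s (Classical.choose (show ∃ x : K, True from by
    obtain ⟨y, -, -⟩ := hbig H hH (Classical.choice (by
      by_contra h
      rw [not_nonempty_iff] at h
      rw [Cardinal.mk_eq_zero] at h0
      exact absurd h0 (not_lt.2 (zero_le))))
    exact ⟨y, trivial⟩))))
  refine ⟨δ, hdx₁ ▸ (hdd x₁ hx₁).1, {x | x ∈ H ∧ d x = δ}, hunb _ fun γ => ?_, ?_⟩
  · obtain ⟨x, hx, h1, h2⟩ := hδ γ
    exact ⟨x, ⟨hx, h2⟩, h1⟩
  · rintro x ⟨hx, hdx⟩ y ⟨hy, hdy⟩ hxy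
    obtain ⟨ξ, h1, h2, h3, h4⟩ := hL x hx y hy hxy
    refine ⟨ξ, ?_, h2, h3, h4⟩
    by_contra hξ
    have hξ' : δ ≤ ξ := not_lt.1 hξ
    obtain ⟨-, e1, e2, e3⟩ := hdd x hx
    obtain ⟨-, e4, e5, e6⟩ := hdd y hy
    rw [hdx] at e1 e2 e3
    rw [hdy] at e4 e5 e6
    -- `s x` is at most `y`
    rcases eq_or_lt_of_le (hs2 x y hy hxy) with h5 | h5
    · rw [h5] at e3
      exact e5 e3
    · obtain ⟨ρ, -, g2, g3, g4⟩ := hL (s x) (hsH x) y hy h5
      rcases lt_trichotomy ρ δ with h6 | h6 | h6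
      · have h7 : f x ρ ↔ f y ρ := h2 ρ (h6.trans_le hξ')
        exact g3 ((e1 ρ h6).1 (h7.2 g4))
      · rw [h6] at g4
        exact e5 g4
      · exact e5 ((g2 δ h6).1 e3)

/-- There are no long lexicographically increasing sequences. -/
theorem no_li [WellFoundedLT K] (hs : ∀ x : K, #(Iio x) < #K) (h0 : ℵ₀ < #K)
    (hreg : ∀ ι : Type, #ι < #K → ∀ f : ι → K, ∃ γ, ∀ i, f i < γ) {M : Type} [LinearOrder M]
    [WellFoundedLT M] (hM : #M < #K) (f : K → M → Prop) {H : Set K}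
    (hH : #H = #K) (hL : LI f (fun _ => True) H) : False := by
  have key : ∀ δ : M, ¬ ∃ H' : Set K, #H' = #K ∧ LI f (· < δ) H' := by
    intro δ
    induction δ using WellFoundedLT.induction with
    | ind δ ih =>
      rintro ⟨H', h1, h2⟩
      obtain ⟨δ', h3, h4⟩ := li_step hs h0 hreg hM f _ h1 h2
      exact ih δ' h3 h4
  obtain ⟨δ, -, h⟩ := li_step hs h0 hreg hM f _ hH hL
  exact key δ h

theorem pow_of_part [WellFoundedLT K] (hs : ∀ x : K, #(Iio x) < #K) (h0 : ℵ₀ < #K)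
    (hP : PairPart K) (μ : Cardinal.{0}) (hμ : μ < #K) : 2 ^ μ < #K := by
  classical
  by_contra hcon
  have hcon' : #K ≤ 2 ^ μ := not_lt.1 hcon
  have hreg := reg_of_part hs h0 hP
  have hMc : #(μ.ord.ToType) = μ := by rw [mk_toType, card_ord]
  have h1 : #K ≤ #(μ.ord.ToType → Prop) := by
    have : #(μ.ord.ToType → Prop) = 2 ^ μ := by simp
    rw [this]
    exact hcon'
  obtain ⟨f⟩ := (Cardinal.le_def _ _).1 h1
  have hM : #(μ.ord.ToType) < #K := by rw [hMc]; exact hμ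
  have hdiff : ∀ x y : K, x ≠ y → ∃ ξ, (∀ η < ξ, (f x η ↔ f y η)) ∧ ¬ (f x ξ ↔ f y ξ) := by
    intro x y hxy
    have h2 : ({ξ | ¬ (f x ξ ↔ f y ξ)} : Set μ.ord.ToType).Nonempty := by
      by_contra h3
      apply hxy
      apply f.injective
      funext ξ
      by_contra h4
      exact h3 ⟨ξ, fun h5 => h4 (propext h5)⟩
    refine ⟨wellFounded_lt.min _ h2, fun η hη => ?_, WellFounded.min_mem _ _ h2⟩
    by_contra h3
    exact absurd hη (WellFounded.not_lt_min _ _ (show η ∈ {ξ | ¬ (f x ξ ↔ f y ξ)} from h3))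
  obtain ⟨H, hH, h | h⟩ := hP (fun x y => ∃ ξ, (∀ η < ξ, (f x η ↔ f y η)) ∧ ¬ f x ξ ∧ f y ξ)
  · refine no_li hs h0 hreg hM f hH fun x hx y hy hxy => ?_
    obtain ⟨ξ, h2⟩ := h x hx y hy hxy
    exact ⟨ξ, trivial, h2⟩
  · refine no_li hs h0 hreg hM (fun x ξ => ¬ f x ξ) hH fun x hx y hy hxy => ?_
    obtain ⟨ξ, h2, h3⟩ := hdiff x y hxy.ne
    refine ⟨ξ, trivial, fun η hη => not_congr (h2 η hη), ?_⟩
    by_cases h4 : f x ξ
    · exact ⟨fun h5 => h5 h4, fun h5 => h3 ⟨fun _ => h5, fun _ => h4⟩⟩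
    · exfalso
      have h5 : f y ξ := by
        by_contra h6
        exact h3 ⟨fun h => absurd h h4, fun h => absurd h h6⟩
      exact h x hx y hy hxy ⟨ξ, h2, h4, h5⟩

/-- An uncountable cardinal with the partition property is inaccessible. -/
theorem inac_of_part {κ : Cardinal.{0}} (h0 : ℵ₀ < κ) (hP : PairPart κ.ord.ToType) :
    Inac κ.ord.ToType := by
  have hc : #(κ.ord.ToType) = κ := by rw [mk_toType, card_ord]
  have hs : ∀ x : κ.ord.ToType, #(Iio x) < #(κ.ord.ToType) := by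
    intro x
    rw [hc]
    exact mk_Iio_toType_ord_lt x
  have h0' : ℵ₀ < #(κ.ord.ToType) := by rwa [hc]
  have hpow := pow_of_part hs h0' hP
  exact
  { wf := inferInstance
    unc := by
      rw [← succ_aleph0]
      exact (Order.succ_le_of_lt (cantor ℵ₀)).trans_lt (hpow _ h0')
    reg := reg_of_part hs h0' hP
    small := hs
    pow := hpow }

end Pool.Agent.TH770
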