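import Pool.Agent.W868.NDfn

/-!
# Projections between cones of a notion of forcing, and the generic extensions
-/

set_option autoImplicit false
set_option linter.unusedSectionVars false

namespace Pool.Agent.TH770

open Pool.Agent.W868 Pool.Agent.W868.PName

variable {P : Type} [Preorder P] [OrderTop P]

/-- `Φ` is a projection from the cone below `s` to the cone below `u`. -/
structure Proj (s u : P) (Φ : P → P) : Prop where
  le : ∀ t ≤ s, Φ t ≤ u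
  mono : ∀ t ≤ s, ∀ t' ≤ t, Φ t' ≤ Φ t
  proj : ∀ t ≤ s, ∀ p ≤ Φ t, ∃ t' ≤ t, Φ t' ≤ p

/-- The transfer of names. -/
def tr (s : P) (Φ : P → P) : PName P → PName P
  | .mk ι x c => .mk {a : ι × P // a.2 ≤ s ∧ Φ a.2 ≤ c a.1} (fun a => tr s Φ (x a.1.1))
      (fun a => a.1.2)

theorem el_tr {s : P} {Φ : P → P} {x w : PName P} {t : P} : El (tr s Φ x) w t ↔
    ∃ y c, El x y c ∧ t ≤ s ∧ Φ t ≤ c ∧ w = tr s Φ y := by
  cases x with
  | mk ι x c =>
    rw [tr, el_mk]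
    constructor
    · rintro ⟨⟨⟨i, t'⟩, h1, h2⟩, rfl, rfl⟩
      exact ⟨_, _, ⟨i, rfl, rfl⟩, h1, h2, rfl⟩
    · rintro ⟨_, _, ⟨i, rfl, rfl⟩, h1, h2, rfl⟩
      exact ⟨⟨⟨i, t⟩, h1, h2⟩, rfl, rfl⟩

/-- `z` is a witness for the genericity condition of the formula. -/
def Gen1 (z : PName P) : {n : ℕ} → Fml (PName P) n → (Fin n → PName P) → P → Prop
  | _, .mem s t, v, r => Fmem (tv v s) (tv v t) r →
      ∃ c, El (tv v t) z c ∧ r ≤ c ∧ Feq (tv v s) z r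
  | _, .eq s t, v, r => Feq (tv v s) (tv v t) r ∨
      Wit (tv v s) (tv v t) z r ∨ Wit (tv v t) (tv v s) z r
  | _, .ex φ, v, r => Forces (.ex φ) v r → Forces φ (Fin.cons z v) r
  | _, _, _, _ => True

/-- The condition decides the formula, with the witness `z`. -/
def Dcd {n : ℕ} (φ : Fml (PName P) n) (v : Fin n → PName P) (z : PName P) (r : P) : Prop :=
  (Forces φ v r ∨ ∀ s ≤ r, ¬ Forces φ v s) ∧ Gen1 z φ v r

omit [OrderTop P] in
theorem gen_of_gen1 {N : Set (PName P)} {n : ℕ} {φ : Fml (PName P) n} {v : Fin n → PName P}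
    {z : PName P} {r : P} (hz : z ∈ N) (h : Gen1 z φ v r) : Gen N φ v r := by
  cases φ with
  | mem s t => exact fun h1 => ⟨z, hz, h h1⟩
  | eq s t =>
    rcases h with h | h
    · exact Or.inl h
    · exact Or.inr ⟨z, hz, h⟩
  | neg φ => trivial
  | and φ ψ => trivial
  | ex φ => exact fun h1 => ⟨z, hz, h h1⟩

theorem wit_mono {x y z : PName P} {p q : P} (h : Wit x y z p) (hq : q ≤ p) : Wit x y z q := by
  obtain ⟨⟨c, h1, h2⟩, h3⟩ := h
  exact ⟨⟨c, h1, hq.trans h2⟩, fun s hs => h3 s (hs.trans hq)⟩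

theorem Dcd.mono {n : ℕ} {φ : Fml (PName P) n} {v : Fin n → PName P} {z : PName P} {r r' : P}
    (h : Dcd φ v z r) (hr : r' ≤ r) : Dcd φ v z r' := by
  obtain ⟨h1, h2⟩ := h
  refine ⟨?_, ?_⟩
  · rcases h1 with h1 | h1
    · exact Or.inl (Forces.mono h1 hr)
    · exact Or.inr fun s hs => h1 s (hs.trans hr)
  · cases φ with
    | mem s t =>
      intro h3
      rcases h1 with h1 | h1
      · obtain ⟨c, h4, h5, h6⟩ := h2 h1
        exact ⟨c, h4, hr.trans h5, h6.mono hr⟩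
      · exact absurd h3 (h1 r' hr)
    | eq s t =>
      rcases h2 with h2 | h2 | h2
      · exact Or.inl (h2.mono hr)
      · exact Or.inr (Or.inl (wit_mono h2 hr))
      · exact Or.inr (Or.inr (wit_mono h2 hr))
    | neg φ => trivial
    | and φ ψ => trivial
    | ex φ =>
      intro h3
      rcases h1 with h1 | h1
      · exact Forces.mono (h2 h1) hr
      · exact absurd h3 (h1 r' hr)

theorem exists_dcd {n : ℕ} (φ : Fml (PName P) n) (v : Fin n → PName P) (p : P) :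
    ∃ r ≤ p, ∃ z, Dcd φ v z r := by
  by_cases h : ∃ r ≤ p, Forces φ v r
  · obtain ⟨r, hrp, hf⟩ := h
    cases φ with
    | mem s t =>
      obtain ⟨r', hr', z, c, h1, h2, h3⟩ := fmem_iff.1 hf r le_rfl
      exact ⟨r', hr'.trans hrp, z, Or.inl (Forces.mono hf hr'), fun _ => ⟨c, h1, h2, h3⟩⟩
    | eq s t => exact ⟨r, hrp, emp, Or.inl hf, Or.inl hf⟩
    | neg φ => exact ⟨r, hrp, emp, Or.inl hf, trivial⟩
    | and φ ψ => exact ⟨r, hrp, emp, Or.inl hf, trivial⟩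
    | ex φ =>
      obtain ⟨r', hr', z, hz⟩ := hf r le_rfl
      exact ⟨r', hr'.trans hrp, z, Or.inl (Forces.mono hf hr'), fun _ => hz⟩
  · push Not at h
    cases φ with
    | mem s t => exact ⟨p, le_rfl, emp, Or.inr h, fun h1 => absurd h1 (h p le_rfl)⟩
    | eq s t =>
      obtain ⟨r, hr, z, hz⟩ := exists_wit (h p le_rfl)
      exact ⟨r, hr, z, Or.inr fun s hs => h s (hs.trans hr), Or.inr hz⟩
    | neg φ => exact ⟨p, le_rfl, emp, Or.inr h, trivial⟩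
    | and φ ψ => exact ⟨p, le_rfl, emp, Or.inr h, trivial⟩
    | ex φ => exact ⟨p, le_rfl, emp, Or.inr h, fun h1 => absurd h1 (h p le_rfl)⟩

section rules

open Classical

/-- The name of the set of the conditions whose image decides the formula. -/
noncomputable def denN (s : P) (Φ : P → P) (q : Query P) : PName P :=
  .mk {t : P // t ≤ s ∧ ∃ z, Dcd q.φ q.v z (Φ t)} (fun t => t.2.2.choose) (fun t => t.1)

noncomputable def rTr (s : P) (Φ : P → P) : Rule P := fun q => match q with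
  | ⟨_, .mem a _, v, p⟩ => (tr s Φ (tv v a), p)
  | q => (emp, q.p)

noncomputable def rInv (s : P) (Φ : P → P) : Rule P := fun q => match q with
  | ⟨_, .mem a b, v, p⟩ =>
    if h : ∃ i : (tv v a).idx, tr s Φ ((tv v a).chd i) = tv v b ∧ Φ p ≤ (tv v a).cnd i
    then ((tv v a).chd h.choose, p) else (emp, p)
  | q => (emp, q.p)

noncomputable def rPhi (Φ : P → P) : Rule P := fun q => (emp, Φ q.p)

noncomputable def rDen (s : P) (Φ : P → P) : Rule P := fun q => (denN s Φ q, q.p)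

/-- The rules for the projection. -/
noncomputable def trRules (s : P) (Φ : P → P) : Set (Rule P) :=
  {rTr s Φ, rInv s Φ, rPhi Φ, rDen s Φ}

end rules

section pkg

variable {s u : P} {Φ : P → P} (hΦ : Proj s u Φ) (π : Pkg P)
  (hcl : ∀ ρ ∈ trRules s Φ, ∀ q : Query P, q.In π.N π.C → (ρ q).1 ∈ π.N ∧ (ρ q).2 ∈ π.C)
  (hg : π.g 0 ≤ s)

include hcl in
theorem tr_mem {x : PName P} (hx : x ∈ π.N) : tr s Φ x ∈ π.N :=
  (hcl (rTr s Φ) (by simp [trRules]) _ (query2 hx hx (π.gC 0))).1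

include hcl in
theorem inv_mem {x w : PName P} {k : ℕ} (hx : x ∈ π.N) (hw : w ∈ π.N)
    (h : ∃ i : x.idx, tr s Φ (x.chd i) = w ∧ Φ (π.g k) ≤ x.cnd i) :
    ∃ i : x.idx, tr s Φ (x.chd i) = w ∧ Φ (π.g k) ≤ x.cnd i ∧ x.chd i ∈ π.N := by
  have h1 := (hcl (rInv s Φ) (by simp [trRules]) _ (query2 hx hw (π.gC k))).1
  have h2 : ∃ i : (tv (Fin.elim0 : Fin 0 → PName P) (Sum.inr x)).idx,
      tr s Φ ((tv (Fin.elim0 : Fin 0 → PName P) (Sum.inr x)).chd i) =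
        tv (Fin.elim0 : Fin 0 → PName P) (Sum.inr w) ∧
      Φ (π.g k) ≤ (tv (Fin.elim0 : Fin 0 → PName P) (Sum.inr x)).cnd i := h
  unfold rInv at h1
  simp only [dif_pos h2] at h1
  exact ⟨h2.choose, h2.choose_spec.1, h2.choose_spec.2, h1⟩

include hcl in
theorem phi_mem {p : P} (hp : p ∈ π.C) : Φ p ∈ π.C := by
  have h := (hcl (rPhi Φ) (by simp [trRules])
    ⟨0, .mem (Sum.inr (check ZFSet.omega)) (Sum.inr (check ZFSet.omega)), Fin.elim0, p⟩
    (query2 π.om π.om hp)).2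
  exact h

include hcl in
theorem den_mem {n : ℕ} {φ : Fml (PName P) n} {v : Fin n → PName P} (hφ : φ.Over π.N)
    (hv : ∀ i, v i ∈ π.N) : denN s Φ ⟨n, φ, v, ⊤⟩ ∈ π.N :=
  (hcl (rDen s Φ) (by simp [trRules]) ⟨n, φ, v, π.g 0⟩ ⟨hφ, hv, π.gC 0⟩).1

include hΦ hcl hg in
theorem gen_phi {n : ℕ} {φ : Fml (PName P) n} {v : Fin n → PName P} (hφ : φ.Over π.N)
    (hv : ∀ i, v i ∈ π.N) : ∃ k, ∃ z ∈ π.N, Dcd φ v z (Φ (π.g k)) := by
  set X := denN s Φ ⟨n, φ, v, ⊤⟩ with hX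
  have hXN : X ∈ π.N := den_mem π hcl hφ hv
  have hF : Forces (Fml.ex (.mem (Sum.inl 0) (Sum.inr X)) : Fml (PName P) 0) Fin.elim0
      (π.g 0) := by
    intro t ht
    have hts : t ≤ s := ht.trans hg
    obtain ⟨r, hr, z, hz⟩ := exists_dcd φ v (Φ t)
    obtain ⟨t', ht', h1⟩ := hΦ.proj t hts r hr
    have h2 : t' ≤ s ∧ ∃ z, Dcd φ v z (Φ t') := ⟨ht'.trans hts, z, hz.mono h1⟩
    refine ⟨t', ht', h2.2.choose, ?_⟩
    refine fmem_iff.2 fun q hq => ⟨q, le_rfl, h2.2.choose, t', ?_, hq, Feq.refl _ _⟩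
    exact ⟨⟨t', h2⟩, rfl, rfl⟩
  obtain ⟨a, -, ha⟩ := (π.sat_iff _ (tOver_mem hXN) Fin.elim0 fun i => i.elim0).2 ⟨0, hF⟩
  have ha' : a ∈ π.val X := ha
  obtain ⟨y, hy, c, hc, ⟨k, hk⟩, -⟩ := π.mem_val.1 ha'
  obtain ⟨⟨t, h1⟩, rfl, rfl⟩ := hc
  have hkt : π.g k ≤ t := hk
  refine ⟨k, _, hy, ?_⟩
  exact h1.2.choose_spec.mono (hΦ.mono t h1.1 _ hkt)
where
  tOver_mem {X : PName P} (hXN : X ∈ π.N) :
      (Fml.ex (.mem (Sum.inl 0) (Sum.inr X)) : Fml (PName P) 0).Over π.N :=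
    ⟨TOver.inl _, tOver_inr.2 hXN⟩

/-- The package of the projected generic sequence. -/
noncomputable def push : Pkg P where
  N := π.N
  C := π.C
  g := fun k => Φ (π.g k)
  cnt := π.cnt
  closed := π.closed
  om := π.om
  gC := fun k => phi_mem π hcl (π.gC k)
  anti := fun k => hΦ.mono _ ((π.g_anti (Nat.zero_le k)).trans hg) _ (π.anti k)
  gen := by
    rintro ⟨n, φ, v, p⟩ ⟨h1, h2⟩
    obtain ⟨k, z, hz, h3, h4⟩ := gen_phi hΦ π hcl hg h1 h2
    exact ⟨k, h3, gen_of_gen1 hz h4⟩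

theorem val_tr (x : PName P) (hx : x ∈ π.N) :
    π.val (tr s Φ x) = (push hΦ π hcl hg).val x := by
  induction x using el_ind with
  | h x ih =>
    ext z
    rw [Pkg.mem_val, Pkg.mem_val]
    constructor
    · rintro ⟨w, hw, t, ht, ⟨k, hk⟩, rfl⟩
      obtain ⟨y, c, ⟨i, rfl, rfl⟩, h2, h3, rfl⟩ := el_tr.1 ht
      obtain ⟨j, h4, h5, h6⟩ := inv_mem π hcl (k := k) hx hw
        ⟨i, rfl, (hΦ.mono t h2 _ hk).trans h3⟩
      refine ⟨x.chd j, h6, x.cnd j, ⟨j, rfl, rfl⟩, ⟨k, h5⟩, ?_⟩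
      rw [← ih _ _ ⟨j, rfl, rfl⟩ h6, h4]
    · rintro ⟨y, hy, c, hc, ⟨k, hk⟩, rfl⟩
      refine ⟨tr s Φ y, tr_mem π hcl hy, π.g k, el_tr.2 ⟨y, c, hc, ?_, hk, rfl⟩, ⟨k, le_rfl⟩,
        ih _ _ hc hy⟩
      exact (π.g_anti (Nat.zero_le k)).trans hg

theorem push_W_subset : (push hΦ π hcl hg).W ⊆ π.W := by
  rintro _ ⟨x, hx, rfl⟩
  rw [← val_tr hΦ π hcl hg x hx]
  exact π.val_mem_W (tr_mem π hcl hx)

end pkg

/-- The ground models of two packages with the same names are the same. -/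
theorem hat_congr {π π' : Pkg P} (h : π'.N = π.N) (x : ZFSet.{0}) : π'.hat x = π.hat x := by
  induction x using ZFSet.inductionOn with
  | _ x ih =>
    ext z
    rw [Pkg.mem_hat, Pkg.mem_hat]
    have hZ : π'.Z = π.Z := by
      unfold Pkg.Z
      rw [h]
    rw [hZ]
    constructor
    · rintro ⟨y, h1, h2, rfl⟩
      exact ⟨y, h1, h2, (ih y h1).symm⟩
    · rintro ⟨y, h1, h2, rfl⟩
      exact ⟨y, h1, h2, ih y h1⟩

/-- The transfer theorem. -/
theorem transfer {s u : P} {Φ : P → P} (hΦ : Proj s u Φ) (A : Set (PName P)) (hA : A.Countable)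
    (t₀ : P) (ht₀ : t₀ ≤ s) : ∃ π π' : Pkg P, A ⊆ π.N ∧ π.g 0 = t₀ ∧ π'.N = π.N ∧
      (∀ k, π'.g k = Φ (π.g k)) ∧ π'.W ⊆ π.W := by
  obtain ⟨π, h1, h2, h3⟩ := exists_pkg (trRules s Φ) (by
    unfold trRules
    exact Set.Finite.countable (Set.toFinite _)) A hA t₀
  have hg : π.g 0 ≤ s := h2.trans_le ht₀
  exact ⟨π, push hΦ π h3 hg, h1, h2, rfl, fun _ => rfl, push_W_subset hΦ π h3 hg⟩

end Pool.Agent.TH770
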