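import Pool.Agent.TH770.Poset2
import Pool.Agent.TH770.Transfer

/-!
# Amalgamation
-/

set_option autoImplicit false
set_option linter.unusedSectionVars false

namespace Pool.Agent.TH770

open Cardinal Set Pool.Agent.H833R3.Levy

variable {K : Type} [LinearOrder K]

noncomputable instance topCd [hK : Fact (Inac K)] : OrderTop (Cd K) where
  top := tp hK.out
  le_top p := le_tp hK.out p

/-! ### Gluing -/

/-- The union of `A` and the part of `B` above `m`. -/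
def glue (A B : Set K) (m : K) : Set K := {x | x ∈ A ∨ (x ∈ B ∧ m ≤ x)}

theorem cl_glue {A B : Set K} {m μ : K} (hA : CL A) (hB : CL B) (hμ : IsGreatest A μ)
    (hμm : μ < m) (hs : pz μ < #(Iio m)) (hm : m ∈ B) : CL (glue A B m) where
  flr δ := by
    rcases lt_or_ge δ m with h | h
    · obtain ⟨ν, h1, h2⟩ := hA.flr δ
      refine ⟨ν, ⟨Or.inl h1.1, h1.2⟩, ?_⟩
      rintro x ⟨hx | ⟨-, hx⟩, hx'⟩
      · exact h2 ⟨hx, hx'⟩
      · exact absurd (hx.trans hx') (not_le.2 h)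
    · obtain ⟨ν, h1, h2⟩ := hB.flr δ
      have h3 : m ≤ ν := h2 ⟨hm, h⟩
      refine ⟨ν, ⟨Or.inr ⟨h1.1, h3⟩, h1.2⟩, ?_⟩
      rintro x ⟨hx | ⟨hx, -⟩, hx'⟩
      · exact (hμ.2 hx).trans (hμm.le.trans h3)
      · exact h2 ⟨hx, hx'⟩
  bdd := by
    obtain ⟨b, hb⟩ := hB.bdd
    refine ⟨b, ?_⟩
    rintro x (hx | ⟨hx, -⟩)
    · exact (hμ.2 hx).trans (hμm.le.trans (hb m hm))
    · exact hb x hx
  sp := by
    rintro ν (hν | ⟨hν, hν1⟩) ν' (hν' | ⟨hν', hν1'⟩) h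
    · exact hA.sp ν hν ν' hν' h
    · exact (pz_mono (hμ.2 hν)).trans_lt (hs.trans_le (iio_mono hν1'))
    · exact absurd (hν1.trans (h.le.trans (hμ.2 hν'))) (not_le.2 hμm)
    · exact hB.sp ν hν ν' hν' h
  sing := by
    rintro δ (hδ | ⟨hδ, hδm⟩) h1 h2
    · refine hA.sing δ hδ h1 fun x hx => ?_
      obtain ⟨y, hy | ⟨-, hy⟩, h3, h4⟩ := h2 x hx
      · exact ⟨y, hy, h3, h4⟩
      · exact absurd (hy.trans (h4.le.trans (hμ.2 hδ))) (not_le.2 hμm)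
    · rcases eq_or_lt_of_le hδm with rfl | hlt
      · obtain ⟨y, hy | ⟨-, hy⟩, h3, h4⟩ := h2 μ hμm
        · exact absurd (hμ.2 hy) (not_le.2 h3)
        · exact absurd hy (not_le.2 h4)
      · refine hB.sing δ hδ h1 fun x hx => ?_
        obtain ⟨y, hy | ⟨hy, -⟩, h3, h4⟩ := h2 (max x m) (max_lt hx hlt)
        · exact absurd ((hμ.2 hy).trans hμm.le) (not_le.2 ((le_max_right _ _).trans_lt h3))
        · exact ⟨y, hy, (le_max_left _ _).trans_lt h3, h4⟩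

theorem endExt_glue {A B : Set K} {m μ : K} (hμ : IsGreatest A μ) (hμm : μ < m) :
    EndExt A (glue A B m) := by
  refine ⟨fun x hx => Or.inl hx, ?_⟩
  rintro x (hx | ⟨-, hx⟩) y hy hxy
  · exact hx
  · exact absurd (hx.trans (hxy.trans (hμ.2 hy))) (not_le.2 hμm)

theorem endExt_glue' {A B : Set K} {m μ : K} (hμ : IsGreatest A μ) (hμm : μ < m) (hm : m ∈ B) :
    EndExt (insert m A) (glue A B m) := by
  refine ⟨?_, ?_⟩
  · rintro x (rfl | hx)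
    · exact Or.inr ⟨hm, le_rfl⟩
    · exact Or.inl hx
  · rintro x (hx | ⟨-, hx⟩) y (rfl | hy) hxy
    · exact Or.inr hx
    · exact Or.inr hx
    · exact Or.inl (le_antisymm hxy hx)
    · exact absurd (hx.trans (hxy.trans (hμ.2 hy))) (not_le.2 hμm)

theorem cv_glue {A B : Set K} {m μ ν : K} {f : Set (K × K)} (hμ : IsGreatest A μ) (hμm : μ < m)
    (hν : m ≤ ν) (h : CV B ν f) : CV (glue A B m) ν f := by
  refine ⟨h.fn, h.seg, h.dom, fun hf => ?_, ?_⟩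
  · obtain ⟨h1, ν', h2, h3⟩ := h.ne hf
    exact ⟨Or.inr ⟨h1, hν⟩, ν', Or.inr ⟨h2, hν.trans h3.le⟩, h3⟩
  · rintro ξ y hy ν' (hν' | ⟨hν', -⟩) hlt
    · exact absurd ((hμ.2 hν').trans (hμm.le.trans hν)) (not_le.2 hlt)
    · exact h.tg ξ y hy ν' hν' hlt

/-! ### Processing a generic sequence of codes -/

section process

variable [WellFoundedLT K] (e : K → K → Set (K × K))

/-- The move at `η` is legal. -/
def Lg (f : Set (K × K)) : K → Prop :=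
  wellFounded_lt.fix fun η ih => ∃ y, (η, y) ∈ f ∧
    ∀ η' (h : η' < η) y', (η', y') ∈ f → ih η' h → ∀ ν, e y' ν ⊆ e y ν

theorem lg_iff (f : Set (K × K)) (η : K) : Lg e f η ↔ ∃ y, (η, y) ∈ f ∧
    ∀ η' < η, ∀ y', (η', y') ∈ f → Lg e f η' → ∀ ν, e y' ν ⊆ e y ν := by
  rw [Lg, WellFounded.fix_eq]

/-- The functions. -/
structure Fn (f : Set (K × K)) : Prop where
  fn : ∀ ξ y y', (ξ, y) ∈ f → (ξ, y') ∈ f → y = y'
  seg : ∀ ξ y, (ξ, y) ∈ f → ∀ ξ' < ξ, ∃ y', (ξ', y') ∈ f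

theorem lg_congr {f f' : Set (K × K)} (hf : Fn f) (hf' : Fn f') (h : f ⊆ f') (η y : K)
    (hη : (η, y) ∈ f) : Lg e f η ↔ Lg e f' η := by
  induction η using WellFoundedLT.induction generalizing y with
  | ind η ih =>
    rw [lg_iff, lg_iff]
    constructor
    · rintro ⟨z, hz, h1⟩
      refine ⟨z, h hz, fun η' hη' y' hy' hl => ?_⟩
      obtain ⟨y'', hy''⟩ := hf.seg η y hη η' hη'
      obtain rfl := hf'.fn _ _ _ (h hy'') hy'
      exact h1 η' hη' _ hy'' ((ih η' hη' _ hy'').2 hl)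
    · rintro ⟨z, hz, h1⟩
      obtain rfl := hf'.fn _ _ _ (h hη) hz
      exact ⟨_, hη, fun η' hη' y' hy' hl => h1 η' hη' y' (h hy') ((ih η' hη' _ hy').1 hl)⟩

/-- The result of the process. -/
def Out (a₀ : K → Set (K × K)) (f : Set (K × K)) (ν : K) : Set (K × K) :=
  a₀ ν ∪ {z | ∃ η y, (η, y) ∈ f ∧ Lg e f η ∧ z ∈ e y ν}

theorem out_mono {a₀ : K → Set (K × K)} {f f' : Set (K × K)} (hf : Fn f) (hf' : Fn f')
    (h : f ⊆ f') (ν : K) : Out e a₀ f ν ⊆ Out e a₀ f' ν := by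
  rintro z (hz | ⟨η, y, h1, h2, h3⟩)
  · exact Or.inl hz
  · exact Or.inr ⟨η, y, h h1, (lg_congr e hf hf' h η y h1).1 h2, h3⟩

theorem lg_chain {f : Set (K × K)} (hf : Fn f) {η η' y y' : K} (h : (η, y) ∈ f)
    (h' : (η', y') ∈ f) (hl : Lg e f η) (hl' : Lg e f η') :
    (∀ ν, e y ν ⊆ e y' ν) ∨ ∀ ν, e y' ν ⊆ e y ν := by
  rcases lt_trichotomy η η' with h1 | h1 | h1
  · left
    obtain ⟨z, hz, h2⟩ := (lg_iff e f η').1 hl'
    obtain rfl := hf.fn _ _ _ h' hz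
    exact h2 η h1 y h hl
  · subst h1
    obtain rfl := hf.fn _ _ _ h h'
    exact Or.inl fun _ => subset_rfl
  · right
    obtain ⟨z, hz, h2⟩ := (lg_iff e f η).1 hl
    obtain rfl := hf.fn _ _ _ h hz
    exact h2 η' h1 y' h' hl'

end process

section amal

variable (hK : Inac K) {p s : Cd K} (hs : s ≤ p) {m : K} (hm : mx s < m)
  (hm' : pz (mx s) < #(Iio m))

/-- The possible middle parts. -/
def WW (p s : Cd K) (m : K) : Set (K → Set (K × K)) :=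
  {a | (∀ ν < mx p, a ν = ∅) ∧ (∀ ν, m ≤ ν → a ν = ∅) ∧ (∀ ν, CV (insert m s.c) ν (a ν)) ∧
    ∀ ν, mx p ≤ ν → s.F ν ⊆ a ν}

open Classical in
/-- The least middle part. -/
noncomputable def bas (p s : Cd K) : K → Set (K × K) := fun ν => if ν < mx p then ∅ else s.F ν

theorem bas_lt {ν : K} (h : ν < mx p) : bas p s ν = ∅ := if_pos h

theorem bas_ge {ν : K} (h : mx p ≤ ν) : bas p s ν = s.F ν := if_neg (not_lt.2 h)

include hm in
theorem bas_mem : bas p s ∈ WW p s m := by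
  refine ⟨fun ν hν => bas_lt hν, fun ν hν => ?_, fun ν => ?_, fun ν hν => (bas_ge hν).ge⟩
  · rcases lt_or_ge ν (mx p) with h | h
    · exact bas_lt h
    · rw [bas_ge h]
      exact F_empty s (hm.le.trans hν)
  · rcases lt_or_ge ν (mx p) with h | h
    · rw [bas_lt h]
      exact CV.empty _ ν
    · rw [bas_ge h]
      exact (s.cv ν).ext (endExt_insert (isGreatest_mx s) hm)

theorem bas_sub {a : K → Set (K × K)} (ha : a ∈ WW p s m) (ν : K) : bas p s ν ⊆ a ν := by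
  rcases lt_or_ge ν (mx p) with h | h
  · rw [bas_lt h]
    exact empty_subset _
  · rw [bas_ge h]
    exact ha.2.2.2 ν h

include hm hm' in
theorem WW_sub : WW p s m ⊆ Fm m := by
  rintro a ⟨h1, h2, h3, h4⟩
  refine ⟨fun ν ξ y hy => ?_, fun ν ξ y y' h h' => (h3 ν).fn ξ y y' h h'⟩
  have hν : ν < m := by
    by_contra h
    rw [h2 ν (not_lt.1 h)] at hy
    exact hy
  have h5 : ν ∈ s.c := ((h3 ν).ne ⟨_, hy⟩).1.resolve_left hν.ne
  refine ⟨hν, ?_, (h3 ν).tg ξ y hy m (Or.inl rfl) hν⟩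
  by_contra h
  have h6 : #(Iio ξ) ≤ pz ν :=
    le_trans (mk_le_mk_of_subset fun x hx => (h3 ν).seg ξ y hy x hx) (h3 ν).dom
  exact absurd (iio_mono (not_lt.1 h)) (not_le.2 (h6.trans_lt
    ((pz_mono (le_mx s h5)).trans_lt hm')))

include hK hm hm' in
/-- The codes. -/
theorem exists_code : ∃ e : K → K → Set (K × K), (∀ y, e y ∈ WW p s m) ∧
    ∀ a ∈ WW p s m, ∃ y, #(Iio y) < pz m ∧ e y = a := by
  classical
  have h1 : #(WW p s m) ≤ #(Tg m) := by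
    rw [card_Tg hK]
    exact (mk_le_mk_of_subset (WW_sub hm hm')).trans (card_Fm hK m)
  obtain ⟨i⟩ := (Cardinal.le_def _ _).1 h1
  have : Nonempty (WW p s m) := ⟨⟨bas p s, bas_mem hm⟩⟩
  refine ⟨fun y => if h : y ∈ Tg m then (Function.invFun i ⟨y, h⟩).1 else bas p s,
    fun y => ?_, fun a ha => ⟨(i ⟨a, ha⟩).1, (i ⟨a, ha⟩).2, ?_⟩⟩
  · by_cases h : y ∈ Tg m
    · simp only [dif_pos h]
      exact (Function.invFun i ⟨y, h⟩).2
    · simp only [dif_neg h]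
      exact bas_mem hm
  · have h2 : (i ⟨a, ha⟩).1 ∈ Tg m := (i ⟨a, ha⟩).2
    simp only [dif_pos h2]
    have h3 : Function.invFun i ⟨(i ⟨a, ha⟩).1, h2⟩ = ⟨a, ha⟩ :=
      Function.leftInverse_invFun i.injective _
    rw [h3]

variable [WellFoundedLT K] {e : K → K → Set (K × K)} (he : ∀ y, e y ∈ WW p s m)

include hm he in
theorem out_mem {f : Set (K × K)} (hf : Fn f) (hd : #{ξ | ∃ y, (ξ, y) ∈ f} ≤ pz (mx p)) :
    Out e (bas p s) f ∈ WW p s m := by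
  have hemp : ∀ ν, (∀ y, e y ν = ∅) → bas p s ν = ∅ → Out e (bas p s) f ν = ∅ := by
    intro ν h1 h2
    refine eq_empty_of_forall_notMem ?_
    rintro z (hz | ⟨η, y, -, -, hz⟩)
    · rw [h2] at hz
      exact hz
    · rw [h1] at hz
      exact hz
  have hb := bas_mem (p := p) hm
  refine ⟨fun ν hν => hemp ν (fun y => (he y).1 ν hν) (hb.1 ν hν),
    fun ν hν => hemp ν (fun y => (he y).2.1 ν hν) (hb.2.1 ν hν), fun ν => ?_, fun ν hν => ?_⟩
  · rcases lt_or_ge ν (mx p) with hν | hν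
    · rw [hemp ν (fun y => (he y).1 ν hν) (hb.1 ν hν)]
      exact CV.empty _ ν
    refine ⟨?_, ?_, ?_, ?_, ?_⟩
    · rintro ξ z z' (hz | ⟨η, y, h1, h2, hz⟩) (hz' | ⟨η', y', h1', h2', hz'⟩)
      · exact (hb.2.2.1 ν).fn ξ z z' hz hz'
      · exact ((he y').2.2.1 ν).fn ξ z z' (bas_sub (he y') ν hz) hz'
      · exact ((he y).2.2.1 ν).fn ξ z z' hz (bas_sub (he y) ν hz')
      · rcases lg_chain e hf h1 h1' h2 h2' with h | h
        · exact ((he y').2.2.1 ν).fn ξ z z' (h ν hz) hz'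
        · exact ((he y).2.2.1 ν).fn ξ z z' hz (h ν hz')
    · rintro ξ z (hz | ⟨η, y, h1, h2, hz⟩) ξ' hξ'
      · obtain ⟨z', hz'⟩ := (hb.2.2.1 ν).seg ξ z hz ξ' hξ'
        exact ⟨z', Or.inl hz'⟩
      · obtain ⟨z', hz'⟩ := ((he y).2.2.1 ν).seg ξ z hz ξ' hξ'
        exact ⟨z', Or.inr ⟨η, y, h1, h2, hz'⟩⟩
    · have h1 : {ξ | ∃ z, (ξ, z) ∈ Out e (bas p s) f ν} ⊆ {ξ | ∃ z, (ξ, z) ∈ bas p s ν} ∪
          ⋃ η : {ξ | ∃ y, (ξ, y) ∈ f}, {ξ | ∃ z, (ξ, z) ∈ e (η.2.choose) ν} := by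
        rintro ξ ⟨z, hz | ⟨η, y, h1, h2, hz⟩⟩
        · exact Or.inl ⟨z, hz⟩
        · have h3 : ∃ y, (η, y) ∈ f := ⟨y, h1⟩
          obtain h4 := hf.fn _ _ _ h1 h3.choose_spec
          exact Or.inr (mem_iUnion.2 ⟨⟨η, h3⟩, z, h4 ▸ hz⟩)
      refine (mk_le_mk_of_subset h1).trans ((Cardinal.mk_union_le _ _).trans ?_)
      have h2 : #(⋃ η : {ξ | ∃ y, (ξ, y) ∈ f}, {ξ | ∃ z, (ξ, z) ∈ e (η.2.choose) ν}) ≤ pz ν := by
        refine (Cardinal.mk_iUnion_le _).trans ?_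
        have h2 : (⨆ η : {ξ | ∃ y, (ξ, y) ∈ f}, #{ξ | ∃ z, (ξ, z) ∈ e (η.2.choose) ν}) ≤ pz ν :=
          ciSup_le' fun η => ((he _).2.2.1 ν).dom
        refine (mul_le_mul' (hd.trans (pz_mono hν)) h2).trans ?_
        rw [Cardinal.mul_eq_self (aleph0_le_pz ν)]
      refine (add_le_add (hb.2.2.1 ν).dom h2).trans ?_
      rw [Cardinal.add_eq_self (aleph0_le_pz ν)]
    · rintro ⟨z, hz | ⟨η, y, h1, h2, hz⟩⟩
      · exact (hb.2.2.1 ν).ne ⟨z, hz⟩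
      · exact ((he y).2.2.1 ν).ne ⟨z, hz⟩
    · rintro ξ z (hz | ⟨η, y, h1, h2, hz⟩) ν' hν' hlt
      · exact (hb.2.2.1 ν).tg ξ z hz ν' hν' hlt
      · exact ((he y).2.2.1 ν).tg ξ z hz ν' hν' hlt
  · exact fun z hz => Or.inl (bas_sub hb ν (by rwa [bas_ge hν]))

include hK he in
/-- The process can reach every stronger middle part. -/
theorem exists_move {f : Set (K × K)} (hf : Fn f) (hd : #{ξ | ∃ y, (ξ, y) ∈ f} ≤ pz (mx p))
    {y' : K} (ha : ∀ ν, Out e (bas p s) f ν ⊆ e y' ν) :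
    ∃ δ, Fn (insert (δ, y') f) ∧ #{ξ | ∃ y, (ξ, y) ∈ insert (δ, y') f} ≤ pz (mx p) ∧
      ∀ ν, Out e (bas p s) (insert (δ, y') f) ν = e y' ν := by
  have hne : ({ξ | ∀ y, (ξ, y) ∉ f} : Set K).Nonempty := by
    by_contra h
    have h1 : {ξ | ∃ y, (ξ, y) ∈ f} = Set.univ := by
      ext ξ
      refine ⟨fun _ => trivial, fun _ => ?_⟩
      by_contra h2
      exact h ⟨ξ, fun y hy => h2 ⟨y, hy⟩⟩
    rw [h1, Cardinal.mk_univ] at hd
    exact absurd (pz_lt hK (mx p)) (not_lt.2 hd)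
  obtain ⟨δ, hδ, hδ'⟩ : ∃ δ, (∀ y, (δ, y) ∉ f) ∧ ∀ ξ < δ, ∃ y, (ξ, y) ∈ f := by
    refine ⟨wellFounded_lt.min _ hne, WellFounded.min_mem _ _ hne, fun ξ hξ => ?_⟩
    by_contra h
    push Not at h
    exact absurd hξ (WellFounded.not_lt_min _ _ (show ξ ∈ {ξ | ∀ y, (ξ, y) ∉ f} from h))
  have hlt : ∀ ξ y, (ξ, y) ∈ f → ξ < δ := by
    intro ξ y h
    by_contra h1
    rcases eq_or_lt_of_le (not_lt.1 h1) with h2 | h2
    · exact hδ y (h2 ▸ h)
    · obtain ⟨z, hz⟩ := hf.seg ξ y h δ h2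
      exact hδ z hz
  have hf' : Fn (insert (δ, y') f) := by
    refine ⟨?_, ?_⟩
    · rintro ξ y z (h | h) (h' | h')
      · rw [(Prod.mk.inj h).2, (Prod.mk.inj h').2]
      · rw [(Prod.mk.inj h).1] at h'
        exact absurd h' (hδ z)
      · rw [(Prod.mk.inj h').1] at h
        exact absurd h (hδ y)
      · exact hf.fn ξ y z h h'
    · rintro ξ y (h | h) ξ' hξ'
      · rw [(Prod.mk.inj h).1] at hξ'
        obtain ⟨z, hz⟩ := hδ' ξ' hξ'
        exact ⟨z, Or.inr hz⟩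
      · obtain ⟨z, hz⟩ := hf.seg ξ y h ξ' hξ'
        exact ⟨z, Or.inr hz⟩
  refine ⟨δ, hf', ?_, fun ν => ?_⟩
  · have h1 : {ξ | ∃ y, (ξ, y) ∈ insert (δ, y') f} ⊆ insert δ {ξ | ∃ y, (ξ, y) ∈ f} := by
      rintro ξ ⟨y, h | h⟩
      · exact Or.inl (Prod.mk.inj h).1
      · exact Or.inr ⟨y, h⟩
    refine (mk_le_mk_of_subset h1).trans ((Cardinal.mk_insert_le).trans ?_)
    refine (add_le_add_left hd 1).trans ?_
    rw [Cardinal.add_one_eq (aleph0_le_pz _)]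
  · have hsub : f ⊆ insert (δ, y') f := subset_insert _ _
    have h2 : ∀ η y, (η, y) ∈ f → Lg e (insert (δ, y') f) η → ∀ ν, e y ν ⊆ e y' ν := by
      intro η y h3 h4 ν z hz
      exact ha ν (Or.inr ⟨η, y, h3, (lg_congr e hf hf' hsub η y h3).2 h4, hz⟩)
    have h3 : Lg e (insert (δ, y') f) δ := by
      rw [lg_iff]
      refine ⟨y', Or.inl rfl, fun η' hη' y hy hl ν => ?_⟩
      rcases hy with hy | hy
      · exact absurd (Prod.mk.inj hy).1 hη'.ne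
      · exact h2 η' y hy hl ν
    apply subset_antisymm
    · rintro z (hz | ⟨η, y, h4 | h4, h5, hz⟩)
      · exact bas_sub (he y') ν hz
      · rw [(Prod.mk.inj h4).2] at hz
        exact hz
      · exact h2 η y h4 h5 ν hz
    · intro z hz
      exact Or.inr ⟨δ, y', Or.inl rfl, h3, hz⟩

end amal

end Pool.Agent.TH770
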