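import Pool.Agent.TH770.Amal

/-!
# The projection
-/

set_option autoImplicit false
set_option linter.unusedSectionVars false

namespace Pool.Agent.TH770

open Cardinal Set Pool.Agent.H833R3.Levy

variable {K : Type} [LinearOrder K]

section star

variable {p s : Cd K} (hs : s ≤ p) {m : K} (hm : mx s < m) (hm' : pz (mx s) < #(Iio m))

/-- The condition `p`, strengthened by the part of `s` below the last point of `p`, with the next
point `m`. -/
noncomputable def star (p s : Cd K) (hs : s ≤ p) (m : K) (hm : mx s < m)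
    (hm' : pz (mx s) < #(Iio m)) : Cd K :=
  addp (qpt p s hs) m (by
    rw [mx_Qp (qpt_mem hs)]
    exact (mx_mono hs).trans_lt hm) (by
    rw [mx_Qp (qpt_mem hs)]
    exact (pz_mono (mx_mono hs)).trans_lt hm')

theorem star_c : (star p s hs m hm hm').c = insert m p.c := rfl

theorem star_F {ν : K} (h : ν < mx p) : (star p s hs m hm hm').F ν = s.F ν := qpt_F hs h

theorem star_le : star p s hs m hm hm' ≤ qpt p s hs := addp_le _ _ _ _

theorem star_le' : star p s hs m hm hm' ≤ p := (star_le hs hm hm').trans (qpt_mem hs).2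

theorem mx_star : mx (star p s hs m hm hm') = m := mx_addp _ _ _ _

variable {t : Cd K} (ht : t ≤ star p s hs m hm hm')

include ht

theorem m_mem : m ∈ t.c := ht.1.1 (by rw [star_c]; exact Or.inl rfl)

theorem mem_p_of {x : K} (hx : x ∈ t.c) (hxm : x < m) : x ∈ p.c := by
  have h := mem_of_le ht hx (by rw [mx_star]; exact hxm.le)
  rw [star_c] at h
  exact h.resolve_left hxm.ne

theorem F_mid {ν : K} (h1 : mx p < ν) (h2 : ν < m) : t.F ν = ∅ :=
  F_notMem t fun h => absurd (le_mx p (mem_p_of hs hm hm' ht h h2)) (not_le.2 h1)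

end star

section phi

variable [hK : Fact (Inac K)] [WellFoundedLT K] {p s : Cd K} (hs : s ≤ p) {m : K} (hm : mx s < m)
  (hm' : pz (mx s) < #(Iio m)) {e : K → K → Set (K × K)} (he : ∀ y, e y ∈ WW p s m)

theorem fn_of (t : Cd K) (ν : K) : Fn (t.F ν) := ⟨(t.cv ν).fn, (t.cv ν).seg⟩

open Classical in
/-- The projection. -/
noncomputable def Phi (e : K → K → Set (K × K)) (he : ∀ y, e y ∈ WW p s m) (t : Cd K) : Cd K :=
  if ht : t ≤ star p s hs m hm hm' then
    { c := glue s.c t.c m
      F := fun ν => if ν < mx p then t.F ν else if ν < m then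
        Out e (bas p s) (t.F (mx p)) ν else t.F ν
      cl := cl_glue s.cl t.cl (isGreatest_mx s) hm hm' (m_mem hs hm hm' ht)
      cv := fun ν => by
        have hmt := m_mem hs hm hm' ht
        have htp : t ≤ p := ht.trans (star_le' hs hm hm')
        by_cases h1 : ν < mx p
        · simp only [h1, if_true]
          have h2 : CV p.c ν (t.F ν) := (t.cv ν).restr htp.1 (mx_mem p) h1
          exact h2.ext (hs.1.trans (endExt_glue (isGreatest_mx s) hm))
        · simp only [h1, if_false]
          by_cases h2 : ν < m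
          · simp only [h2, if_true]
            exact ((out_mem hm he (fn_of t _) (t.cv _).dom).2.2.1 ν).ext
              (endExt_glue' (isGreatest_mx s) hm hmt)
          · simp only [h2, if_false]
            exact cv_glue (isGreatest_mx s) hm (not_lt.1 h2) (t.cv ν) }
  else t

variable {t : Cd K} (ht : t ≤ star p s hs m hm hm')

include ht

theorem phi_c : (Phi hs hm hm' e he t).c = glue s.c t.c m := by
  rw [Phi, dif_pos ht]

theorem phi_F1 {ν : K} (h : ν < mx p) : (Phi hs hm hm' e he t).F ν = t.F ν := by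
  rw [Phi, dif_pos ht]
  exact if_pos h

theorem phi_F2 {ν : K} (h : mx p ≤ ν) (h' : ν < m) :
    (Phi hs hm hm' e he t).F ν = Out e (bas p s) (t.F (mx p)) ν := by
  rw [Phi, dif_pos ht]
  simp only [not_lt.2 h, if_false, h', if_true]

theorem phi_F3 {ν : K} (h : m ≤ ν) : (Phi hs hm hm' e he t).F ν = t.F ν := by
  have h1 : mx p ≤ ν := ((mx_mono hs).trans hm.le).trans h
  rw [Phi, dif_pos ht]
  simp only [not_lt.2 h1, if_false, not_lt.2 h]

theorem phi_le : Phi hs hm hm' e he t ≤ s := by
  refine ⟨?_, fun ν => ?_⟩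
  · rw [phi_c hs hm hm' he ht]
    exact endExt_glue (isGreatest_mx s) hm
  · rcases lt_or_ge ν (mx p) with h | h
    · rw [phi_F1 hs hm hm' he ht h, ← star_F hs hm hm' h]
      exact ht.2 ν
    · rcases lt_or_ge ν m with h' | h'
      · rw [phi_F2 hs hm hm' he ht h h', ← bas_ge (s := s) h]
        exact fun z hz => Or.inl hz
      · rw [F_empty s (hm.le.trans h')]
        exact empty_subset _

theorem phi_mono {t' : Cd K} (h : t' ≤ t) : Phi hs hm hm' e he t' ≤ Phi hs hm hm' e he t := by
  have ht' := h.trans ht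
  refine ⟨?_, fun ν => ?_⟩
  · rw [phi_c hs hm hm' he ht, phi_c hs hm hm' he ht']
    refine ⟨?_, ?_⟩
    · rintro x (hx | ⟨hx, hx'⟩)
      · exact Or.inl hx
      · exact Or.inr ⟨h.1.1 hx, hx'⟩
    · rintro x (hx | ⟨hx, hx'⟩) y (hy | ⟨hy, hy'⟩) hxy
      · exact Or.inl hx
      · exact Or.inl hx
      · exact absurd (hx'.trans (hxy.trans (le_mx s hy))) (not_le.2 hm)
      · exact Or.inr ⟨h.1.2 x hx y hy hxy, hx'⟩
  · rcases lt_or_ge ν (mx p) with h1 | h1
    · rw [phi_F1 hs hm hm' he ht h1, phi_F1 hs hm hm' he ht' h1]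
      exact h.2 ν
    · rcases lt_or_ge ν m with h2 | h2
      · rw [phi_F2 hs hm hm' he ht h1 h2, phi_F2 hs hm hm' he ht' h1 h2]
        exact out_mono e (fn_of t _) (fn_of t' _) (h.2 _) ν
      · rw [phi_F3 hs hm hm' he ht h2, phi_F3 hs hm hm' he ht' h2]
        exact h.2 ν

theorem phi_proj (hcode : ∀ a ∈ WW p s m, ∃ y, #(Iio y) < pz m ∧ e y = a) {r : Cd K}
    (hr : r ≤ Phi hs hm hm' e he t) : ∃ t' ≤ t, Phi hs hm hm' e he t' ≤ r := by
  classical
  have hmt := m_mem hs hm hm' ht
  have hrs : r ≤ s := hr.trans (phi_le hs hm hm' he ht)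
  have hrp : r ≤ p := hrs.trans hs
  have hpm : mx p < m := (mx_mono hs).trans_lt hm
  have hpm' : pz (mx p) < #(Iio m) := (pz_mono (mx_mono hs)).trans_lt hm'
  have hc := phi_c hs hm hm' he ht
  have hmr : m ∈ r.c := hr.1.1 (by rw [hc]; exact Or.inr ⟨hmt, le_rfl⟩)
  have hee : EndExt (insert m s.c) r.c := by
    refine (endExt_glue' (isGreatest_mx s) hm hmt).trans ?_
    rw [← hc]
    exact hr.1
  -- the middle part of `r`
  set a : K → Set (K × K) := fun ν => if mx p ≤ ν ∧ ν < m then r.F ν else ∅ with ha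
  have ha1 : ∀ ν, mx p ≤ ν → ν < m → a ν = r.F ν := fun ν h h' => if_pos ⟨h, h'⟩
  have ha2 : ∀ ν, ν < mx p → a ν = ∅ := fun ν h => if_neg fun h' => absurd h (not_lt.2 h'.1)
  have ha3 : ∀ ν, m ≤ ν → a ν = ∅ := fun ν h => if_neg fun h' => absurd h'.2 (not_lt.2 h)
  have haW : a ∈ WW p s m := by
    refine ⟨ha2, ha3, fun ν => ?_, fun ν hν => ?_⟩
    · rcases lt_or_ge ν (mx p) with h | h
      · rw [ha2 ν h]
        exact CV.empty _ ν
      · rcases lt_or_ge ν m with h' | h'
        · rw [ha1 ν h h']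
          exact (r.cv ν).restr hee (Or.inl rfl) h'
        · rw [ha3 ν h']
          exact CV.empty _ ν
    · rcases lt_or_ge ν m with h' | h'
      · rw [ha1 ν hν h']
        exact hrs.2 ν
      · rw [F_empty s (hm.le.trans h')]
        exact empty_subset _
  obtain ⟨y', hy', hey⟩ := hcode a haW
  have houtW := out_mem hm he (fn_of t (mx p)) (t.cv _).dom
  obtain ⟨δ, h1, h2, h3⟩ := exists_move hK.out he (fn_of t (mx p)) (t.cv _).dom (y' := y') (by
    intro ν
    rw [hey]
    rcases lt_or_ge ν (mx p) with h | h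
    · rw [houtW.1 ν h]
      exact empty_subset _
    · rcases lt_or_ge ν m with h' | h'
      · rw [ha1 ν h h', ← phi_F2 hs hm hm' he ht h h']
        exact hr.2 ν
      · rw [houtW.2.1 ν h']
        exact empty_subset _)
  have hcl' : CL (glue p.c r.c m) := cl_glue p.cl r.cl (isGreatest_mx p) hpm hpm' hmr
  let F' : K → Set (K × K) := fun ν => if ν < mx p then r.F ν else if ν = mx p then
    insert (δ, y') (t.F (mx p)) else if ν < m then ∅ else r.F ν
  have hF1 : ∀ ν, ν < mx p → F' ν = r.F ν := fun ν h => if_pos h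
  have hF2 : F' (mx p) = insert (δ, y') (t.F (mx p)) := by
    simp only [F', lt_irrefl, if_false, if_true]
  have hF3 : ∀ ν, mx p < ν → ν < m → F' ν = ∅ := by
    intro ν h h'
    simp only [F', not_lt.2 h.le, if_false, h.ne', h', if_true]
  have hF4 : ∀ ν, m ≤ ν → F' ν = r.F ν := by
    intro ν h
    have h4 : mx p < ν := hpm.trans_le h
    simp only [F', not_lt.2 h4.le, if_false, h4.ne', not_lt.2 h]
  have hcv' : ∀ ν, CV (glue p.c r.c m) ν (F' ν) := by
    intro ν
    rcases lt_trichotomy ν (mx p) with h | h | h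
    · rw [hF1 ν h]
      exact ((r.cv ν).restr hrp.1 (mx_mem p) h).ext (endExt_glue (isGreatest_mx p) hpm)
    · subst h
      rw [hF2]
      refine ⟨h1.fn, h1.seg, h2, fun _ => ⟨Or.inl (mx_mem p), m, Or.inr ⟨hmr, le_rfl⟩, hpm⟩, ?_⟩
      rintro ξ y hy ν' hν' hlt
      have h4 : m ≤ ν' := by
        rcases hν' with hν' | hν'
        · exact absurd (le_mx p hν') (not_le.2 hlt)
        · exact hν'.2
      refine lt_of_lt_of_le ?_ (pz_mono h4)
      rcases hy with hy | hy
      · rw [(Prod.mk.inj hy).2]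
        exact hy'
      · exact (t.cv _).tg ξ y hy m hmt hpm
    · rcases lt_or_ge ν m with h' | h'
      · rw [hF3 ν h h']
        exact CV.empty _ ν
      · rw [hF4 ν h']
        exact cv_glue (isGreatest_mx p) hpm h' (r.cv ν)
  let t' : Cd K := ⟨glue p.c r.c m, F', hcl', hcv'⟩
  have htt : t' ≤ t := by
    refine ⟨⟨?_, ?_⟩, fun ν => ?_⟩
    · intro x hx
      rcases lt_or_ge x m with h | h
      · exact Or.inl (mem_p_of hs hm hm' ht hx h)
      · exact Or.inr ⟨hr.1.1 (by rw [hc]; exact Or.inr ⟨hx, h⟩), h⟩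
    · rintro x (hx | ⟨hx, hx'⟩) y hy hxy
      · exact (ht.trans (star_le' hs hm hm')).1.1 hx
      · have h4 : x ∈ glue s.c t.c m := by
          rw [← hc]
          exact hr.1.2 x hx y (by rw [hc]; exact Or.inr ⟨hy, hx'.trans hxy⟩) hxy
        rcases h4 with h4 | h4
        · exact absurd (hx'.trans (le_mx s h4)) (not_le.2 hm)
        · exact h4.1
    · change t.F ν ⊆ F' ν
      rcases lt_trichotomy ν (mx p) with h | h | h
      · rw [hF1 ν h, ← phi_F1 hs hm hm' he ht h]
        exact hr.2 ν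
      · subst h
        rw [hF2]
        exact subset_insert _ _
      · rcases lt_or_ge ν m with h' | h'
        · rw [F_mid hs hm hm' ht h h']
          exact empty_subset _
        · rw [hF4 ν h', ← phi_F3 hs hm hm' he ht h']
          exact hr.2 ν
  have ht' : t' ≤ star p s hs m hm hm' := htt.trans ht
  refine ⟨t', htt, ?_⟩
  have hc' : (Phi hs hm hm' e he t').c = r.c := by
    rw [phi_c hs hm hm' he ht']
    ext x
    constructor
    · rintro (hx | ⟨hx | ⟨hx, -⟩, hx'⟩)
      · exact hrs.1.1 hx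
      · exact hrp.1.1 hx
      · exact hx
    · intro hx
      rcases lt_or_ge x m with h | h
      · have h4 := hee.2 x hx m (Or.inl rfl) h.le
        exact Or.inl (h4.resolve_left h.ne)
      · exact Or.inr ⟨Or.inr ⟨hx, h⟩, h⟩
  refine ⟨by rw [hc']; exact EndExt.refl _, fun ν => ?_⟩
  rcases lt_or_ge ν (mx p) with h | h
  · rw [phi_F1 hs hm hm' he ht' h]
    exact (hF1 ν h).ge
  · rcases lt_or_ge ν m with h' | h'
    · rw [phi_F2 hs hm hm' he ht' h h']
      have h4 : t'.F (mx p) = insert (δ, y') (t.F (mx p)) := hF2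
      rw [h4, h3 ν, hey, ha1 ν h h']
    · rw [phi_F3 hs hm hm' he ht' h']
      exact (hF4 ν h').ge

end phi

/-- The amalgamation. -/
theorem amal [hK : Fact (Inac K)] {p s : Cd K} (hs : s ≤ p) {m : K} (hm : mx s < m)
    (hm' : pz (mx s) < #(Iio m)) : ∃ Φ : Cd K → Cd K, Proj (star p s hs m hm hm') s Φ ∧
      ∀ t ≤ star p s hs m hm hm', ∀ ν < mx p, (Φ t).F ν = t.F ν := by
  have := hK.out.wf
  obtain ⟨e, he, he'⟩ := exists_code (p := p) (s := s) hK.out hm hm'
  refine ⟨Phi hs hm hm' e he, ⟨fun t ht => phi_le hs hm hm' he ht,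
    fun t ht t' h => phi_mono hs hm hm' he ht h, fun t ht r hr => phi_proj hs hm hm' he ht he' hr⟩,
    fun t ht ν hν => phi_F1 hs hm hm' he ht hν⟩

end Pool.Agent.TH770
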