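import Pool.Agent.TH770.Main

/-!
# The extension
-/

set_option autoImplicit false
set_option linter.unreachableTactic false
set_option linter.unusedTactic false
set_option linter.unusedSectionVars false

namespace Pool.Agent.TH770

open Pool.Agent.W868 Pool.Agent.W868.PName Pool.Agent.H833R3.Levy
open ZFSet (pair)
open Cardinal

variable {K : Type} [LinearOrder K] [hK : Fact (Inac K)]

theorem ck_injective : Function.Injective (ck : K → PName (Cd K)) := fun _ _ h => ck_inj h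

instance neK {K : Type} [LinearOrder K] [hK : Fact (Inac K)] : Nonempty K := hK.out.nonempty

/-- The element of `K` with the given name. -/
noncomputable def unck : PName (Cd K) → K := Function.invFun ck

theorem unck_ck (a : K) : unck (ck a) = a := Function.leftInverse_invFun ck_injective a

/-- The name of the set of the conditions with a large last point. -/
noncomputable def DN (a : K) : PName (Cd K) :=
  .mk {p : Cd K // a ≤ mx p} (fun _ => emp) (fun p => p.1)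

/-- The rule for the names of the sets of relations. -/
noncomputable def rE : Rule (Cd K) := fun q => match q with
  | ⟨_, .mem s _, v, p⟩ => (EN p (unck (tv v s)), p)
  | q => (emp, q.p)

/-- The rule for the dense sets. -/
noncomputable def rL : Rule (Cd K) := fun q => match q with
  | ⟨_, .mem s _, v, p⟩ => (DN (unck (tv v s)), p)
  | q => (emp, q.p)

theorem meets_large (π : Pkg (Cd K)) {a : K} (h : DN a ∈ π.N) : ∃ k, a ≤ mx (π.g k) := by
  have hF : Forces (Fml.ex (.mem (Sum.inl 0) (Sum.inr (DN a))) : Fml (PName (Cd K)) 0)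
      Fin.elim0 (π.g 0) := by
    intro t _
    obtain ⟨t', ht', h1⟩ := exists_large hK.out t a
    refine ⟨t', ht', emp, ?_⟩
    refine fmem_iff.2 fun q hq => ⟨q, le_rfl, emp, t', ?_, hq, Feq.refl _ _⟩
    exact ⟨⟨t', h1⟩, rfl, rfl⟩
  obtain ⟨x, -, hx⟩ := (π.sat_iff _ (show (Fml.ex (.mem (Sum.inl 0) (Sum.inr (DN a))) :
    Fml (PName (Cd K)) 0).Over π.N from ⟨TOver.inl _, tOver_inr.2 h⟩) Fin.elim0
    fun i => i.elim0).2 ⟨0, hF⟩
  have hx' : x ∈ π.val (DN a) := hx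
  obtain ⟨y, hy, c, hc, ⟨k, hk⟩, -⟩ := π.mem_val.1 hx'
  obtain ⟨⟨t, h1⟩, rfl, rfl⟩ := hc
  have hkt : π.g k ≤ t := hk
  exact ⟨k, h1.trans (mx_mono hkt)⟩

/-- The package of the final model. -/
theorem exists_final : ∃ π : Pkg (Cd K), check (kz K) ∈ π.N ∧
    (∀ k a, ck a ∈ π.N → EN (π.g k) a ∈ π.N) ∧ ∀ a, ck a ∈ π.N → ∃ k, a ≤ mx (π.g k) := by
  obtain ⟨π, h1, -, h3⟩ := exists_pkg ({rE, rL} : Set (Rule (Cd K))) (Set.toFinite _).countable
    {check (kz K)} (Set.countable_singleton _) ⊤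
  refine ⟨π, h1 rfl, fun k a ha => ?_, fun a ha => meets_large π ?_⟩
  · have h := (h3 rE (by simp) _ (query2 ha ha (π.gC k))).1
    have h4 : (rE (⟨0, .mem (Sum.inr (ck a)) (Sum.inr (ck a)), Fin.elim0, π.g k⟩ :
      Query (Cd K))).1 = EN (π.g k) (unck (ck a)) := rfl
    rw [h4, unck_ck] at h
    exact h
  · have h := (h3 rL (by simp) _ (query2 ha ha (π.gC 0))).1
    have h4 : (rL (⟨0, .mem (Sum.inr (ck a)) (Sum.inr (ck a)), Fin.elim0, π.g 0⟩ :
      Query (Cd K))).1 = DN (unck (ck a)) := rfl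
    rw [h4, unck_ck] at h
    exact h

/-- The set of the pairs. -/
noncomputable def prs (κ : ZFSet.{0}) : ZFSet.{0} :=
  ZFSet.sep (fun x => ∃ α ∈ κ, ∃ β ∈ κ, α ≠ β ∧ x = {α, β}) κ.powerset

theorem mem_prs {κ α β : ZFSet.{0}} (hα : α ∈ κ) (hβ : β ∈ κ) (h : α ∈ β) :
    ({α, β} : ZFSet.{0}) ∈ prs κ := by
  refine ZFSet.mem_sep.2 ⟨ZFSet.mem_powerset.2 fun z hz => ?_, α, hα, β, hβ, ?_, rfl⟩
  · rcases ZFSet.mem_pair.1 hz with rfl | rfl
    · exact hα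
    · exact hβ
  · rintro rfl
    exact ZFSet.mem_irrefl _ h

/-- Homogeneous sets in the extension. -/
theorem colouring_W (hP : PairPart K) (π : Pkg (Cd K)) (hkz : check (kz K) ∈ π.N)
    (hE : ∀ k a, ck a ∈ π.N → EN (π.g k) a ∈ π.N)
    (hL : ∀ a, ck a ∈ π.N → ∃ k, a ≤ mx (π.g k)) {m : ℕ} {z : Fin m → ZFSet.{0}}
    (hz : ∀ i, HC π.W (π.hat (kz K)) (z i)) {ψ : Fml Empty (4 + m + 1)} (hψ : IsSigma0 ψ)
    {c : ZFSet.{0}} (hc : ZFSet.IsFunc (prs (π.hat (kz K))) (nat 2) c)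
    (hdef : ∀ α ∈ π.hat (kz K), ∀ β ∈ π.hat (kz K), α ∈ β → ∀ y ∈ π.W,
      (Sat π.W Empty.elim (.ex ψ) (Fin.append ![α, β, y, π.hat (kz K)] z) ↔
        pair {α, β} y ∈ c)) :
    ∃ H ∈ π.W, H ⊆ π.hat (kz K) ∧ (∃ h ∈ π.W, IsBij H (π.hat (kz K)) h) ∧
      ∃ y, ∀ α ∈ H, ∀ β ∈ H, α ∈ β → pair {α, β} y ∈ c := by
  classical
  have hM := π.isZF_W
  have hκW : π.hat (kz K) ∈ π.W := π.val_mem_W hkz
  have hzW : ∀ i, ∃ x ∈ π.N, π.val x = z i := by
    intro i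
    obtain ⟨T, hT, -, h1, -⟩ := hz i
    obtain ⟨x, hx, h2⟩ := π.trans_W hT h1
    exact ⟨x, hx, h2⟩
  choose ζ hζ hζz using hzW
  obtain rfl : z = fun i => π.val (ζ i) := funext fun i => (hζz i).symm
  -- codes
  have hcode : ∀ i, ∃ (k₁ k₂ : ℕ) (a x : K) (N : Set (K × K × Cd K)), N ∈ SN (π.g k₁) a ∧
      Fc {ζ i, ck x, nm N, ck a} (fun π => Cod π.W (π.val (ζ i)) (π.val (ck x))
        (π.val (nm N)) (π.val (ck a))) (π.g k₂) := by
    intro i
    obtain ⟨α, hα, ξ, hξ, E, hEW, hcod⟩ := exists_cod hM hκW (hz i)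
    obtain ⟨a, ha, rfl⟩ := (mem_hat_kz π).1 hα
    obtain ⟨x, -, hx, rfl⟩ := (mem_hat_el π).1 hξ
    obtain ⟨ε, hε, rfl⟩ := hEW
    obtain ⟨k₁, hk₁⟩ := hL a ha
    have hEN := hE k₁ a ha
    obtain ⟨B, hB, hBB⟩ := small_name (π.g k₁) hk₁ ε π (by
      rintro w (rfl | rfl | rfl)
      · exact hε
      · exact ha
      · exact hEN) ⟨k₁, le_rfl⟩
    obtain ⟨N, hN, hNN, rfl⟩ := (mem_val_EN π).1 hB
    have hcod' : Cod π.W (π.val (ζ i)) (π.val (ck x)) (π.val (nm N)) (π.val (ck a)) := by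
      obtain ⟨T, hT, j, hj, h1, h2, h3, h4, h5⟩ := hcod
      refine ⟨T, hT, j, hj, h1, h2, h3, fun u hu v hv => ?_, h5⟩
      exact (hBB u hu v hv).symm.trans (h4 u hu v hv)
    have s1 : ζ i ∈ ({ζ i, ck x, nm N, ck a} : Set (PName (Cd K))) := by simp
    have s2 : ck x ∈ ({ζ i, ck x, nm N, ck a} : Set (PName (Cd K))) := by simp
    have s3 : nm N ∈ ({ζ i, ck x, nm N, ck a} : Set (PName (Cd K))) := by simp
    have s4 : ck a ∈ ({ζ i, ck x, nm N, ck a} : Set (PName (Cd K))) := by simp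
    obtain ⟨k₂, hk₂⟩ := fc_gen (nd_cod s1 s2 s3 s4) π (by
      rintro w (rfl | rfl | rfl | rfl)
      · exact hζ i
      · exact hx
      · exact hNN
      · exact ha) hcod'
    exact ⟨k₁, k₂, a, x, N, hN, hk₂⟩
  choose k₁ k₂ al xi Nc hN hcod using hcode
  have hSG : SG ζ ⊆ π.N := sg_sub ζ hkz hζ
  have hPh : ∀ a ∈ π.hat (kz K), ∀ b ∈ π.hat (kz K), a ∈ b → ∀ y ∈ π.W,
      (Ph ψ ζ π a b y ↔ pair {a, b} y ∈ c) := fun a ha b hb hab y hy => hdef a ha b hb hab y hy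
  have h2W : ∀ y ∈ π.hat (nat 2), y ∈ π.W := fun y hy =>
    π.trans_W (π.V_subset_W (π.of_hat_mem_V (π.nat_Z 2))) hy
  have hGG : GG ψ ζ π := by
    intro a ha b hb hab
    have hab' := mem_prs ha hb hab
    obtain ⟨y, hy, huniq⟩ := hc.2 _ hab'
    have hy2 : y ∈ π.hat (nat 2) := by
      rw [π.hat_nat]
      exact (ZFSet.pair_mem_prod.1 (hc.1 hy)).2
    refine ⟨⟨y, hy2, (hPh a ha b hb hab y (h2W y hy2)).2 hy⟩, fun y₁ hy₁ y₂ hy₂ h1 h2 => ?_⟩
    rw [huniq y₁ ((hPh a ha b hb hab y₁ (h2W y₁ hy₁)).1 h1),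
      huniq y₂ ((hPh a ha b hb hab y₂ (h2W y₂ hy₂)).1 h2)]
  obtain ⟨k₃, hk₃⟩ := fc_gen (nd_GG ψ ζ) π hSG hGG
  let kk : ℕ := max k₃ (Finset.univ.sup fun i => max (k₁ i) (k₂ i))
  have hkk : ∀ i, max (k₁ i) (k₂ i) ≤ kk := fun i =>
    (Finset.le_sup (f := fun i => max (k₁ i) (k₂ i)) (Finset.mem_univ i)).trans (le_max_right _ _)
  let D : Dat ψ ζ (π.g kk) :=
    { hψ := hψ
      hG := hk₃.mono (π.g_anti (le_max_left _ _))
      pc := fun i => π.g (k₁ i)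
      hpc := fun i => π.g_anti ((le_max_left _ _).trans (hkk i))
      al := al
      xi := xi
      Nc := Nc
      hN := hN
      hcod := fun i => (hcod i).mono (π.g_anti ((le_max_right _ _).trans (hkk i))) }
  obtain ⟨H, hH, h, hh, hbij, hsub, y, hy, hhom⟩ := hom_forced D hP π hSG ⟨kk, le_rfl⟩
  refine ⟨H, hH, fun a ha => hsub a ha, ⟨h, hh, hbij⟩, y, fun α hα β hβ hαβ => ?_⟩
  exact (hPh α (hsub α hα) β (hsub β hβ) hαβ y (h2W y hy)).1 (hhom α hα β hβ hαβ)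

theorem omega_mem_kz : ZFSet.omega ∈ kz K := by
  have h1 : (Ordinal.omega0.{0}) < Ordinal.type (α := K) (· < ·) := by
    by_contra h2
    have h3 := Ordinal.card_le_card (not_lt.1 h2)
    rw [Ordinal.card_type, Ordinal.card_omega0] at h3
    exact absurd hK.out.aleph0_lt (not_lt.2 h3)
  rw [omega_eq, kz, Ordinal.toZFSet_mem_toZFSet_iff]
  exact h1

theorem omega_mem_W (π : Pkg (Cd K)) (hkz : check (kz K) ∈ π.N) :
    ZFSet.omega ∈ π.hat (kz K) := by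
  rw [← π.hat_omega]
  exact (π.hat_mem_hat π.omega_Z hkz).2 omega_mem_kz

end Pool.Agent.TH770
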