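import Pool.Agent.H833R3.Bridge

/-!
# Homogeneous sets for colourings with few colours
-/

set_option autoImplicit false
set_option linter.unusedSectionVars false

namespace Pool.Agent.TH770

open Cardinal Set Filter Pool.Agent.H833R3.Levy

variable {K : Type} [LinearOrder K]

/-- Colourings of pairs with fewer than `|K|` colours have homogeneous sets of size `|K|`. -/
theorem exists_homogeneous (hK : Inac K) (hP : PairPart K) {L : Type} (hL : #L < #K)
    (c : K → K → L) : ∃ (H : Set K) (l : L), #H = #K ∧ ∀ x ∈ H, ∀ y ∈ H, x < y → c x y = l := by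
  classical
  have hne := hK.nonempty
  obtain ⟨F, hF, hdec⟩ := exists_filter hK hP (I := K × L) (by
    rw [Cardinal.mk_prod, Cardinal.lift_id, Cardinal.lift_id]
    exact (mul_le_mul' le_rfl hL.le).trans (Cardinal.mul_eq_self hK.aleph0_lt.le).le)
    (fun i => {y | c i.1 y = i.2})
  -- the limit colour
  have hlim : ∀ x, ∃ l, ∀ᶠ y in F, c x y = l := by
    intro x
    by_contra h
    have h1 : ∀ l, ∀ᶠ y in F, c x y ≠ l := by
      intro l
      rcases hdec (x, l) with h2 | h2
      · exact absurd ⟨l, h2⟩ h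
      · exact h2
    have h2 := hF.inter L hL (fun l y => c x y ≠ l) h1
    have := hF.ne
    obtain ⟨y, hy⟩ := h2.exists
    exact hy (c x y) rfl
  choose g hg using hlim
  have hpos : ∃ l, ∃ᶠ x in F, g x = l := by
    by_contra h
    push Not at h
    have h2 := hF.inter L hL (fun l x => g x ≠ l) h
    have := hF.ne
    obtain ⟨y, hy⟩ := h2.exists
    exact hy (g y) rfl
  obtain ⟨l, hl⟩ := hpos
  -- a maximal homogeneous set
  let P : Set (Set K) := {H | (∀ x ∈ H, g x = l) ∧ ∀ x ∈ H, ∀ y ∈ H, x < y → c x y = l}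
  obtain ⟨H, hH⟩ := zorn_subset P (by
    intro C hC hch
    refine ⟨⋃₀ C, ⟨?_, ?_⟩, fun s hs => subset_sUnion_of_mem hs⟩
    · rintro x ⟨s, hs, hx⟩
      exact (hC hs).1 x hx
    · rintro x ⟨s, hs, hx⟩ y ⟨t, ht, hy⟩ hxy
      rcases eq_or_ne s t with rfl | hst
      · exact (hC hs).2 x hx y hy hxy
      · rcases hch hs ht hst with h | h
        · exact (hC ht).2 x (h hx) y hy hxy
        · exact (hC hs).2 x hx y (h hy) hxy)
  refine ⟨H, l, ?_, hH.prop.2⟩
  by_contra hcard
  have hlt : #H < #K := lt_of_le_of_ne (Cardinal.mk_set_le _) hcard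
  obtain ⟨γ, hγ⟩ := hK.reg H hlt (fun x => x.1)
  have h1 := hF.inter H hlt (fun x y => c x.1 y = l) (fun x => by
    have h2 := hg x.1
    rwa [hH.prop.1 x.1 x.2] at h2)
  obtain ⟨y, hy1, hy2, hy3⟩ := (hl.and_eventually (h1.and (hF.tail γ))).exists
  have h2 : insert y H ∈ P := by
    refine ⟨?_, ?_⟩
    · rintro x (rfl | hx)
      · exact hy1
      · exact hH.prop.1 x hx
    · rintro x (rfl | hx) z (rfl | hz) hxz
      · exact absurd hxz (lt_irrefl _)
      · exact absurd ((hγ ⟨z, hz⟩).trans hy3) (not_lt.2 hxz.le)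
      · exact hy2 ⟨x, hx⟩
      · exact hH.prop.2 x hx z hz hxz
  have h3 : y ∈ H := hH.le_of_ge h2 (subset_insert _ _) (Or.inl rfl)
  exact absurd (hγ ⟨y, h3⟩) (not_lt.2 hy3.le)

end Pool.Agent.TH770
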