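import Pool.Agent.TH770.Lim

/-!
# No smaller ordinal is inaccessible in the extension
-/

set_option autoImplicit false
set_option linter.unreachableTactic false
set_option linter.unusedTactic false
set_option linter.unusedSectionVars false

namespace Pool.Agent.TH770

open Pool.Agent.W868 Pool.Agent.W868.PName Pool.Agent.H833R3.Levy
open ZFSet (pair)
open Cardinal

/-- In `M`, the ordinal `x` is inaccessible. -/
def IA (M : Set ZFSet.{0}) (x : ZFSet.{0}) : Prop :=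
  ZFSet.omega ∈ x ∧ (∀ α ∈ x, ∀ f ∈ M, ZFSet.IsFunc α x f →
    ∃ β ∈ x, ∀ a ∈ α, ∀ b ∈ x, pair a b ∈ f → b ∈ β) ∧ ∀ α ∈ x, LimAt M x α

theorem no_onto {M : Set ZFSet.{0}} (hM : IsZF M) {α x R : ZFSet.{0}} (hα : α ∈ M) (hx : x ∈ M)
    (hR : R ∈ M) (h0 : ∅ ∈ x) (hreg : ∀ f ∈ M, ZFSet.IsFunc α x f →
      ∃ β ∈ x, ∀ a ∈ α, ∀ b ∈ x, pair a b ∈ f → b ∈ β)
    (hfun : ∀ a ∈ α, ∀ b ∈ x, ∀ b' ∈ x, pair a b ∈ R → pair a b' ∈ R → b = b')
    (honto : ∀ b ∈ x, ∃ a ∈ α, pair a b ∈ R) : False := by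
  have hB := hM.base
  have hd : Dfn M M fun w : Fin 2 → ZFSet.{0} => pair (w 0) (w 1) ∈ R ∨
      ((∀ b' ∈ x, ¬ pair (w 0) b' ∈ R) ∧ ∀ u ∈ w 1, False) := by
    (repeat' first
      | assumption
      | exact DfnF.proj _
      | exact DfnF.const (by assumption)
      | exact DfnF.const' (by first | assumption | trivial) (by first | assumption | trivial)
      | exact Dfn.prop _
      | apply Dfn.not | apply Dfn.and | apply Dfn.or | apply Dfn.imp | apply Dfn.iff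
      | apply hB.bex | apply hB.ball | apply Dfn.ex | apply Dfn.all
      | apply Dfn.eq | apply Dfn.mem | apply hB.pair')
  obtain ⟨f, hf, hfs, hf'⟩ := hM.rel_mem hα hx (Q := fun a b => pair a b ∈ R ∨
      ((∀ b' ∈ x, ¬ pair a b' ∈ R) ∧ ∀ u ∈ b, False)) hd
  have hF : ZFSet.IsFunc α x f := by
    refine ⟨hfs, fun a ha => ?_⟩
    by_cases h : ∃ b ∈ x, pair a b ∈ R
    · obtain ⟨b, hb, hab⟩ := h
      refine ⟨b, (hf' a b).2 ⟨ha, hb, Or.inl hab⟩, fun c hc => ?_⟩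
      obtain ⟨-, h1, h2 | h2⟩ := (hf' a c).1 hc
      · exact hfun a ha c h1 b hb h2 hab
      · exact absurd hab (h2.1 b hb)
    · push Not at h
      refine ⟨∅, (hf' a ∅).2 ⟨ha, h0, Or.inr ⟨h, fun u hu => ZFSet.notMem_empty u hu⟩⟩,
        fun c hc => ?_⟩
      obtain ⟨-, h1, h2 | h2⟩ := (hf' a c).1 hc
      · exact absurd h2 (h c h1)
      · exact (ZFSet.eq_empty c).2 fun u hu => h2.2 u hu
  obtain ⟨β, hβ, h1⟩ := hreg f hf hF
  obtain ⟨a, ha, hab⟩ := honto β hβ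
  exact ZFSet.mem_irrefl β (h1 a ha β hβ ((hf' a β).2 ⟨ha, hβ, Or.inl hab⟩))

section gen

variable {P : Type} [Preorder P] [OrderTop P] (π : Pkg P)

theorem hat_isFunc {x y f : ZFSet.{0}} (hx : x ∈ π.Z) (hy : y ∈ π.Z) (hf : f ∈ π.Z)
    (h : ZFSet.IsFunc x y f) : ZFSet.IsFunc (π.hat x) (π.hat y) (π.hat f) := by
  have hB := isBase_univ
  refine ⟨?_, ?_⟩
  · rw [← π.hat_prod hx hy]
    exact π.hat_subset h.1
  · intro a' ha'
    obtain ⟨a, ha, haZ, rfl⟩ := π.mem_hat.1 ha'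
    have hd : Dfn π.Z Set.univ fun w : Fin 1 → ZFSet.{0} => pair a (w 0) ∈ f := by
      (repeat' first
      | assumption
      | exact DfnF.proj _
      | exact DfnF.const (by assumption)
      | exact DfnF.const' (by first | assumption | trivial) (by first | assumption | trivial)
      | exact Dfn.prop _
      | apply Dfn.not | apply Dfn.and | apply Dfn.or | apply Dfn.imp | apply Dfn.iff
      | apply hB.bex | apply hB.ball | apply Dfn.ex | apply Dfn.all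
      | apply Dfn.eq | apply Dfn.mem | apply hB.pair')
    obtain ⟨b', hb', huniq⟩ := h.2 a ha
    obtain ⟨b, hb, h1⟩ := π.exists_Z (Q := fun b => pair a b ∈ f) hd ⟨b', hb'⟩
    refine ⟨π.hat b, (π.pair_mem_hat haZ hb hf).2 h1, fun c hc => ?_⟩
    obtain ⟨a2, ha2, c2, hc2, h2, rfl, h3⟩ := π.of_pair_mem_hat hf hc
    obtain rfl := (π.hat_inj haZ ha2).1 h2
    rw [huniq c2 h3, huniq b h1]

/-- An ordinal that is inaccessible in the extension is a strong limit in the ground model. -/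
theorem strong_V {x A : ZFSet.{0}} (hx : x ∈ π.Z) (hA : A ∈ π.Z) (h : IA π.W (π.hat x))
    (hxo : x.IsOrdinal) (hAx : π.hat A ∈ π.hat x) : ¬ x.card ≤ 2 ^ A.card := by
  intro hc
  have hM := π.isZF_W
  have hB := hM.base
  rw [← ZFSet.card_powerset] at hc
  obtain ⟨k, hkV, hk⟩ := π.exists_inj_V hx (π.pow_Z hA) (exists_isInj hc)
  have hkW := π.V_subset_W hkV
  obtain ⟨β, hβ, p, hp, g, hg, hpp, hgi⟩ := h.2.2 _ hAx
  have hxW : π.hat x ∈ π.W := π.V_subset_W (π.of_hat_mem_V hx)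
  have hβW : β ∈ π.W := π.trans_W hxW hβ
  have hd : Dfn π.W π.W fun w : Fin 2 → ZFSet.{0} => ∃ v ∈ p, pair (w 1) v ∈ k ∧
      pair v (w 0) ∈ g := by
    (repeat' first
      | assumption
      | exact DfnF.proj _
      | exact DfnF.const (by assumption)
      | exact DfnF.const' (by first | assumption | trivial) (by first | assumption | trivial)
      | exact Dfn.prop _
      | apply Dfn.not | apply Dfn.and | apply Dfn.or | apply Dfn.imp | apply Dfn.iff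
      | apply hB.bex | apply hB.ball | apply Dfn.ex | apply Dfn.all
      | apply Dfn.eq | apply Dfn.mem | apply hB.pair')
  obtain ⟨R, hR, -, hR'⟩ := hM.rel_mem hβW hxW (Q := fun i u => ∃ v ∈ p, pair u v ∈ k ∧
      pair v i ∈ g) hd
  have hxord := π.hat_isOrdinal hxo
  have h0 : (∅ : ZFSet.{0}) ∈ π.hat x := hxord.mem_trans ZFSet.omega_zero h.1
  refine no_onto hM hβW hxW hR h0 (h.2.1 β hβ) ?_ ?_
  · intro i hi u hu u' hu' h1 h2
    obtain ⟨-, -, v, hv, h3, h4⟩ := (hR' i u).1 h1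
    obtain ⟨-, -, v', hv', h3', h4'⟩ := (hR' i u').1 h2
    obtain rfl := hgi.2 v v' i h4 h4'
    exact hk.2 u u' v h3 h3'
  · intro u hu
    obtain ⟨v, hv, -⟩ := hk.1.2 u hu
    have h1 := (ZFSet.pair_mem_prod.1 (hk.1.1 hv)).2
    have hvp : v ∈ p := by
      obtain ⟨w, hw, hwZ, rfl⟩ := π.mem_hat.1 h1
      refine (hpp _ (π.V_subset_W (π.of_hat_mem_V hwZ))).2 ?_
      exact π.hat_subset (ZFSet.mem_powerset.1 hw)
    obtain ⟨i, hi, -⟩ := hgi.1.2 v hvp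
    have h2 := (ZFSet.pair_mem_prod.1 (hgi.1.1 hi)).2
    exact ⟨i, h2, (hR' i u).2 ⟨h2, hu, v, hvp, hv, hi⟩⟩

end gen

variable {K : Type} [LinearOrder K] [hK : Fact (Inac K)]

theorem exists_ext {f : Set (K × K)} {μ : K} (hf : Fn f) (hd : #{ξ | ∃ y, (ξ, y) ∈ f} ≤ pz μ)
    (y' : K) : ∃ δ, Fn (insert (δ, y') f) ∧ #{ξ | ∃ y, (ξ, y) ∈ insert (δ, y') f} ≤ pz μ := by
  have hne : ({ξ | ∀ y, (ξ, y) ∉ f} : Set K).Nonempty := by
    by_contra h
    have h1 : {ξ | ∃ y, (ξ, y) ∈ f} = Set.univ := by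
      ext ξ
      refine ⟨fun _ => trivial, fun _ => ?_⟩
      by_contra h2
      exact h ⟨ξ, fun y hy => h2 ⟨y, hy⟩⟩
    rw [h1, Cardinal.mk_univ] at hd
    exact absurd (pz_lt hK.out μ) (not_lt.2 hd)
  obtain ⟨δ, hδ, hδ'⟩ : ∃ δ, (∀ y, (δ, y) ∉ f) ∧ ∀ ξ < δ, ∃ y, (ξ, y) ∈ f := by
    refine ⟨wellFounded_lt.min _ hne, WellFounded.min_mem _ _ hne, fun ξ hξ => ?_⟩
    by_contra h
    push Not at h
    exact absurd hξ (WellFounded.not_lt_min _ _ (show ξ ∈ {ξ | ∀ y, (ξ, y) ∉ f} from h))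
  refine ⟨δ, ⟨?_, ?_⟩, ?_⟩
  · rintro ξ y z (h | h) (h' | h')
    · rw [(Prod.mk.inj h).2, (Prod.mk.inj h').2]
    · rw [(Prod.mk.inj h).1] at h'
      exact absurd h' (hδ z)
    · rw [(Prod.mk.inj h').1] at h
      exact absurd h (hδ y)
    · exact hf.fn ξ y z h h'
  · rintro ξ y (h | h) ξ' hξ'
    · rw [(Prod.mk.inj h).1] at hξ'
      obtain ⟨z, hz⟩ := hδ' ξ' hξ'
      exact ⟨z, Or.inr hz⟩
    · obtain ⟨z, hz⟩ := hf.seg ξ y h ξ' hξ'
      exact ⟨z, Or.inr hz⟩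
  · have h1 : {ξ | ∃ y, (ξ, y) ∈ insert (δ, y') f} ⊆ insert δ {ξ | ∃ y, (ξ, y) ∈ f} := by
      rintro ξ ⟨y, h | h⟩
      · exact Or.inl (Prod.mk.inj h).1
      · exact Or.inr ⟨y, h⟩
    refine (mk_le_mk_of_subset h1).trans ((Cardinal.mk_insert_le).trans ?_)
    refine (add_le_add_left hd 1).trans ?_
    rw [Cardinal.add_one_eq (aleph0_le_pz _)]

theorem exists_val (q : Cd K) {ν y : K} (hν : ν ∈ q.c) (hν' : ∃ ν' ∈ q.c, ν < ν')
    (hy : ∀ ν' ∈ q.c, ν < ν' → #(Set.Iio y) < pz ν') : ∃ t ≤ q, ∃ ξ, (ξ, y) ∈ t.F ν := by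
  classical
  obtain ⟨δ, h1, h2⟩ := exists_ext (μ := ν) (fn_of q ν) (q.cv ν).dom y
  refine ⟨⟨q.c, fun η => if η = ν then insert (δ, y) (q.F ν) else q.F η, q.cl, fun η => ?_⟩,
    ⟨EndExt.refl _, fun η => ?_⟩, δ, ?_⟩
  · by_cases h : η = ν
    · subst h
      simp only [if_true]
      refine ⟨h1.fn, h1.seg, h2, fun _ => ⟨hν, hν'⟩, ?_⟩
      rintro ξ z (hz | hz) ν' h3 h4
      · rw [(Prod.mk.inj hz).2]
        exact hy ν' h3 h4
      · exact (q.cv η).tg ξ z hz ν' h3 h4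
    · simp only [h, if_false]
      exact q.cv η
  · by_cases h : η = ν
    · subst h
      simp only [if_true]
      exact Set.subset_insert _ _
    · simp only [h, if_false]
      exact subset_rfl
  · simp only [if_true]
    exact Set.mem_insert _ _

/-- The name of the generic function at `ν`. -/
noncomputable def FN (ν : K) : PName (Cd K) := nm {t | (t.1, t.2.1) ∈ t.2.2.F ν}

theorem mem_FN (π : Pkg (Cd K)) {ν a b : K} (ha : ck a ∈ π.N) (hb : ck b ∈ π.N) :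
    pair (π.hat (el a)) (π.hat (el b)) ∈ π.val (FN ν) ↔ ∃ k, (a, b) ∈ (π.g k).F ν := by
  rw [FN, mem_nm π ha hb]
  constructor
  · rintro ⟨r, h1, k, hk⟩
    exact ⟨k, hk.2 ν h1⟩
  · rintro ⟨k, hk⟩
    exact ⟨π.g k, hk, k, le_rfl⟩

theorem fn_onto {q : Cd K} {ν z₀ y : K} (hz : ∀ ξ, #(Set.Iio ξ) ≤ pz ν → ξ < z₀) (hν : ν ∈ q.c)
    (hν' : ∃ ν' ∈ q.c, ν < ν') (hy : ∀ t ≤ q, ∀ ν' ∈ t.c, ν < ν' → #(Set.Iio y) < pz ν') :
    Fc {ck y, ck z₀, FN ν} (fun π => ∃ ξ ∈ π.hat (el z₀), pair ξ (π.hat (el y)) ∈ π.val (FN ν))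
      q := by
  set S : Set (PName (Cd K)) := {ck y, ck z₀, FN ν} with hS
  have s1 : check (el y) ∈ S := by
    change ck y ∈ S
    simp [hS]
  have s2 : check (el z₀) ∈ S := by
    change ck z₀ ∈ S
    simp [hS]
  have s3 : FN ν ∈ S := by simp [hS]
  have hd : ND S (fun π => ∃ ξ ∈ π.hat (el z₀), pair ξ (π.hat (el y)) ∈ π.val (FN ν)) := by
    unfold ND
    (repeat' first
      | assumption
      | exact NDfnF.proj _
      | exact NDfnF.val (by assumption)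
      | exact NDfnF.hat (by assumption)
      | apply NDfn.not | apply NDfn.and | apply NDfn.or | apply NDfn.imp | apply NDfn.iff
      | apply NDfn.bex | apply NDfn.ball | apply NDfn.ex | apply NDfn.all
      | apply NDfn.eq | apply NDfn.mem | apply NDfnF.pair)
  refine fc_of_dense hd (Set.toFinite _).countable fun q₂ hq₂ => ?_
  obtain ⟨ν', h1, h2⟩ := hν'
  obtain ⟨t, ht, ξ, hξ⟩ := exists_val q₂ (hq₂.1.1 hν) ⟨ν', hq₂.1.1 h1, h2⟩ (hy q₂ hq₂)
  refine ⟨t, ht, {ck ξ}, Set.countable_singleton _, fun π hπ hA h0 => ?_⟩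
  have w1 : ck ξ ∈ π.N := hA rfl
  refine ⟨π.hat (el ξ), (hat_el_mem π w1 (hπ s2)).2 (hz ξ (ht_lt hξ)), ?_⟩
  exact (mem_FN π w1 (hπ s1)).2 ⟨0, by rw [h0]; exact hξ⟩

theorem least_forced (x₀ : K) : Fc {ck x₀, check ZFSet.omega}
    (fun π => ¬ (π.hat ZFSet.omega ∈ π.hat (el x₀) ∧ (∀ α ∈ π.hat (el x₀), ∀ f ∈ π.W,
      ZFSet.IsFunc α (π.hat (el x₀)) f → ∃ β ∈ π.hat (el x₀), ∀ a ∈ α, ∀ b ∈ π.hat (el x₀),
        pair a b ∈ f → b ∈ β) ∧ ∀ α ∈ π.hat (el x₀), LimAt π.W (π.hat (el x₀)) α))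
    (⊤ : Cd K) := by
  classical
  set S : Set (PName (Cd K)) := {ck x₀, check ZFSet.omega} with hS
  have s1 : check (el x₀) ∈ S := by
    change ck x₀ ∈ S
    simp [hS]
  have s2 : check ZFSet.omega ∈ S := by simp [hS]
  have hd : ND S (fun π => ¬ (π.hat ZFSet.omega ∈ π.hat (el x₀) ∧ (∀ α ∈ π.hat (el x₀),
      ∀ f ∈ π.W, ZFSet.IsFunc α (π.hat (el x₀)) f → ∃ β ∈ π.hat (el x₀), ∀ a ∈ α,
        ∀ b ∈ π.hat (el x₀), pair a b ∈ f → b ∈ β) ∧
      ∀ α ∈ π.hat (el x₀), LimAt π.W (π.hat (el x₀)) α)) := by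
    unfold ND LimAt
    (repeat' first
      | assumption
      | apply nd_isInj
      | apply nd_isFunc
      | exact NDfnF.proj _
      | exact NDfnF.val (by assumption)
      | exact NDfnF.hat (by assumption)
      | apply NDfn.not | apply NDfn.and | apply NDfn.or | apply NDfn.imp | apply NDfn.iff
      | apply NDfn.bex | apply NDfn.ball | apply NDfn.ex | apply NDfn.all
      | apply NDfn.eq | apply NDfn.mem | apply NDfnF.pair)
  refine fc_of_dense hd (Set.toFinite _).countable fun q _ => ?_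
  obtain ⟨x₁, hx₁⟩ := hK.out.exists_gt x₀
  obtain ⟨q₁, hq₁, hx₂⟩ := exists_large hK.out q x₁
  have hxm : x₀ < mx q₁ := hx₁.trans_le hx₂
  by_cases hb : ∃ y, y < x₀
  swap
  · refine ⟨q, le_rfl, ∅, Set.countable_empty, fun π hπ _ _ h => ?_⟩
    obtain ⟨y, hy, -⟩ := (mem_hat_el π).1 h.1
    exact hb ⟨y, hy⟩
  by_cases hlim : x₀ ∈ q₁.c ∧ ∀ y < x₀, ∃ z ∈ q₁.c, y < z ∧ z < x₀
  · -- singular limit points
    obtain ⟨β, hβ, f, hf1, hf2⟩ := q₁.cl.sing x₀ hlim.1 hb hlim.2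
    let fz : ZFSet.{0} := ZFSet.range (fun x : Set.Iio β => pair (el x.1) (el (f x.1)))
    have hfz : ∀ x < β, pair (el x) (el (f x)) ∈ fz := fun x hx =>
      ZFSet.mem_range.2 ⟨⟨x, hx⟩, rfl⟩
    have hfunc : ZFSet.IsFunc (el β) (el x₀) fz := by
      refine ⟨?_, ?_⟩
      · intro p hp
        obtain ⟨⟨x, hx⟩, rfl⟩ := ZFSet.mem_range.1 hp
        exact ZFSet.pair_mem_prod.2 ⟨el_mem_el.2 hx, el_mem_el.2 (hf1 x hx)⟩
      · intro z hz
        obtain ⟨x, hx, rfl⟩ := mem_el.1 hz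
        refine ⟨el (f x), hfz x hx, fun w hw => ?_⟩
        obtain ⟨⟨x', hx'⟩, h1⟩ := ZFSet.mem_range.1 hw
        obtain ⟨h2, h3⟩ := ZFSet.pair_inj.1 h1
        obtain rfl := el_inj h2
        exact h3.symm
    refine ⟨q₁, hq₁, {ck β, check fz}, (Set.toFinite _).countable, fun π hπ hA _ h => ?_⟩
    have w1 : el β ∈ π.Z := hA (show ck β ∈ _ by simp)
    have w2 : fz ∈ π.Z := hA (show check fz ∈ _ by simp)
    have w3 : el x₀ ∈ π.Z := hπ s1
    have h1 := hat_isFunc π w1 w3 w2 hfunc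
    obtain ⟨γ, hγ, h2⟩ := h.2.1 _ ((hat_el_mem π w1 w3).2 hβ) _
      (π.V_subset_W (π.of_hat_mem_V w2)) h1
    obtain ⟨c, hc, hcN, rfl⟩ := (mem_hat_el π).1 hγ
    have hcZ : el c ∈ π.Z := hcN
    obtain ⟨x, hx, hcx⟩ := hf2 c hc
    have hB := isBase_univ
    have hd1 : Dfn π.Z Set.univ fun w : Fin 1 → ZFSet.{0} => w 0 ∈ el β ∧
        ∃ v ∈ el x₀, pair (w 0) v ∈ fz ∧ ¬ v ∈ el c := by
      (repeat' first
      | assumption
      | exact DfnF.proj _
      | exact DfnF.const (by assumption)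
      | exact DfnF.const' (by first | assumption | trivial) (by first | assumption | trivial)
      | exact Dfn.prop _
      | apply Dfn.not | apply Dfn.and | apply Dfn.or | apply Dfn.imp | apply Dfn.iff
      | apply hB.bex | apply hB.ball | apply Dfn.ex | apply Dfn.all
      | apply Dfn.eq | apply Dfn.mem | apply hB.pair')
    obtain ⟨w, hw, hw1, hw2⟩ := π.exists_Z (Q := fun w => w ∈ el β ∧
        ∃ v ∈ el x₀, pair w v ∈ fz ∧ ¬ v ∈ el c) hd1 ⟨el x, el_mem_el.2 hx, el (f x),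
          el_mem_el.2 (hf1 x hx), hfz x hx, fun h => absurd (el_mem_el.1 h) (not_lt.2 hcx)⟩
    have hd2 : Dfn π.Z Set.univ fun v : Fin 1 → ZFSet.{0} => v 0 ∈ el x₀ ∧
        pair w (v 0) ∈ fz ∧ ¬ v 0 ∈ el c := by
      (repeat' first
      | assumption
      | exact DfnF.proj _
      | exact DfnF.const (by assumption)
      | exact DfnF.const' (by first | assumption | trivial) (by first | assumption | trivial)
      | exact Dfn.prop _
      | apply Dfn.not | apply Dfn.and | apply Dfn.or | apply Dfn.imp | apply Dfn.iff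
      | apply hB.bex | apply hB.ball | apply Dfn.ex | apply Dfn.all
      | apply Dfn.eq | apply Dfn.mem | apply hB.pair')
    obtain ⟨v, hv, hv1, hv2, hv3⟩ := π.exists_Z (Q := fun v => v ∈ el x₀ ∧
        pair w v ∈ fz ∧ ¬ v ∈ el c) hd2 hw2
    have h3 := h2 (π.hat w) ((π.hat_mem_hat hw w1).2 hw1) (π.hat v)
      ((π.hat_mem_hat hv w3).2 hv1) ((π.pair_mem_hat hw hv w2).2 hv2)
    exact hv3 ((π.hat_mem_hat hv hcZ).1 h3)
  · -- a gap of the club
    obtain ⟨ν, hν, hνx, hνm⟩ : ∃ ν ∈ q₁.c, ν < x₀ ∧ ∀ z ∈ q₁.c, z < x₀ → z ≤ ν := by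
      by_cases hxc : x₀ ∈ q₁.c
      · have h1 : ∃ y < x₀, ∀ z ∈ q₁.c, ¬ (y < z ∧ z < x₀) := by
          by_contra h
          push Not at h
          exact hlim ⟨hxc, fun y hy => by
            obtain ⟨z, h1, h2, h3⟩ := h y hy
            exact ⟨z, h1, h2, h3⟩⟩
        obtain ⟨y, hy, h1⟩ := h1
        obtain ⟨ν, hν, h2⟩ := q₁.cl.flr y
        refine ⟨ν, hν.1, lt_of_le_of_lt hν.2 hy, fun z hz hzx => h2 ⟨hz, ?_⟩⟩
        by_contra h3
        exact h1 z hz ⟨not_le.1 h3, hzx⟩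
      · obtain ⟨ν, hν, h2⟩ := q₁.cl.flr x₀
        refine ⟨ν, hν.1, lt_of_le_of_ne hν.2 ?_, fun z hz hzx => h2 ⟨hz, hzx.le⟩⟩
        rintro rfl
        exact hxc hν.1
    have hpzK := pz_lt hK.out ν
    have hppK : 2 ^ pz ν < #K := hK.out.pow _ hpzK
    have hsuc : Order.succ (pz ν) ≤ 2 ^ pz ν := Order.succ_le_of_lt (Cardinal.cantor _)
    obtain ⟨e₀, he₀, -⟩ := exists_iio hK.out hpzK
    obtain ⟨z₀, hz₀, hz₀'⟩ := exists_iio hK.out (hsuc.trans_lt hppK)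
    have hz : ∀ ξ, #(Set.Iio ξ) ≤ pz ν → ξ < z₀ := by
      intro ξ hξ
      by_contra h
      have h1 := iio_mono (not_lt.1 h)
      rw [hz₀] at h1
      exact absurd (h1.trans hξ) (not_le.2 (Order.lt_succ _))
    refine ⟨q₁, hq₁, {ck e₀, ck z₀, ck ν, FN ν}, (Set.toFinite _).countable,
      fun π hπ hA h0 h => ?_⟩
    have w1 : ck e₀ ∈ π.N := hA (by simp)
    have w2 : ck z₀ ∈ π.N := hA (by simp)
    have w3 : ck ν ∈ π.N := hA (by simp)
    have w4 : FN ν ∈ π.N := hA (by simp)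
    have w5 : ck x₀ ∈ π.N := hπ s1
    have hIA : IA π.W (π.hat (el x₀)) := by
      refine ⟨?_, h.2⟩
      have := h.1
      rwa [π.hat_omega] at this
    have hcard : ∀ {c : Cardinal.{0}} {A : ZFSet.{0}}, A.card = c → A ∈ π.Z →
        π.hat A ∈ π.hat (el x₀) → 2 ^ c < #(Set.Iio x₀) := by
      intro c A h1 h2 h3
      by_contra h4
      refine strong_V π (x := el x₀) w5 h2 hIA (el_ord x₀) h3 ?_
      rw [card_el, h1]
      exact not_lt.1 h4
    have c1 : pz ν < #(Set.Iio x₀) := by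
      rcases le_total ℵ₀ #(Set.Iio ν) with h1 | h1
      · have h2 : sz ν = #(Set.Iio ν) := max_eq_right h1
        rw [pz, h2]
        exact hcard (card_el ν) w3 ((hat_el_mem π w3 w5).2 hνx)
      · have h2 : sz ν = ℵ₀ := max_eq_left h1
        rw [pz, h2]
        exact hcard card_omega π.omega_Z h.1
    have hex : e₀ < x₀ := by
      by_contra h1
      have h2 := iio_mono (not_lt.1 h1)
      rw [he₀] at h2
      exact absurd c1 (not_lt.2 h2)
    have c2 : 2 ^ pz ν < #(Set.Iio x₀) := by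
      have h1 : (el e₀).card = pz ν := (card_el e₀).trans he₀
      exact hcard h1 w1 ((hat_el_mem π w1 w5).2 hex)
    have hzx : z₀ < x₀ := by
      by_contra h1
      have h2 := iio_mono (not_lt.1 h1)
      rw [hz₀] at h2
      exact absurd (c2.trans_le (h2.trans hsuc)) (lt_irrefl _)
    have hxord := π.hat_isOrdinal (el_ord x₀)
    have h00 : (∅ : ZFSet.{0}) ∈ π.hat (el x₀) := hxord.mem_trans ZFSet.omega_zero hIA.1
    have hzm : π.hat (el z₀) ∈ π.hat (el x₀) := (hat_el_mem π w2 w5).2 hzx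
    refine no_onto π.isZF_W (π.val_mem_W w2) (π.val_mem_W w5) (π.val_mem_W w4) h00
      (hIA.2.1 _ hzm) ?_ ?_
    · intro a ha b hb b' hb' h1 h2
      obtain ⟨a, -, haN, rfl⟩ := (mem_hat_el π).1 ha
      obtain ⟨b, -, hbN, rfl⟩ := (mem_hat_el π).1 hb
      obtain ⟨b', -, hbN', rfl⟩ := (mem_hat_el π).1 hb'
      obtain ⟨k, hk⟩ := (mem_FN π haN hbN).1 h1
      obtain ⟨k', hk'⟩ := (mem_FN π haN hbN').1 h2
      have h3 := ((π.g (max k k')).cv ν).fn a b b' ((π.g_le_left k k').2 ν hk)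
        ((π.g_le_right k k').2 ν hk')
      rw [h3]
    · intro b hb
      obtain ⟨y, hy, hyN, rfl⟩ := (mem_hat_el π).1 hb
      refine fn_onto (q := q₁) hz hν ⟨mx q₁, mx_mem q₁, hνx.trans hxm⟩ ?_ π ?_ ⟨0, h0.le⟩
      · intro t ht ν' hν' hlt
        have h1 : x₀ ≤ ν' := by
          by_contra h2
          have h3 := not_le.1 h2
          have h4 := mem_of_le ht hν' (h3.le.trans hxm.le)
          exact absurd (hνm ν' h4 h3) (not_le.2 hlt)
        exact (iio_mono (hy.le.trans h1)).trans_lt ((iio_le_sz ν').trans_lt (sz_lt_pz ν'))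
      · rintro z (rfl | rfl | rfl)
        · exact hyN
        · exact w2
        · exact w4

theorem least_W (π : Pkg (Cd K)) : ∀ x ∈ π.hat (kz K), ¬ IA π.W x := by
  intro x hx h
  obtain ⟨x₀, hx₀, rfl⟩ := (mem_hat_kz π).1 hx
  refine least_forced x₀ π ?_ ⟨0, le_top⟩ ⟨?_, h.2⟩
  · rintro z (rfl | rfl)
    · exact hx₀
    · exact π.omega_Z
  · rw [π.hat_omega]
    exact h.1

end Pool.Agent.TH770
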