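import Pool.Agent.TH770.Reg

/-!
# The cardinal is a strong limit in the extension
-/

set_option autoImplicit false
set_option linter.unreachableTactic false
set_option linter.unusedTactic false
set_option linter.unusedSectionVars false

namespace Pool.Agent.TH770

open Pool.Agent.W868 Pool.Agent.W868.PName Pool.Agent.H833R3.Levy
open ZFSet (pair)
open Cardinal

variable {K : Type} [LinearOrder K] [hK : Fact (Inac K)]

theorem card_SN (p : Cd K) (a : K) : #(SN p a) < #K := by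
  classical
  let f : SN p a → Set (Set.Iio a × (Set.Iio a × Qp p)) := fun N =>
    {t | (t.1.1, t.2.1.1, t.2.2.1) ∈ N.1}
  have hf : Function.Injective f := by
    rintro ⟨N, hN⟩ ⟨N', hN'⟩ h
    have key : ∀ N N' : Set (K × K × Cd K), ∀ (hN : N ∈ SN p a) (hN' : N' ∈ SN p a),
        f ⟨N, hN⟩ = f ⟨N', hN'⟩ → N ⊆ N' := by
      rintro N N' hN hN' h ⟨x, y, r⟩ ht
      obtain ⟨h1, h2, h3⟩ := hN _ ht
      have h4 : ((⟨x, h1⟩, (⟨y, h2⟩, ⟨r, h3⟩)) : Set.Iio a × (Set.Iio a × Qp p)) ∈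
          f ⟨N, hN⟩ := ht
      rw [h] at h4
      exact h4
    exact Subtype.ext (Set.Subset.antisymm (key N N' hN hN' h) (key N' N hN' hN h.symm))
  refine (Cardinal.mk_le_of_injective hf).trans_lt ?_
  rw [Cardinal.mk_set]
  refine hK.out.pow _ ?_
  rw [Cardinal.mk_prod, Cardinal.lift_id, Cardinal.lift_id]
  exact Cardinal.mul_lt_of_lt hK.out.aleph0_lt.le (hK.out.small a) (card_prod_Qp p a)

/-- The name of an enumeration of the small names. -/
noncomputable def TN (p : Cd K) (a : K) (e : SN p a → K) : PName (Cd K) :=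
  .mk (SN p a) (fun N => opN (nm N.1) (ck (e N))) (fun _ => ⊤)

theorem mem_TN (π : Pkg (Cd K)) {p : Cd K} {a : K} {e : SN p a → K} {z y : ZFSet.{0}} :
    pair z y ∈ π.val (TN p a e) ↔ ∃ N : SN p a, nm N.1 ∈ π.N ∧ ck (e N) ∈ π.N ∧
      z = π.val (nm N.1) ∧ y = π.hat (el (e N)) := by
  rw [Pkg.mem_val]
  constructor
  · rintro ⟨w, hw, c, hc, -, he⟩
    obtain ⟨N, rfl, rfl⟩ := el_mk.1 hc
    have h1 : nm N.1 ∈ π.N := π.fst_mem hw
    have h2 : (ck (e N) : PName (Cd K)) ∈ π.N := π.snd_mem hw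
    have h3 := π.val_opN h1 h2
    have he' : π.val (opN (nm N.1) (ck (e N))) = pair z y := he
    rw [he'] at h3
    obtain ⟨h4, h5⟩ := ZFSet.pair_inj.1 h3
    exact ⟨N, h1, h2, h4, h5⟩
  · rintro ⟨N, h1, h2, rfl, rfl⟩
    exact ⟨opN (nm N.1) (ck (e N)), π.opN_mem h1 h2, ⊤, el_mk.2 ⟨N, rfl, rfl⟩, ⟨0, le_top⟩,
      π.val_opN h1 h2⟩

theorem tn_total {p : Cd K} {a b : K} {e : SN p a → K} (he : ∀ N, e N < b) (N : SN p a) :
    Fc {nm N.1, TN p a e, ck b} (fun π => ∃ y ∈ π.hat (el b),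
      pair (π.val (nm N.1)) y ∈ π.val (TN p a e)) (⊤ : Cd K) := by
  set S : Set (PName (Cd K)) := {nm N.1, TN p a e, ck b} with hS
  have s1 : nm N.1 ∈ S := by simp [hS]
  have s2 : TN p a e ∈ S := by simp [hS]
  have s3 : check (el b) ∈ S := by
    change ck b ∈ S
    simp [hS]
  have hd : ND S (fun π => ∃ y ∈ π.hat (el b),
      pair (π.val (nm N.1)) y ∈ π.val (TN p a e)) := by
    unfold ND
    (repeat' first
      | assumption
      | exact NDfnF.proj _
      | exact NDfnF.val (by assumption)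
      | exact NDfnF.hat (by assumption)
      | apply NDfn.not | apply NDfn.and | apply NDfn.or | apply NDfn.imp | apply NDfn.iff
      | apply NDfn.bex | apply NDfn.ball | apply NDfn.ex | apply NDfn.all
      | apply NDfn.eq | apply NDfn.mem | apply NDfnF.pair)
  refine fc_of_dense hd (Set.toFinite _).countable fun q _ => ?_
  refine ⟨q, le_rfl, {ck (e N)}, Set.countable_singleton _, fun π hπ hA _ => ?_⟩
  have h1 : ck (e N) ∈ π.N := hA rfl
  exact ⟨π.hat (el (e N)), (hat_el_mem π h1 (hπ s3)).2 (he N),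
    (mem_TN π).2 ⟨N, hπ s1, h1, rfl, rfl⟩⟩

/-- In `M`, the power set of `α` injects into an element of `κ`. -/
def LimAt (M : Set ZFSet.{0}) (κ α : ZFSet.{0}) : Prop :=
  ∃ β ∈ κ, ∃ p ∈ M, ∃ g ∈ M, (∀ z ∈ M, z ∈ p ↔ z ⊆ α) ∧ IsInj p β g

theorem lim_forced (a : K) : Fc {ck a, check (kz K)} (fun π =>
    LimAt π.W (π.hat (kz K)) (π.hat (el a))) (⊤ : Cd K) := by
  classical
  set S : Set (PName (Cd K)) := {ck a, check (kz K)} with hS
  have s1 : check (el a) ∈ S := by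
    change ck a ∈ S
    simp [hS]
  have s2 : check (kz K) ∈ S := by simp [hS]
  have hd : ND S (fun π => LimAt π.W (π.hat (kz K)) (π.hat (el a))) := by
    unfold ND LimAt
    (repeat' first
      | assumption
      | apply nd_isInj
      | exact NDfnF.proj _
      | exact NDfnF.val (by assumption)
      | exact NDfnF.hat (by assumption)
      | apply NDfn.not | apply NDfn.and | apply NDfn.or | apply NDfn.imp | apply NDfn.iff
      | apply NDfn.bex | apply NDfn.ball | apply NDfn.ex | apply NDfn.all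
      | apply NDfn.eq | apply NDfn.mem | apply NDfnF.pair)
  refine fc_of_dense hd (Set.toFinite _).countable fun q _ => ?_
  obtain ⟨p, hp, ha⟩ := exists_large hK.out q a
  obtain ⟨b, hb, -⟩ := exists_iio hK.out (card_SN p a)
  obtain ⟨e⟩ := Cardinal.eq.1 hb
  let e' : SN p a → K := fun N => (e.symm N).1
  have he1 : ∀ N, e' N < b := fun N => (e.symm N).2
  have he2 : Function.Injective e' := fun N N' h => e.symm.injective (Subtype.ext h)
  refine ⟨p, hp, {EN p a, TN p a e', ck b}, (Set.toFinite _).countable, fun π hπ hA h0 => ?_⟩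
  have w1 : EN p a ∈ π.N := hA (by simp)
  have w2 : TN p a e' ∈ π.N := hA (by simp)
  have w3 : ck b ∈ π.N := hA (by simp)
  have w4 : ck a ∈ π.N := hπ s1
  have hM := π.isZF_W
  have hB := hM.base
  have hae : π.hat (el a) ∈ π.W := π.val_mem_W w4
  have hbe : π.hat (el b) ∈ π.W := π.val_mem_W w3
  have hE : π.val (EN p a) ∈ π.W := π.val_mem_W w1
  have hT : π.val (TN p a e') ∈ π.W := π.val_mem_W w2
  obtain ⟨pw, hpw, hpw'⟩ := hM.power _ hae
  have hd1 : Dfn π.W π.W fun w : Fin 2 → ZFSet.{0} =>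
      (∃ B ∈ π.val (EN p a), pair B (w 1) ∈ π.val (TN p a e') ∧
        ∀ i ∈ π.hat (el a), (i ∈ w 0 ↔ pair i i ∈ B)) ∧
      ∀ y' ∈ w 1, ¬ ∃ B ∈ π.val (EN p a), pair B y' ∈ π.val (TN p a e') ∧
        ∀ i ∈ π.hat (el a), (i ∈ w 0 ↔ pair i i ∈ B) := by
    (repeat' first
      | assumption
      | exact DfnF.proj _
      | exact DfnF.const (by assumption)
      | exact DfnF.const' (by first | assumption | trivial) (by first | assumption | trivial)
      | exact Dfn.prop _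
      | apply Dfn.not | apply Dfn.and | apply Dfn.or | apply Dfn.imp | apply Dfn.iff
      | apply hB.bex | apply hB.ball | apply Dfn.ex | apply Dfn.all
      | apply Dfn.eq | apply Dfn.mem | apply hB.pair')
  obtain ⟨g, hg, hgsub, hg'⟩ := hM.rel_mem hpw hbe (Q := fun A y =>
      (∃ B ∈ π.val (EN p a), pair B y ∈ π.val (TN p a e') ∧
        ∀ i ∈ π.hat (el a), (i ∈ A ↔ pair i i ∈ B)) ∧
      ∀ y' ∈ y, ¬ ∃ B ∈ π.val (EN p a), pair B y' ∈ π.val (TN p a e') ∧
        ∀ i ∈ π.hat (el a), (i ∈ A ↔ pair i i ∈ B)) hd1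
  refine ⟨π.hat (el b), (π.hat_mem_hat w3 (hπ s2)).2 (el_mem_kz b), pw, hpw, g, hg,
    fun z hz => ⟨fun h => ((hpw' z).1 h).2, fun h => (hpw' z).2 ⟨hz, h⟩⟩, ⟨hgsub, ?_⟩, ?_⟩
  · intro A hA'
    obtain ⟨hAW, hAs⟩ := (hpw' A).1 hA'
    -- the diagonal relation
    have hd2 : Dfn π.W π.W fun w : Fin 2 → ZFSet.{0} => w 0 = w 1 ∧ w 0 ∈ A := by
      (repeat' first
      | assumption
      | exact DfnF.proj _
      | exact DfnF.const (by assumption)
      | exact DfnF.const' (by first | assumption | trivial) (by first | assumption | trivial)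
      | exact Dfn.prop _
      | apply Dfn.not | apply Dfn.and | apply Dfn.or | apply Dfn.imp | apply Dfn.iff
      | apply hB.bex | apply hB.ball | apply Dfn.ex | apply Dfn.all
      | apply Dfn.eq | apply Dfn.mem | apply hB.pair')
    obtain ⟨A', ⟨τ, hτ, rfl⟩, -, hA2⟩ := hM.rel_mem hae hae (Q := fun x y => x = y ∧ x ∈ A) hd2
    obtain ⟨B, hBE, hBB⟩ := small_name p ha τ π (by
      rintro z (rfl | rfl | rfl)
      · exact hτ
      · exact w4
      · exact w1) ⟨0, h0.le⟩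
    obtain ⟨N, hN, hNN, rfl⟩ := (mem_val_EN π).1 hBE
    obtain ⟨y, hy, hyT⟩ := tn_total he1 ⟨N, hN⟩ π (by
      rintro z (rfl | rfl | rfl)
      · exact hNN
      · exact w2
      · exact w3) ⟨0, le_top⟩
    have hne : ({y | y ∈ π.hat (el b) ∧ ∃ B ∈ π.val (EN p a), pair B y ∈ π.val (TN p a e') ∧
        ∀ i ∈ π.hat (el a), (i ∈ A ↔ pair i i ∈ B)} : Set ZFSet.{0}).Nonempty := by
      refine ⟨y, hy, _, hBE, hyT, fun i hi => ?_⟩
      rw [← hBB i hi i hi, hA2]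
      exact ⟨fun h => ⟨hi, hi, rfl, h⟩, fun h => h.2.2.2⟩
    obtain ⟨y₁, hy₁, hmin⟩ := ZFSet.mem_wf.has_min _ hne
    have hord : (π.hat (el b)).IsOrdinal := π.hat_isOrdinal (el_ord b)
    have hmin' : ∀ y' ∈ y₁, ¬ ∃ B ∈ π.val (EN p a), pair B y' ∈ π.val (TN p a e') ∧
        ∀ i ∈ π.hat (el a), (i ∈ A ↔ pair i i ∈ B) := fun y' hy' h =>
      hmin y' ⟨hord.mem_trans hy' hy₁.1, h⟩ hy'
    refine ⟨y₁, (hg' A y₁).2 ⟨hA', hy₁.1, hy₁.2, hmin'⟩, fun y₂ hy₂ => ?_⟩
    obtain ⟨-, h2, h3, h4⟩ := (hg' A y₂).1 hy₂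
    obtain ⟨x₁, -, hx₁, rfl⟩ := (mem_hat_el π).1 hy₁.1
    obtain ⟨x₂, -, hx₂, rfl⟩ := (mem_hat_el π).1 h2
    rcases lt_trichotomy x₁ x₂ with h | h | h
    · exact absurd hy₁.2 (h4 _ ((hat_el_mem π hx₁ hx₂).2 h))
    · rw [h]
    · exact absurd h3 (hmin' _ ((hat_el_mem π hx₂ hx₁).2 h))
  · intro A A' y h1 h2
    obtain ⟨h3, -, ⟨B, hB1, hB2, hB3⟩, -⟩ := (hg' A y).1 h1
    obtain ⟨h3', -, ⟨B', hB1', hB2', hB3'⟩, -⟩ := (hg' A' y).1 h2
    obtain ⟨N, hN, hN', rfl, rfl⟩ := (mem_TN π).1 hB2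
    obtain ⟨N1, hN1, hN1', rfl, h4⟩ := (mem_TN π).1 hB2'
    have h5 : N = N1 := he2 ((hat_el_inj π hN' hN1').1 h4)
    subst h5
    have hA1 := ((hpw' A).1 h3).2
    have hA2 := ((hpw' A').1 h3').2
    ext i
    constructor
    · intro hi
      exact (hB3' i (hA1 hi)).2 ((hB3 i (hA1 hi)).1 hi)
    · intro hi
      exact (hB3 i (hA2 hi)).2 ((hB3' i (hA2 hi)).1 hi)

theorem lim_W (π : Pkg (Cd K)) (hk : check (kz K) ∈ π.N) : ∀ α ∈ π.hat (kz K),
    LimAt π.W (π.hat (kz K)) α := by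
  intro α hα
  obtain ⟨a, ha, rfl⟩ := (mem_hat_kz π).1 hα
  refine lim_forced a π ?_ ⟨0, le_top⟩
  rintro z (rfl | rfl)
  · exact ha
  · exact hk

end Pool.Agent.TH770
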