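import Pool.Agent.TH770.Sig
import Pool.Agent.TH770.Hom

/-!
# Homogeneous sets for Sigma_1 partitions in the extension
-/

set_option autoImplicit false
set_option linter.unreachableTactic false
set_option linter.unusedTactic false
set_option linter.unusedSectionVars false

namespace Pool.Agent.TH770

open Pool.Agent.W868 Pool.Agent.W868.PName Pool.Agent.H833R3.Levy
open ZFSet (pair)
open Cardinal

/-- The sets `0` and `1`. -/
noncomputable def nb (y : Bool) : ZFSet.{0} := nat (cond y 1 0)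

theorem nb_inj {y y' : Bool} (h : nb y = nb y') : y = y' := by
  have := nat_injective h
  cases y <;> cases y' <;> simp_all

theorem mem_nat2' {z : ZFSet.{0}} : z ∈ nat 2 ↔ ∃ y, z = nb y := by
  rw [mem_nat2]
  constructor
  · rintro (h | h)
    · exact ⟨false, h⟩
    · exact ⟨true, h⟩
  · rintro ⟨y, h⟩
    cases y
    · exact Or.inl h
    · exact Or.inr h

variable {K : Type} [LinearOrder K] [hK : Fact (Inac K)]

section main

variable {m : ℕ} (ψ : Fml Empty (4 + m + 1)) (ζ : Fin m → PName (Cd K))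

/-- Truth of the formula in the extension. -/
def Ph (π : Pkg (Cd K)) (a b y : ZFSet.{0}) : Prop :=
  Sat π.W Empty.elim (.ex ψ) (Fin.append ![a, b, y, π.hat (kz K)] (fun i => π.val (ζ i)))

theorem nd_Ph {S : Set (PName (Cd K))} (hk : check (kz K) ∈ S) (hζ : ∀ i, ζ i ∈ S) {k : ℕ}
    (t : Fin 3 → Fin k ⊕ PName (Cd K)) (ht : ∀ i, TOver S (t i)) :
    NDfn S fun π (v : Fin k → ZFSet.{0}) => Ph ψ ζ π (Sum.elim v π.val (t 0))
      (Sum.elim v π.val (t 1)) (Sum.elim v π.val (t 2)) := by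
  let σ : Fin (4 + m) → Fin k ⊕ PName (Cd K) :=
    Fin.append ![t 0, t 1, t 2, Sum.inr (check (kz K))] (fun i => Sum.inr (ζ i))
  have hσ : ∀ i, TOver S (σ i) := by
    intro i
    refine Fin.addCases (fun j => ?_) (fun j => ?_) i
    · simp only [σ, Fin.append_left]
      fin_cases j
      · exact ht 0
      · exact ht 1
      · exact ht 2
      · exact tOver_inr.2 hk
    · simp only [σ, Fin.append_right]
      exact tOver_inr.2 (hζ j)
  refine (nd_sat (.ex ψ) σ hσ).congr fun π _ v _ => ?_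
  unfold Ph
  have h : (fun i => Sum.elim v π.val (σ i)) = Fin.append ![Sum.elim v π.val (t 0),
      Sum.elim v π.val (t 1), Sum.elim v π.val (t 2), π.hat (kz K)]
      (fun i => π.val (ζ i)) := by
    funext i
    refine Fin.addCases (fun j => ?_) (fun j => ?_) i
    · simp only [σ, Fin.append_left]
      fin_cases j <;> rfl
    · simp only [σ, Fin.append_right]
      rfl
  rw [h]

/-- The formula defines a function from the pairs to `2`. -/
def GG (π : Pkg (Cd K)) : Prop := ∀ a ∈ π.hat (kz K), ∀ b ∈ π.hat (kz K), a ∈ b →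
  (∃ y ∈ π.hat (nat 2), Ph ψ ζ π a b y) ∧ ∀ y ∈ π.hat (nat 2), ∀ y' ∈ π.hat (nat 2),
    Ph ψ ζ π a b y → Ph ψ ζ π a b y' → y = y'

/-- The names used in `GG`. -/
def SG : Set (PName (Cd K)) := {check (kz K), check (nat 2)} ∪ Set.range ζ

theorem sg_countable : (SG ζ).Countable :=
  (Set.toFinite _).countable.union (Set.countable_range _)

theorem nd_GG : ND (SG ζ) (GG ψ ζ) := by
  have h1 : check (kz K) ∈ SG ζ := Or.inl (by simp)
  have h2 : check (nat 2) ∈ SG ζ := Or.inl (by simp)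
  have h3 : ∀ i, ζ i ∈ SG ζ := fun i => Or.inr ⟨i, rfl⟩
  unfold ND GG
  refine NDfn.ball (NDfnF.hat h1) ?_
  refine NDfn.ball (NDfnF.hat h1) ?_
  refine NDfn.imp (NDfn.mem (NDfnF.proj _) (NDfnF.proj _)) ?_
  refine NDfn.and ?_ ?_
  · refine NDfn.bex (NDfnF.hat h2) ?_
    refine nd_Ph ψ ζ h1 h3 ![Sum.inl 2, Sum.inl 1, Sum.inl 0] ?_
    intro i
    fin_cases i <;> exact TOver.inl _
  · refine NDfn.ball (NDfnF.hat h2) ?_
    refine NDfn.ball (NDfnF.hat h2) ?_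
    refine NDfn.imp ?_ (NDfn.imp ?_ (NDfn.eq (NDfnF.proj _) (NDfnF.proj _)))
    · refine nd_Ph ψ ζ h1 h3 ![Sum.inl 3, Sum.inl 2, Sum.inl 1] ?_
      intro i
      fin_cases i <;> exact TOver.inl _
    · refine nd_Ph ψ ζ h1 h3 ![Sum.inl 3, Sum.inl 2, Sum.inl 0] ?_
      intro i
      fin_cases i <;> exact TOver.inl _

/-- The pair `{a, b}` has the colour `y`. -/
def RR (a b : K) (y : Bool) (π : Pkg (Cd K)) : Prop :=
  Ph ψ ζ π (π.hat (el a)) (π.hat (el b)) (π.hat (nb y))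

/-- The names used in `RR`. -/
def SR (a b : K) (y : Bool) : Set (PName (Cd K)) :=
  {ck a, ck b, check (nb y), check (kz K)} ∪ Set.range ζ

theorem sr_countable (a b : K) (y : Bool) : (SR ζ a b y).Countable :=
  (Set.toFinite _).countable.union (Set.countable_range _)

theorem nd_RR (a b : K) (y : Bool) : ND (SR ζ a b y) (RR ψ ζ a b y) := by
  have h1 : check (kz K) ∈ SR ζ a b y := Or.inl (by simp)
  have h2 : ck a ∈ SR ζ a b y := Or.inl (by simp)
  have h3 : ck b ∈ SR ζ a b y := Or.inl (by simp)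
  have h4 : check (nb y) ∈ SR ζ a b y := Or.inl (by simp)
  have h5 : ∀ i, ζ i ∈ SR ζ a b y := fun i => Or.inr ⟨i, rfl⟩
  unfold ND RR
  refine nd_Ph ψ ζ h1 h5 (k := 0) ![Sum.inr (ck a), Sum.inr (ck b), Sum.inr (check (nb y))] ?_
  intro i
  fin_cases i
  · exact tOver_inr.2 h2
  · exact tOver_inr.2 h3
  · exact tOver_inr.2 h4

theorem sr_sub {π : Pkg (Cd K)} {a b : K} {y : Bool} (h1 : ck a ∈ π.N) (h2 : ck b ∈ π.N)
    (h3 : check (kz K) ∈ π.N) (h4 : ∀ i, ζ i ∈ π.N) : SR ζ a b y ⊆ π.N := by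
  rintro z ((rfl | rfl | rfl | rfl) | ⟨i, rfl⟩)
  · exact h1
  · exact h2
  · exact π.nat_Z _
  · exact h3
  · exact h4 i

theorem sg_sub {π : Pkg (Cd K)} (h3 : check (kz K) ∈ π.N) (h4 : ∀ i, ζ i ∈ π.N) :
    SG ζ ⊆ π.N := by
  rintro z ((rfl | rfl) | ⟨i, rfl⟩)
  · exact h3
  · exact π.nat_Z _
  · exact h4 i

variable {ψ ζ}

theorem exists_colour {t : Cd K} (ht : Fc (SG ζ) (GG ψ ζ) t) {a b : K} (hab : a < b) :
    ∃ t' ≤ t, ∃ y, Fc (SR ζ a b y) (RR ψ ζ a b y) t' := by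
  obtain ⟨π, h1, h2⟩ := exists_pkg' (SG ζ ∪ {ck a, ck b})
    ((sg_countable ζ).union (Set.toFinite _).countable) t
  have v0 : SG ζ ⊆ π.N := fun x hx => h1 (Or.inl hx)
  have v1 : ck a ∈ π.N := h1 (Or.inr (by simp))
  have v2 : ck b ∈ π.N := h1 (Or.inr (by simp))
  have v3 : check (kz K) ∈ π.N := v0 (Or.inl (by simp))
  have v4 : ∀ i, ζ i ∈ π.N := fun i => v0 (Or.inr ⟨i, rfl⟩)
  obtain ⟨⟨y', hy', h3⟩, -⟩ := ht π v0 ⟨0, h2.le⟩ (π.hat (el a))
    ((π.hat_mem_hat v1 v3).2 (el_mem_kz a)) (π.hat (el b)) ((π.hat_mem_hat v2 v3).2 (el_mem_kz b))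
    ((hat_el_mem π v1 v2).2 hab)
  rw [π.hat_nat, mem_nat2'] at hy'
  obtain ⟨y, rfl⟩ := hy'
  have h4 : RR ψ ζ a b y π := by
    unfold RR
    have h5 : π.hat (nb y) = nb y := π.hat_nat _
    rw [h5]
    exact h3
  obtain ⟨k, hk⟩ := fc_gen (nd_RR ψ ζ a b y) π (sr_sub ζ v1 v2 v3 v4) h4
  exact ⟨π.g k, h2 ▸ π.g_anti (Nat.zero_le k), y, hk⟩

theorem colour_uniq {t : Cd K} (ht : Fc (SG ζ) (GG ψ ζ) t) {a b : K} (hab : a < b) {y y' : Bool}
    (h : Fc (SR ζ a b y) (RR ψ ζ a b y) t) (h' : Fc (SR ζ a b y') (RR ψ ζ a b y') t) :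
    y = y' := by
  obtain ⟨π, h1, h2⟩ := exists_pkg' (SG ζ ∪ {ck a, ck b})
    ((sg_countable ζ).union (Set.toFinite _).countable) t
  have v0 : SG ζ ⊆ π.N := fun x hx => h1 (Or.inl hx)
  have v1 : ck a ∈ π.N := h1 (Or.inr (by simp))
  have v2 : ck b ∈ π.N := h1 (Or.inr (by simp))
  have v3 : check (kz K) ∈ π.N := v0 (Or.inl (by simp))
  have v4 : ∀ i, ζ i ∈ π.N := fun i => v0 (Or.inr ⟨i, rfl⟩)
  obtain ⟨-, h3⟩ := ht π v0 ⟨0, h2.le⟩ (π.hat (el a))
    ((π.hat_mem_hat v1 v3).2 (el_mem_kz a)) (π.hat (el b)) ((π.hat_mem_hat v2 v3).2 (el_mem_kz b))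
    ((hat_el_mem π v1 v2).2 hab)
  have h5 : ∀ y, π.hat (nb y) = nb y := fun y => π.hat_nat _
  have h6 : ∀ y, π.hat (nb y) ∈ π.hat (nat 2) := fun y => by
    rw [h5, π.hat_nat, mem_nat2']
    exact ⟨y, rfl⟩
  have h7 := h3 _ (h6 y) _ (h6 y') (h π (sr_sub ζ v1 v2 v3 v4) ⟨0, h2.le⟩)
    (h' π (sr_sub ζ v1 v2 v3 v4) ⟨0, h2.le⟩)
  rw [h5, h5] at h7
  exact nb_inj h7

end main

/-- The projected sequence has the same small part. -/
theorem gen_iff {π π' : Pkg (Cd K)} {Φ : Cd K → Cd K} {q p₁ : Cd K}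
    (hg : ∀ k, π'.g k = Φ (π.g k)) (h1 : ∀ k, π.g k ≤ q) (h2 : ∀ k, Φ (π.g k) ≤ q)
    (h3 : ∀ k, ∀ ν < mx q, (Φ (π.g k)).F ν = (π.g k).F ν) (hqp : q ≤ p₁) {r : Cd K}
    (hr : r ∈ Qp p₁) : (∃ k, π'.g k ≤ r) ↔ ∃ k, π.g k ≤ r := by
  have key : ∀ k, π'.g k ≤ r ↔ π.g k ≤ r := by
    intro k
    have hemp : ∀ ν, mx q ≤ ν → r.F ν = ∅ := fun ν hν => F_empty r (by
      rw [mx_Qp hr]
      exact (mx_mono hqp).trans hν)
    constructor
    · rintro ⟨-, h⟩
      refine ⟨by rw [hr.1]; exact ((h1 k).trans hqp).1, fun ν => ?_⟩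
      rcases lt_or_ge ν (mx q) with hν | hν
      · rw [← h3 k ν hν, ← hg]
        exact h ν
      · rw [hemp ν hν]
        exact Set.empty_subset _
    · rintro ⟨-, h⟩
      rw [hg]
      refine ⟨by rw [hr.1]; exact ((h2 k).trans hqp).1, fun ν => ?_⟩
      rcases lt_or_ge ν (mx q) with hν | hν
      · rw [h3 k ν hν]
        exact h ν
      · rw [hemp ν hν]
        exact Set.empty_subset _
  exact exists_congr key

/-- The parameters of a partition, coded by small names. -/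
structure Dat {m : ℕ} (ψ : Fml Empty (4 + m + 1)) (ζ : Fin m → PName (Cd K)) (p : Cd K) where
  hψ : IsSigma0 ψ
  hG : Fc (SG ζ) (GG ψ ζ) p
  pc : Fin m → Cd K
  hpc : ∀ i, p ≤ pc i
  al : Fin m → K
  xi : Fin m → K
  Nc : Fin m → Set (K × K × Cd K)
  hN : ∀ i, Nc i ∈ SN (pc i) (al i)
  hcod : ∀ i, Fc {ζ i, ck (xi i), nm (Nc i), ck (al i)} (fun π =>
    Cod π.W (π.val (ζ i)) (π.val (ck (xi i))) (π.val (nm (Nc i))) (π.val (ck (al i)))) p

section dat

variable {m : ℕ} {ψ : Fml Empty (4 + m + 1)} {ζ : Fin m → PName (Cd K)} {p : Cd K}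
  (D : Dat ψ ζ p)

include D

/-- The colour of a pair depends only on the small part of a condition, up to large next
points. -/
theorem transfer_R {q s : Cd K} (hq : q ≤ p) (hs : s ≤ q) {m₀ : K} (hm : mx s < m₀)
    (hm' : pz (mx s) < #(Set.Iio m₀)) {a b : K} {y : Bool}
    (h : Fc (SR ζ a b y) (RR ψ ζ a b y) s) :
    Fc (SR ζ a b y) (RR ψ ζ a b y) (star q s hs m₀ hm hm') := by
  by_contra hcon
  obtain ⟨t₀, ht₀, hnot⟩ := exists_not (nd_RR ψ ζ a b y) hcon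
  obtain ⟨Φ, hΦ, hΦF⟩ := amal hs hm hm'
  obtain ⟨π, π', hA, h0, hN, hg, hW⟩ := transfer hΦ
    (SR ζ a b y ∪ (Set.range (fun i => nm (D.Nc i)) ∪ (Set.range (fun i => (ck (D.al i))) ∪
      Set.range (fun i => (ck (D.xi i)))))) ((sr_countable ζ a b y).union
      ((Set.countable_range _).union ((Set.countable_range _).union (Set.countable_range _))))
      t₀ ht₀
  have hS : SR ζ a b y ⊆ π.N := fun x hx => hA (Or.inl hx)
  have hS' : SR ζ a b y ⊆ π'.N := hN ▸ hS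
  have hζ : ∀ i, ζ i ∈ π.N := fun i => hS (Or.inr ⟨i, rfl⟩)
  have hkz : check (kz K) ∈ π.N := hS (Or.inl (by simp))
  have hck : ck a ∈ π.N := hS (Or.inl (by simp))
  have hck' : ck b ∈ π.N := hS (Or.inl (by simp))
  have hnm : ∀ i, nm (D.Nc i) ∈ π.N := fun i => hA (Or.inr (Or.inl ⟨i, rfl⟩))
  have hal : ∀ i, ck (D.al i) ∈ π.N := fun i => hA (Or.inr (Or.inr (Or.inl ⟨i, rfl⟩)))
  have hxi : ∀ i, ck (D.xi i) ∈ π.N := fun i => hA (Or.inr (Or.inr (Or.inr ⟨i, rfl⟩)))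
  have hgk : ∀ k, π.g k ≤ star q s hs m₀ hm hm' := fun k =>
    (π.g_anti (Nat.zero_le k)).trans (h0.trans_le ht₀)
  have hgs : ∀ k, Φ (π.g k) ≤ s := fun k => hΦ.le _ (hgk k)
  have hhat : ∀ x, π'.hat x = π.hat x := hat_congr hN
  have hR : RR ψ ζ a b y π' := h π' hS' ⟨0, (hg 0).trans_le (hgs 0)⟩
  -- the parameters have the same values
  have hval : ∀ i, π'.val (ζ i) = π.val (ζ i) := by
    intro i
    have c1 := D.hcod i π (by
      rintro z (rfl | rfl | rfl | rfl)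
      · exact hζ i
      · exact hxi i
      · exact hnm i
      · exact hal i) ⟨0, (hgk 0).trans ((star_le' hs hm hm').trans hq)⟩
    have c2 := D.hcod i π' (by
      rw [hN]
      rintro z (rfl | rfl | rfl | rfl)
      · exact hζ i
      · exact hxi i
      · exact hnm i
      · exact hal i) ⟨0, (hg 0).trans_le ((hgs 0).trans (hs.trans hq))⟩
    have e1 : π'.val (ck (D.al i)) = π.val (ck (D.al i)) := hhat (el (D.al i))
    have e2 : π'.val (ck (D.xi i)) = π.val (ck (D.xi i)) := hhat (el (D.xi i))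
    beta_reduce at c1 c2
    rw [e1, e2] at c2
    refine cod_uniq c2 c1 fun u hu v hv => ?_
    obtain ⟨u₀, -, hu₀, rfl⟩ := (mem_hat_el π).1 hu
    obtain ⟨v₀, -, hv₀, rfl⟩ := (mem_hat_el π).1 hv
    rw [mem_nm π hu₀ hv₀, ← hhat, ← hhat, mem_nm π' (hN ▸ hu₀) (hN ▸ hv₀)]
    refine exists_congr fun r => and_congr_right fun hr => ?_
    exact gen_iff hg (fun k => (hgk k).trans (star_le' hs hm hm')) (fun k => (hgs k).trans hs)
      (fun k ν hν => hΦF _ (hgk k) ν hν) (hq.trans (D.hpc i)) ((D.hN i) _ hr).2.2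
  -- upward absoluteness
  have hR' : RR ψ ζ a b y π := by
    unfold RR Ph at hR ⊢
    rw [hhat, hhat, hhat, hhat, funext hval] at hR
    refine sigma1_up (fun x hx y hy => π'.trans_W hx hy) hW D.hψ ?_ hR
    have hatW : ∀ x, check x ∈ π.N → π.hat x ∈ π'.W := fun x hx => by
      rw [← hhat]
      exact π'.val_mem_W (hN ▸ hx)
    intro i
    refine Fin.addCases (fun j => ?_) (fun j => ?_) i
    · simp only [Fin.append_left]
      fin_cases j
      · exact hatW _ hck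
      · exact hatW _ hck'
      · exact hatW _ (π.nat_Z _)
      · exact hatW _ hkz
    · simp only [Fin.append_right]
      rw [← hval]
      exact π'.val_mem_W (hN ▸ hζ j)
  exact hnot π hS ⟨0, h0.le⟩ hR'

/-- The homogeneous set in the ground model. -/
theorem exists_hom (hP : PairPart K) {q : Cd K} (hq : q ≤ p) : ∃ r ≤ q, ∃ (H : Set K) (y : Bool),
    #H = #K ∧ ∀ a ∈ H, ∀ b ∈ H, a < b → Fc (SR ζ a b y) (RR ψ ζ a b y) r := by
  classical
  have h1 : ∀ a b : K, ∃ (s : Cd K) (y : Bool), a < b → s ≤ q ∧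
      Fc (SR ζ a b y) (RR ψ ζ a b y) s := by
    intro a b
    by_cases hab : a < b
    · obtain ⟨s, hs, y, hy⟩ := exists_colour (D.hG.mono hq) hab
      exact ⟨s, y, fun _ => ⟨hs, hy⟩⟩
    · exact ⟨q, true, fun h => absurd h hab⟩
  choose s y hsy using h1
  have hcard : #(Qp q × Bool) < #K := by
    rw [Cardinal.mk_prod, Cardinal.lift_id, Cardinal.lift_id]
    refine Cardinal.mul_lt_of_lt hK.out.aleph0_lt.le
      ((card_Qp hK.out q).trans_lt (pz_lt hK.out _)) ?_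
    exact (Cardinal.mk_lt_aleph0).trans hK.out.aleph0_lt
  obtain ⟨H, ⟨⟨r, hr⟩, y₀⟩, hH, hhom⟩ := exists_homogeneous hK.out hP hcard (fun a b =>
    if h : s a b ≤ q then (⟨qpt q (s a b) h, qpt_mem h⟩, y a b) else (⟨q, self_mem_Qp q⟩, true))
  refine ⟨r, hr.2, H, y₀, hH, fun a ha b hb hab => ?_⟩
  obtain ⟨hs, hy⟩ := hsy a b hab
  have h2 := hhom a ha b hb hab
  simp only [dif_pos hs, Prod.mk.injEq, Subtype.mk.injEq] at h2
  obtain ⟨h3, h4⟩ := h2
  rw [h4] at hy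
  refine fc_of_dense (nd_RR ψ ζ a b y₀) (sr_countable ζ a b y₀) fun t ht => ?_
  have htq : t ≤ q := ht.trans hr.2
  obtain ⟨t', ht', y', hy'⟩ := exists_colour (D.hG.mono (htq.trans hq)) hab
  have htq' : t' ≤ q := ht'.trans htq
  obtain ⟨m₀, hm₀, -, hpz⟩ := exists_next hK.out (max (mx (s a b)) (mx t')) (mx q)
  have m1 : mx (s a b) < m₀ := (le_max_left _ _).trans_lt hm₀
  have m2 : mx t' < m₀ := (le_max_right _ _).trans_lt hm₀
  have m1' : pz (mx (s a b)) < #(Set.Iio m₀) := (pz_mono (le_max_left _ _)).trans_lt hpz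
  have m2' : pz (mx t') < #(Set.Iio m₀) := (pz_mono (le_max_right _ _)).trans_lt hpz
  have f1 := transfer_R D hq hs m1 m1' hy
  have f2 := transfer_R D hq htq' m2 m2' hy'
  have hle : star q t' htq' m₀ m2 m2' ≤ star q (s a b) hs m₀ m1 m1' := by
    refine ⟨by rw [star_c, star_c]; exact EndExt.refl _, fun ν => ?_⟩
    rcases lt_or_ge ν (mx q) with hν | hν
    · rw [star_F hs m1 m1' hν, star_F htq' m2 m2' hν, ← qpt_F hs hν, h3]
      exact (ht'.trans ht).2 ν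
    · have h5 : (star q (s a b) hs m₀ m1 m1').F ν = ∅ := qpt_F' hs (not_lt.2 hν)
      rw [h5]
      exact Set.empty_subset _
  have h6 : y₀ = y' := colour_uniq (D.hG.mono ((star_le' htq' m2 m2').trans hq)) hab
    (f1.mono hle) f2
  subst h6
  exact ⟨t', ht', ∅, Set.countable_empty, fun π hπ _ h0 => hy' π hπ ⟨0, h0.le⟩⟩

/-- There is a homogeneous set in the extension. -/
theorem hom_forced (hP : PairPart K) : Fc (SG ζ) (fun π => ∃ H ∈ π.W, ∃ h ∈ π.W,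
    IsBij H (π.hat (kz K)) h ∧ (∀ a ∈ H, a ∈ π.hat (kz K)) ∧ ∃ y ∈ π.hat (nat 2),
      ∀ a ∈ H, ∀ b ∈ H, a ∈ b → Ph ψ ζ π a b y) p := by
  classical
  have g1 : check (kz K) ∈ SG ζ := Or.inl (by simp)
  have g2 : check (nat 2) ∈ SG ζ := Or.inl (by simp)
  have g3 : ∀ i, ζ i ∈ SG ζ := fun i => Or.inr ⟨i, rfl⟩
  have hd : ND (SG ζ) (fun π => ∃ H ∈ π.W, ∃ h ∈ π.W,
      IsBij H (π.hat (kz K)) h ∧ (∀ a ∈ H, a ∈ π.hat (kz K)) ∧ ∃ y ∈ π.hat (nat 2),
        ∀ a ∈ H, ∀ b ∈ H, a ∈ b → Ph ψ ζ π a b y) := by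
    unfold ND
    refine NDfn.ex ?_
    refine NDfn.ex ?_
    refine NDfn.and (nd_isBij (NDfnF.proj _) (NDfnF.hat g1) (NDfnF.proj _)) ?_
    refine NDfn.and (NDfn.ball (NDfnF.proj _) (NDfn.mem (NDfnF.proj _) (NDfnF.hat g1))) ?_
    refine NDfn.bex (NDfnF.hat g2) ?_
    refine NDfn.ball (NDfnF.proj _) ?_
    refine NDfn.ball (NDfnF.proj _) ?_
    refine NDfn.imp (NDfn.mem (NDfnF.proj _) (NDfnF.proj _)) ?_
    refine nd_Ph ψ ζ g1 g3 ![Sum.inl 1, Sum.inl 0, Sum.inl 2] ?_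
    intro i
    fin_cases i <;> exact TOver.inl _
  refine fc_of_dense hd (sg_countable ζ) fun q hq => ?_
  obtain ⟨r, hr, H, y, hH, hhom⟩ := exists_hom D hP hq
  let Hz : ZFSet.{0} := ZFSet.range (fun x : H => el x.1)
  have hHz : ∀ z, z ∈ Hz ↔ ∃ x ∈ H, el x = z := by
    intro z
    rw [ZFSet.mem_range]
    constructor
    · rintro ⟨⟨x, hx⟩, rfl⟩
      exact ⟨x, hx, rfl⟩
    · rintro ⟨x, hx, rfl⟩
      exact ⟨⟨x, hx⟩, rfl⟩
  have hcard : Hz.card = (kz K).card := by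
    rw [card_kz, ← hH]
    have e : {z // z ∈ Hz} ≃ H := by
      refine Equiv.symm (Equiv.ofBijective (fun x : H => ⟨el x.1, (hHz _).2 ⟨x.1, x.2, rfl⟩⟩) ?_)
      constructor
      · intro x x' h
        exact Subtype.ext (el_inj (Subtype.ext_iff.1 h))
      · rintro ⟨z, hz⟩
        obtain ⟨x, hx, rfl⟩ := (hHz z).1 hz
        exact ⟨⟨x, hx⟩, rfl⟩
    exact Cardinal.mk_congr ((equivShrink {z // z ∈ Hz}).symm.trans e)
  refine ⟨r, hr, {check Hz}, Set.countable_singleton _, fun π hπ hA h0 => ?_⟩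
  have w1 : Hz ∈ π.Z := hA rfl
  have w2 : kz K ∈ π.Z := hπ g1
  obtain ⟨h, hh, hbij⟩ := π.exists_bij_V w1 w2 (exists_isBij hcard)
  have hmem : ∀ z ∈ π.hat Hz, ∃ x ∈ H, ck x ∈ π.N ∧ π.hat (el x) = z := by
    intro z hz
    obtain ⟨w, hw, hwZ, rfl⟩ := π.mem_hat.1 hz
    obtain ⟨x, hx, rfl⟩ := (hHz w).1 hw
    exact ⟨x, hx, hwZ, rfl⟩
  refine ⟨π.hat Hz, π.V_subset_W (π.of_hat_mem_V w1), h, π.V_subset_W hh, hbij, ?_,
    π.hat (nb y), ?_, ?_⟩
  · intro z hz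
    obtain ⟨x, -, hx, rfl⟩ := hmem z hz
    exact (π.hat_mem_hat hx w2).2 (el_mem_kz x)
  · have h5 : π.hat (nb y) = nb y := π.hat_nat _
    rw [h5, π.hat_nat, mem_nat2']
    exact ⟨y, rfl⟩
  · intro a' ha b' hb hab
    obtain ⟨a, haH, haN, rfl⟩ := hmem a' ha
    obtain ⟨b, hbH, hbN, rfl⟩ := hmem b' hb
    have hab' : a < b := (hat_el_mem π haN hbN).1 hab
    exact hhom a haH b hbH hab' π (sr_sub ζ haN hbN w2 fun i => hπ (g3 i)) ⟨0, h0.le⟩

end dat

end Pool.Agent.TH770
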