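import Pool.Agent.TH770.Sem

/-!
# Small names for bounded relations
-/

set_option autoImplicit false
set_option linter.unreachableTactic false
set_option linter.unusedTactic false
set_option linter.unusedSectionVars false

namespace Pool.Agent.TH770

open Pool.Agent.W868 Pool.Agent.W868.PName Pool.Agent.H833R3.Levy
open ZFSet (pair)
open Cardinal

variable {K : Type} [LinearOrder K] [hK : Fact (Inac K)]

instance wfK {K : Type} [LinearOrder K] [hK : Fact (Inac K)] : WellFoundedLT K := hK.out.wf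

/-- The name of a relation on `K`. -/
noncomputable def nm (N : Set (K × K × Cd K)) : PName (Cd K) :=
  .mk {t // t ∈ N} (fun t => opN (ck t.1.1) (ck t.1.2.1)) (fun t => t.1.2.2)

theorem mem_nm (π : Pkg (Cd K)) {N : Set (K × K × Cd K)} {a b : K} (ha : ck a ∈ π.N)
    (hb : ck b ∈ π.N) : pair (π.hat (el a)) (π.hat (el b)) ∈ π.val (nm N) ↔
      ∃ r, (a, b, r) ∈ N ∧ ∃ k, π.g k ≤ r := by
  rw [Pkg.mem_val]
  constructor
  · rintro ⟨y, hy, c, hc, ⟨k, hk⟩, he⟩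
    obtain ⟨⟨⟨a', b', r⟩, ht⟩, rfl, rfl⟩ := el_mk.1 hc
    have h1 : (ck a' : PName (Cd K)) ∈ π.N := π.fst_mem hy
    have h2 : (ck b' : PName (Cd K)) ∈ π.N := π.snd_mem hy
    have h3 := π.val_opN h1 h2
    have he' : π.val (opN (ck a') (ck b')) = pair (π.hat (el a)) (π.hat (el b)) := he
    rw [he'] at h3
    obtain ⟨h4, h5⟩ := ZFSet.pair_inj.1 h3
    obtain rfl := (hat_el_inj π ha h1).1 h4
    obtain rfl := (hat_el_inj π hb h2).1 h5
    exact ⟨r, ht, k, hk⟩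
  · rintro ⟨r, ht, k, hk⟩
    exact ⟨opN (ck a) (ck b), π.opN_mem ha hb, r, el_mk.2 ⟨⟨(a, b, r), ht⟩, rfl, rfl⟩, ⟨k, hk⟩,
      π.val_opN ha hb⟩

theorem of_mem_nm (π : Pkg (Cd K)) {N : Set (K × K × Cd K)} {z : ZFSet.{0}}
    (h : z ∈ π.val (nm N)) : ∃ a b r, (a, b, r) ∈ N ∧ ck a ∈ π.N ∧ ck b ∈ π.N ∧
      (∃ k, π.g k ≤ r) ∧ z = pair (π.hat (el a)) (π.hat (el b)) := by
  obtain ⟨y, hy, c, hc, hk, rfl⟩ := π.mem_val.1 h
  obtain ⟨⟨⟨a', b', r⟩, ht⟩, rfl, rfl⟩ := el_mk.1 hc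
  have h1 : (ck a' : PName (Cd K)) ∈ π.N := π.fst_mem hy
  have h2 : (ck b' : PName (Cd K)) ∈ π.N := π.snd_mem hy
  exact ⟨a', b', r, ht, h1, h2, hk, π.val_opN h1 h2⟩

/-- The small names of relations on `a`. -/
def SN (p : Cd K) (a : K) : Set (Set (K × K × Cd K)) :=
  {N | ∀ t ∈ N, t.1 < a ∧ t.2.1 < a ∧ t.2.2 ∈ Qp p}

/-- The name of the set of the values of the small names. -/
noncomputable def EN (p : Cd K) (a : K) : PName (Cd K) :=
  .mk {N // N ∈ SN p a} (fun N => nm N.1) (fun _ => ⊤)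

theorem mem_val_EN (π : Pkg (Cd K)) {p : Cd K} {a : K} {z : ZFSet.{0}} :
    z ∈ π.val (EN p a) ↔ ∃ N ∈ SN p a, nm N ∈ π.N ∧ π.val (nm N) = z := by
  rw [Pkg.mem_val]
  constructor
  · rintro ⟨y, hy, c, hc, -, rfl⟩
    obtain ⟨⟨N, hN⟩, rfl, rfl⟩ := el_mk.1 hc
    exact ⟨N, hN, hy, rfl⟩
  · rintro ⟨N, hN, h, rfl⟩
    exact ⟨nm N, h, ⊤, el_mk.2 ⟨⟨N, hN⟩, rfl, rfl⟩, ⟨0, le_top⟩, rfl⟩

theorem card_sq {p : Cd K} {a : K} (ha : a ≤ mx p) :
    #(Set.Iio a × Set.Iio a) ≤ pz (mx p) := by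
  rw [Cardinal.mk_prod, Cardinal.lift_id]
  have h := (iio_mono ha).trans ((iio_le_sz (mx p)).trans (sz_lt_pz _).le)
  refine (mul_le_mul' h h).trans ?_
  rw [Cardinal.mul_eq_self (aleph0_le_pz _)]

/-- Every relation on `a` has a small name. -/
theorem small_name (p : Cd K) {a : K} (ha : a ≤ mx p) (τ : PName (Cd K)) :
    Fc {τ, ck a, EN p a} (fun π => ∃ B ∈ π.val (EN p a), ∀ x ∈ π.hat (el a),
      ∀ y ∈ π.hat (el a), (pair x y ∈ π.val τ ↔ pair x y ∈ B)) p := by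
  classical
  have s1 : τ ∈ ({τ, ck a, EN p a} : Set (PName (Cd K))) := by simp
  have s2 : check (el a) ∈ ({τ, ck a, EN p a} : Set (PName (Cd K))) := by
    change ck a ∈ _
    simp
  have s3 : EN p a ∈ ({τ, ck a, EN p a} : Set (PName (Cd K))) := by simp
  have hd : ND {τ, ck a, EN p a} (fun π : Pkg (Cd K) => ∃ B ∈ π.val (EN p a),
      ∀ x ∈ π.hat (el a), ∀ y ∈ π.hat (el a), (pair x y ∈ π.val τ ↔ pair x y ∈ B)) := by
    unfold ND
    (repeat' first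
      | assumption
      | exact NDfnF.proj _
      | exact NDfnF.val (by assumption)
      | exact NDfnF.hat (by assumption)
      | apply NDfn.not | apply NDfn.and | apply NDfn.or | apply NDfn.imp | apply NDfn.iff
      | apply NDfn.bex | apply NDfn.ball | apply NDfn.ex | apply NDfn.all
      | apply NDfn.eq | apply NDfn.mem | apply NDfnF.pair)
  refine fc_of_dense hd (Set.toFinite _).countable fun q₁ hq₁ => ?_
  let SJ : K → K → Set (PName (Cd K)) := fun x y => {τ, ck x, ck y}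
  let RJ : K → K → Pkg (Cd K) → Prop := fun x y π =>
    pair (π.hat (el x)) (π.hat (el y)) ∈ π.val τ
  have hSJ : ∀ x y, (SJ x y).Countable := fun x y => (Set.toFinite _).countable
  have hRJ : ∀ x y, ND (SJ x y) (RJ x y) := by
    intro x y
    have t1 : τ ∈ SJ x y := by simp [SJ]
    have t2 : check (el x) ∈ SJ x y := by
      change ck x ∈ SJ x y
      simp [SJ]
    have t3 : check (el y) ∈ SJ x y := by
      change ck y ∈ SJ x y
      simp [SJ]
    unfold ND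
    exact NDfn.mem ((NDfnF.hat t2).pair (NDfnF.hat t3)) (NDfnF.val t1)
  obtain ⟨q', hq', r, hr, h1, h2⟩ := fusion' hK.out p hq₁ (card_sq ha)
    (fun j => {t | Fc (SJ j.1 j.2) (RJ j.1 j.2) t ∨ Fc (SJ j.1 j.2) (fun π => ¬ RJ j.1 j.2 π) t})
    (by
      rintro j t (ht | ht) t' h
      · exact Or.inl (ht.mono h)
      · exact Or.inr (ht.mono h))
    (fun j t _ => fc_dec (hRJ _ _) (hSJ _ _) t)
  let N : Set (K × K × Cd K) := {t | t.1 < a ∧ t.2.1 < a ∧ ∃ hu : t.2.2 ∈ Qp p,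
    Fc (SJ t.1 t.2.1) (RJ t.1 t.2.1) (mrg p t.2.2 q' hu hq')}
  have hN : N ∈ SN p a := fun t ht => ⟨ht.1, ht.2.1, ht.2.2.choose⟩
  refine ⟨r, hr, {nm N}, Set.countable_singleton _, fun π hS hA h0 => ?_⟩
  have hNN : nm N ∈ π.N := hA rfl
  refine ⟨π.val (nm N), (mem_val_EN π).2 ⟨N, hN, hNN, rfl⟩, ?_⟩
  intro x hx y hy
  obtain ⟨x₀, hxa, hxN, rfl⟩ := (mem_hat_el π).1 hx
  obtain ⟨y₀, hya, hyN, rfl⟩ := (mem_hat_el π).1 hy
  constructor
  · have key : Fc ({τ, ck x₀, ck y₀, nm N} : Set (PName (Cd K))) (fun π => RJ x₀ y₀ π →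
        pair (π.hat (el x₀)) (π.hat (el y₀)) ∈ π.val (nm N)) r := by
      have t1 : τ ∈ ({τ, ck x₀, ck y₀, nm N} : Set (PName (Cd K))) := by simp
      have t2 : check (el x₀) ∈ ({τ, ck x₀, ck y₀, nm N} : Set (PName (Cd K))) := by
        change ck x₀ ∈ _
        simp
      have t3 : check (el y₀) ∈ ({τ, ck x₀, ck y₀, nm N} : Set (PName (Cd K))) := by
        change ck y₀ ∈ _
        simp
      have t4 : nm N ∈ ({τ, ck x₀, ck y₀, nm N} : Set (PName (Cd K))) := by simp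
      refine fc_of_dense ?_ (Set.toFinite _).countable fun q₂ hq₂ => ?_
      · unfold ND
        exact (NDfn.mem ((NDfnF.hat t2).pair (NDfnF.hat t3)) (NDfnF.val t1)).imp
          (NDfn.mem ((NDfnF.hat t2).pair (NDfnF.hat t3)) (NDfnF.val t4))
      · obtain ⟨t', ht', u', hu', h3, h4, h5⟩ := h1 q₂ hq₂ (⟨x₀, hxa⟩, ⟨y₀, hya⟩)
        refine ⟨t', ht', ∅, Set.countable_empty, fun π' hS' _ h0' hR => ?_⟩
        have v2 : ck x₀ ∈ π'.N := hS' t2
        have v3 : ck y₀ ∈ π'.N := hS' t3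
        have hSJ' : SJ x₀ y₀ ⊆ π'.N := by
          rintro z (rfl | rfl | rfl)
          · exact hS' t1
          · exact v2
          · exact v3
        rcases h5 with h5 | h5
        · exact (mem_nm π' v2 v3).2 ⟨u', ⟨hxa, hya, hu', h5⟩, 0, h0'.trans_le h3⟩
        · exact absurd hR (h5 π' hSJ' ⟨0, h0'.trans_le h4⟩)
    refine key π ?_ ⟨0, h0.le⟩
    rintro z (rfl | rfl | rfl | rfl)
    · exact hS s1
    · exact hxN
    · exact hyN
    · exact hNN
  · intro h3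
    obtain ⟨u, ⟨-, -, hu, h4⟩, k, hk⟩ := (mem_nm π hxN hyN).1 h3
    refine h4 π ?_ ⟨k, h2 _ ?_ u hu hk⟩
    · rintro z (rfl | rfl | rfl)
      · exact hS s1
      · exact hxN
      · exact hyN
    · rw [← h0]
      exact π.g_anti (Nat.zero_le k)

end Pool.Agent.TH770
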