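import Pool.Agent.H833R3.Bridge

/-!
# The notion of forcing: a club of singular cardinals and collapses between its points
-/

set_option autoImplicit false
set_option linter.unusedSectionVars false

namespace Pool.Agent.TH770

open Cardinal Set Pool.Agent.H833R3.Levy

variable {K : Type} [LinearOrder K]

/-- The infinite size of an initial segment. -/
noncomputable def sz (x : K) : Cardinal.{0} := max ℵ₀ #(Iio x)

/-- The size of its power set. -/
noncomputable def pz (x : K) : Cardinal.{0} := 2 ^ sz x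

theorem iio_le_sz (x : K) : #(Iio x) ≤ sz x := le_max_right _ _

theorem aleph0_le_sz (x : K) : ℵ₀ ≤ sz x := le_max_left _ _

theorem sz_lt_pz (x : K) : sz x < pz x := Cardinal.cantor _

theorem aleph0_le_pz (x : K) : ℵ₀ ≤ pz x := (aleph0_le_sz x).trans (sz_lt_pz x).le

theorem iio_mono {x y : K} (h : x ≤ y) : #(Iio x) ≤ #(Iio y) :=
  mk_le_mk_of_subset (Iio_subset_Iio h)

theorem sz_mono {x y : K} (h : x ≤ y) : sz x ≤ sz y := max_le_max le_rfl (iio_mono h)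

theorem pz_mono {x y : K} (h : x ≤ y) : pz x ≤ pz y :=
  Cardinal.power_le_power_left two_ne_zero (sz_mono h)

/-- `δ` is singular. -/
def Sing (δ : K) : Prop := ∃ β < δ, ∃ f : K → K, (∀ x < β, f x < δ) ∧ ∀ y < δ, ∃ x < β, y ≤ f x

/-- The first component of a condition. -/
structure CL (c : Set K) : Prop where
  flr : ∀ δ, ∃ ν, IsGreatest (c ∩ Iic δ) ν
  bdd : ∃ μ, ∀ ν ∈ c, ν ≤ μ
  sp : ∀ ν ∈ c, ∀ ν' ∈ c, ν < ν' → pz ν < #(Iio ν')
  sing : ∀ δ ∈ c, (∃ x, x < δ) → (∀ x < δ, ∃ y ∈ c, x < y ∧ y < δ) → Sing δ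

/-- The second component of a condition, at the coordinate `ν`. -/
structure CV (c : Set K) (ν : K) (f : Set (K × K)) : Prop where
  fn : ∀ ξ y y', (ξ, y) ∈ f → (ξ, y') ∈ f → y = y'
  seg : ∀ ξ y, (ξ, y) ∈ f → ∀ ξ' < ξ, ∃ y', (ξ', y') ∈ f
  dom : #{ξ | ∃ y, (ξ, y) ∈ f} ≤ pz ν
  ne : f.Nonempty → ν ∈ c ∧ ∃ ν' ∈ c, ν < ν'
  tg : ∀ ξ y, (ξ, y) ∈ f → ∀ ν' ∈ c, ν < ν' → #(Iio y) < pz ν'

/-- The conditions. -/
structure Cd (K : Type) [LinearOrder K] where
  c : Set K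
  F : K → Set (K × K)
  cl : CL c
  cv : ∀ ν, CV c ν (F ν)

/-- `c'` is an end extension of `c`. -/
def EndExt (c c' : Set K) : Prop := c ⊆ c' ∧ ∀ x ∈ c', ∀ y ∈ c, x ≤ y → x ∈ c

theorem EndExt.refl (c : Set K) : EndExt c c := ⟨subset_rfl, fun _ h _ _ _ => h⟩

theorem EndExt.trans {a b c : Set K} (h : EndExt a b) (h' : EndExt b c) : EndExt a c :=
  ⟨h.1.trans h'.1, fun x hx y hy hxy => h.2 x (h'.2 x hx y (h.1 hy) hxy) y hy hxy⟩

instance : Preorder (Cd K) where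
  le q p := EndExt p.c q.c ∧ ∀ ν, p.F ν ⊆ q.F ν
  le_refl p := ⟨EndExt.refl _, fun _ => subset_rfl⟩
  le_trans p q r h h' := ⟨h'.1.trans h.1, fun ν => (h'.2 ν).trans (h.2 ν)⟩

theorem le_def {q p : Cd K} : q ≤ p ↔ EndExt p.c q.c ∧ ∀ ν, p.F ν ⊆ q.F ν := Iff.rfl

theorem Cd.ext' {p q : Cd K} (h : p.c = q.c) (h' : ∀ ν, p.F ν = q.F ν) : p = q := by
  obtain ⟨c, F, h1, h2⟩ := p
  obtain ⟨c', F', h1', h2'⟩ := q
  obtain rfl : c = c' := h
  obtain rfl : F = F' := funext h'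
  rfl

theorem CV.ext {c c' : Set K} {ν : K} {f : Set (K × K)} (h : CV c ν f) (he : EndExt c c') :
    CV c' ν f := by
  refine ⟨h.fn, h.seg, h.dom, fun hf => ?_, fun ξ y hy ν' hν' hlt => ?_⟩
  · obtain ⟨h1, ν', h2, h3⟩ := h.ne hf
    exact ⟨he.1 h1, ν', he.1 h2, h3⟩
  · obtain ⟨h1, ν'', h2, h3⟩ := h.ne ⟨_, hy⟩
    rcases le_or_gt ν' ν'' with h4 | h4
    · exact h.tg ξ y hy ν' (he.2 _ hν' _ h2 h4) hlt
    · exact (h.tg ξ y hy ν'' h2 h3).trans_le (pz_mono h4.le)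

theorem CV.restr {c c' : Set K} {ν m : K} {f : Set (K × K)} (h : CV c' ν f) (he : EndExt c c')
    (hm : m ∈ c) (hν : ν < m) : CV c ν f := by
  refine ⟨h.fn, h.seg, h.dom, fun hf => ?_, fun ξ y hy ν' hν' hlt => ?_⟩
  · obtain ⟨h1, -⟩ := h.ne hf
    exact ⟨he.2 _ h1 _ hm hν.le, m, hm, hν⟩
  · exact h.tg ξ y hy ν' (he.1 hν') hlt

theorem CV.empty (c : Set K) (ν : K) : CV c ν ∅ := by
  refine ⟨fun _ _ _ h => h.elim, fun _ _ h => h.elim, ?_, fun h => ?_, fun _ _ h => h.elim⟩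
  · simp
  · exact absurd h Set.not_nonempty_empty

section basics

variable (p : Cd K)

theorem exists_mx : ∃ μ, IsGreatest p.c μ := by
  obtain ⟨μ, hμ⟩ := p.cl.bdd
  obtain ⟨ν, hν, h⟩ := p.cl.flr μ
  exact ⟨ν, hν.1, fun x hx => h ⟨hx, hμ x hx⟩⟩

/-- The last point of a condition. -/
noncomputable def mx : K := (exists_mx p).choose

theorem mx_mem : mx p ∈ p.c := (exists_mx p).choose_spec.1

theorem le_mx {x : K} (hx : x ∈ p.c) : x ≤ mx p := (exists_mx p).choose_spec.2 hx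

theorem mx_eq {x : K} (hx : x ∈ p.c) (h : ∀ y ∈ p.c, y ≤ x) : mx p = x :=
  le_antisymm (h _ (mx_mem p)) (le_mx p hx)

theorem F_empty {ν : K} (h : mx p ≤ ν) : p.F ν = ∅ := by
  by_contra hne
  obtain ⟨-, ν', h1, h2⟩ := (p.cv ν).ne (Set.nonempty_iff_ne_empty.2 hne)
  exact absurd (le_mx p h1) (not_le.2 (h.trans_lt h2))

theorem F_notMem {ν : K} (h : ν ∉ p.c) : p.F ν = ∅ := by
  by_contra hne
  exact h ((p.cv ν).ne (Set.nonempty_iff_ne_empty.2 hne)).1

variable {p}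

theorem mx_mono {q : Cd K} (h : q ≤ p) : mx p ≤ mx q := le_mx q (h.1.1 (mx_mem p))

theorem mem_of_le {q : Cd K} (h : q ≤ p) {x : K} (hx : x ∈ q.c) (hx' : x ≤ mx p) : x ∈ p.c :=
  h.1.2 x hx _ (mx_mem p) hx'

theorem ht_lt {ν : K} {ξ y : K} (h : (ξ, y) ∈ p.F ν) : #(Iio ξ) ≤ pz ν := by
  refine le_trans (mk_le_mk_of_subset fun x hx => ?_) (p.cv ν).dom
  exact (p.cv ν).seg ξ y h x hx

end basics

/-! ### The least element and the greatest condition -/

section top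

theorem exists_bt (hK : Inac K) : ∃ b : K, ∀ x, b ≤ x := by
  have := hK.wf
  have := hK.nonempty
  refine ⟨(wellFounded_lt (α := K)).min Set.univ Set.univ_nonempty, fun x => ?_⟩
  exact not_lt.1 (WellFounded.not_lt_min _ _ (mem_univ x))

theorem cl_bt {b : K} (hb : ∀ x, b ≤ x) : CL ({b} : Set K) where
  flr δ := ⟨b, ⟨rfl, hb δ⟩, fun x hx => (hx.1 : x = b).le⟩
  bdd := ⟨b, fun x hx => (hx : x = b).le⟩
  sp ν hν ν' hν' h := by
    obtain rfl : ν = b := hν
    obtain rfl : ν' = ν := hν'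
    exact absurd h (lt_irrefl _)
  sing δ hδ h := by
    obtain rfl : δ = b := hδ
    obtain ⟨x, hx⟩ := h
    exact absurd hx (not_lt.2 (hb x))

/-- The greatest condition. -/
noncomputable def tp (hK : Inac K) : Cd K where
  c := {(exists_bt hK).choose}
  F := fun _ => ∅
  cl := cl_bt (exists_bt hK).choose_spec
  cv := fun ν => CV.empty _ ν

theorem bt_mem (p : Cd K) {b : K} (hb : ∀ x, b ≤ x) : b ∈ p.c := by
  obtain ⟨ν, h1, -⟩ := p.cl.flr b
  have : ν = b := le_antisymm h1.2 (hb ν)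
  exact this ▸ h1.1

theorem le_tp (hK : Inac K) (p : Cd K) : p ≤ tp hK := by
  have hb := (exists_bt hK).choose_spec
  refine ⟨⟨?_, ?_⟩, fun ν => empty_subset _⟩
  · rintro x rfl
    exact bt_mem p hb
  · rintro x hx y hy hxy
    obtain rfl : y = (exists_bt hK).choose := hy
    exact le_antisymm hxy (hb x)

end top

/-! ### Adding a point -/

section addp

theorem cl_insert {c : Set K} (hc : CL c) {μ m : K} (hμ : IsGreatest c μ) (hm : μ < m)
    (hs : pz μ < #(Iio m)) : CL (insert m c) where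
  flr δ := by
    rcases le_or_gt m δ with h | h
    · refine ⟨m, ⟨Or.inl rfl, h⟩, ?_⟩
      rintro x ⟨rfl | hx, -⟩
      · exact le_rfl
      · exact (hμ.2 hx).trans hm.le
    · obtain ⟨ν, hν, h2⟩ := hc.flr δ
      refine ⟨ν, ⟨Or.inr hν.1, hν.2⟩, ?_⟩
      rintro x ⟨rfl | hx, hx'⟩
      · exact absurd hx' (not_le.2 h)
      · exact h2 ⟨hx, hx'⟩
  bdd := by
    refine ⟨m, ?_⟩
    rintro x (rfl | hx)
    · exact le_rfl
    · exact (hμ.2 hx).trans hm.le
  sp := by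
    rintro ν (rfl | hν) ν' (rfl | hν') h
    · exact absurd h (lt_irrefl _)
    · exact absurd ((hμ.2 hν').trans hm.le) (not_le.2 h)
    · exact (pz_mono (hμ.2 hν)).trans_lt hs
    · exact hc.sp ν hν ν' hν' h
  sing := by
    rintro δ (rfl | hδ) h1 h2
    · obtain ⟨y, rfl | hy, h3, h4⟩ := h2 μ hm
      · exact absurd h4 (lt_irrefl _)
      · exact absurd (hμ.2 hy) (not_le.2 h3)
    · refine hc.sing δ hδ h1 fun x hx => ?_
      obtain ⟨y, rfl | hy, h3, h4⟩ := h2 x hx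
      · exact absurd ((hμ.2 hδ).trans hm.le) (not_le.2 h4)
      · exact ⟨y, hy, h3, h4⟩

theorem endExt_insert {c : Set K} {μ m : K} (hμ : IsGreatest c μ) (hm : μ < m) :
    EndExt c (insert m c) := by
  refine ⟨subset_insert _ _, ?_⟩
  rintro x (rfl | hx) y hy hxy
  · exact absurd ((hμ.2 hy).trans_lt hm) (not_lt.2 hxy)
  · exact hx

theorem isGreatest_mx (p : Cd K) : IsGreatest p.c (mx p) := ⟨mx_mem p, fun _ hx => le_mx p hx⟩

/-- Adding a point to a condition. -/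
def addp (p : Cd K) (m : K) (hm : mx p < m) (hs : pz (mx p) < #(Iio m)) : Cd K where
  c := insert m p.c
  F := p.F
  cl := cl_insert p.cl (isGreatest_mx p) hm hs
  cv := fun ν => (p.cv ν).ext (endExt_insert (isGreatest_mx p) hm)

theorem addp_le (p : Cd K) (m : K) (hm : mx p < m) (hs : pz (mx p) < #(Iio m)) :
    addp p m hm hs ≤ p := ⟨endExt_insert (isGreatest_mx p) hm, fun _ => subset_rfl⟩

theorem mx_addp (p : Cd K) (m : K) (hm : mx p < m) (hs : pz (mx p) < #(Iio m)) :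
    mx (addp p m hm hs) = m := by
  refine mx_eq _ (Or.inl rfl) ?_
  rintro y (rfl | hy)
  · exact le_rfl
  · exact (le_mx p hy).trans hm.le

end addp

/-! ### Cardinals below `K` -/

section card

variable (hK : Inac K)

include hK

theorem exists_iio {lam : Cardinal.{0}} (h : lam < #K) :
    ∃ x : K, #(Iio x) = lam ∧ ∀ y < x, #(Iio y) < lam := by
  have := hK.wf
  have h1 : lam.ord < Ordinal.type (α := K) (· < ·) := by
    by_contra h2
    have h3 := Ordinal.card_le_card (not_lt.1 h2)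
    rw [Ordinal.card_type, Cardinal.card_ord] at h3
    exact absurd h (not_lt.2 h3)
  obtain ⟨x, hx⟩ := Ordinal.typein_surj (α := K) (· < ·) h1
  have h4 : ∀ y : K, #(Iio y) = (Ordinal.typein (α := K) (· < ·) y).card := fun y => rfl
  refine ⟨x, ?_, fun y hy => ?_⟩
  · rw [h4, hx, Cardinal.card_ord]
  · rw [h4, ← Cardinal.lt_ord, ← hx]
    exact (Ordinal.typein_lt_typein (α := K) (· < ·)).2 hy

theorem sz_lt (x : K) : sz x < #K := max_lt hK.aleph0_lt (hK.small x)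

theorem pz_lt (x : K) : pz x < #K := hK.pow _ (sz_lt hK x)

/-- There are arbitrarily large possible next points. -/
theorem exists_next (μ x : K) : ∃ m, μ < m ∧ x ≤ m ∧ pz μ < #(Iio m) := by
  have h1 : max (pz μ) #(Iio x) < #K := max_lt (pz_lt hK μ) (hK.small x)
  obtain ⟨m, hm, -⟩ := exists_iio hK (hK.pow _ h1)
  have h2 : max (pz μ) #(Iio x) < #(Iio m) := by
    rw [hm]
    exact Cardinal.cantor _
  refine ⟨m, ?_, ?_, (le_max_left _ _).trans_lt h2⟩
  · by_contra h3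
    exact absurd ((iio_mono (not_lt.1 h3)).trans ((iio_le_sz μ).trans (sz_lt_pz μ).le))
      (not_le.2 ((le_max_left _ _).trans_lt h2))
  · by_contra h3
    exact absurd (iio_mono (not_le.1 h3).le) (not_le.2 ((le_max_right _ _).trans_lt h2))

theorem exists_large (p : Cd K) (x : K) : ∃ q ≤ p, x ≤ mx q := by
  obtain ⟨m, h1, h2, h3⟩ := exists_next hK (mx p) x
  exact ⟨addp p m h1 h3, addp_le _ _ _ _, by rwa [mx_addp]⟩

end card

end Pool.Agent.TH770
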