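import Pool.Agent.TH770.Poset

/-!
# Closure under chains, counting, and fusion
-/

set_option autoImplicit false
set_option linter.unusedSectionVars false

namespace Pool.Agent.TH770

open Cardinal Set Pool.Agent.H833R3.Levy

variable {K : Type} [LinearOrder K]

/-! ### Lower bounds of chains -/

section chain

variable (hK : Inac K) {p : Cd K} {S : Set (Cd K)} (hp : p ∈ S) (hS : IsChain (· ≤ ·) S)
  (hF : ∀ s ∈ S, ∀ ν < mx p, s.F ν = p.F ν) (hc : #S ≤ pz (mx p))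

/-- The union of the first components. -/
def UU (S : Set (Cd K)) : Set K := {x | ∃ s ∈ S, x ∈ s.c}

theorem cmp_of_chain {S : Set (Cd K)} (hS : IsChain (· ≤ ·) S) {s t : Cd K} (hs : s ∈ S)
    (ht : t ∈ S) : s ≤ t ∨ t ≤ s := by
  by_cases h : s = t
  · exact Or.inl h.le
  · exact hS hs ht h

include hS in
theorem mem_of_UU {s : Cd K} (hs : s ∈ S) {x : K} (hx : x ∈ UU S) (hx' : x ≤ mx s) :
    x ∈ s.c := by
  obtain ⟨t, ht, hxt⟩ := hx
  rcases cmp_of_chain hS hs ht with h | h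
  · exact h.1.1 hxt
  · exact mem_of_le h hxt hx'

include hK hp hc in
theorem exists_lub : ∃ δ : K, (∀ x ∈ UU S, x ≤ δ) ∧ ∀ y < δ, ∃ x ∈ UU S, y < x := by
  have := hK.wf
  obtain ⟨γ, hγ⟩ := hK.reg S (hc.trans_lt (pz_lt hK _)) fun s => mx s.1
  have hne : ({y | ∀ x ∈ UU S, x ≤ y} : Set K).Nonempty :=
    ⟨γ, fun x ⟨s, hs, hx⟩ => (le_mx s hx).trans (hγ ⟨s, hs⟩).le⟩
  refine ⟨(wellFounded_lt (α := K)).min _ hne, WellFounded.min_mem _ _ hne, fun y hy => ?_⟩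
  by_contra h
  push Not at h
  exact absurd hy (WellFounded.not_lt_min _ _ (show y ∈ {y | ∀ x ∈ UU S, x ≤ y} from h))

include hK hp hS hF hc in
theorem exists_lb : ∃ q : Cd K, (∀ s ∈ S, q ≤ s) ∧ ∀ ν < mx p, q.F ν = p.F ν := by
  classical
  obtain ⟨δ, hδ, hδ'⟩ := exists_lub hK hp hc
  have hend : ∀ s ∈ S, EndExt s.c (insert δ (UU S)) := by
    intro s hs
    refine ⟨fun x hx => Or.inr ⟨s, hs, hx⟩, ?_⟩
    rintro x (rfl | hx) y hy hxy
    · have : x = y := le_antisymm hxy (hδ y ⟨s, hs, hy⟩)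
      exact this ▸ hy
    · exact mem_of_UU hS hs hx (hxy.trans (le_mx s hy))
  have hcl : CL (insert δ (UU S)) := by
    refine ⟨fun x => ?_, ⟨δ, ?_⟩, ?_, ?_⟩
    · rcases le_or_gt δ x with h | h
      · refine ⟨δ, ⟨Or.inl rfl, h⟩, ?_⟩
        rintro y ⟨rfl | hy, -⟩
        · exact le_rfl
        · exact hδ y hy
      · obtain ⟨u, ⟨s, hs, hu⟩, hxu⟩ := hδ' x h
        obtain ⟨ν, hν, h2⟩ := s.cl.flr x
        refine ⟨ν, ⟨Or.inr ⟨s, hs, hν.1⟩, hν.2⟩, ?_⟩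
        rintro y ⟨rfl | hy, hyx⟩
        · exact absurd h (not_lt.2 hyx)
        · exact h2 ⟨mem_of_UU hS hs hy ((hyx : y ≤ x).trans (hxu.le.trans (le_mx s hu))), hyx⟩
    · rintro y (rfl | hy)
      · exact le_rfl
      · exact hδ y hy
    · have key : ∀ ν ∈ UU S, ∀ ν' ∈ UU S, ν < ν' → pz ν < #(Iio ν') := by
        rintro ν hν ν' ⟨s, hs, hν'⟩ h
        exact s.cl.sp ν (mem_of_UU hS hs hν (h.le.trans (le_mx s hν'))) ν' hν' h
      rintro ν (rfl | hν) ν' (rfl | hν') h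
      · exact absurd h (lt_irrefl _)
      · exact absurd (hδ ν' hν') (not_le.2 h)
      · obtain ⟨u, hu, hνu⟩ := hδ' ν h
        exact (key ν hν u hu hνu).trans_le (iio_mono (hδ u hu))
      · exact key ν hν ν' hν' h
    · intro d hd h1 h2
      by_cases hdU : d ∈ UU S
      · obtain ⟨s, hs, hds⟩ := hdU
        refine s.cl.sing d hds h1 fun x hx => ?_
        obtain ⟨y, rfl | hy, h3, h4⟩ := h2 x hx
        · exact absurd (hδ d ⟨s, hs, hds⟩) (not_le.2 h4)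
        · exact ⟨y, mem_of_UU hS hs hy (h4.le.trans (le_mx s hds)), h3, h4⟩
      · obtain rfl : d = δ := hd.resolve_right hdU
        have hlt : ∀ s ∈ S, mx s < d := fun s hs =>
          lt_of_le_of_ne (hδ _ ⟨s, hs, mx_mem s⟩) fun h => hdU (h ▸ ⟨s, hs, mx_mem s⟩)
        obtain ⟨u, ⟨t, ht, hut⟩, hu⟩ := hδ' (mx p) (hlt p hp)
        have hud : u < d := lt_of_le_of_ne (hδ _ ⟨t, ht, hut⟩) fun h => hdU (h ▸ ⟨t, ht, hut⟩)
        have hsp : pz (mx p) < #(Iio u) := by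
          refine t.cl.sp _ ?_ u hut hu
          exact mem_of_UU hS ht ⟨p, hp, mx_mem p⟩ (hu.le.trans (le_mx t hut))
        obtain ⟨e⟩ := (Cardinal.le_def _ _).1 (hc.trans hsp.le)
        have : Nonempty S := ⟨⟨p, hp⟩⟩
        refine ⟨u, hud, fun x => if h : x < u then mx (Function.invFun e ⟨x, h⟩).1 else x,
          fun x hx => ?_, fun y hy => ?_⟩
        · simp only [hx, dif_pos]
          exact hlt _ (Function.invFun e ⟨x, hx⟩).2
        · obtain ⟨v, ⟨s, hs, hv⟩, hyv⟩ := hδ' y hy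
          refine ⟨(e ⟨s, hs⟩).1, (e ⟨s, hs⟩).2, ?_⟩
          have h5 : (e ⟨s, hs⟩).1 < u := (e ⟨s, hs⟩).2
          simp only [h5, dif_pos]
          have h6 : Function.invFun e ⟨(e ⟨s, hs⟩).1, h5⟩ = ⟨s, hs⟩ :=
            Function.leftInverse_invFun e.injective _
          rw [h6]
          exact hyv.le.trans (le_mx s hv)
  have hcv : ∀ ν, CV (insert δ (UU S)) ν {a | ∃ s ∈ S, a ∈ s.F ν} := by
    intro ν
    have key : ∀ s ∈ S, CV (insert δ (UU S)) ν (s.F ν) := fun s hs => (s.cv ν).ext (hend s hs)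
    refine ⟨?_, ?_, ?_, ?_, ?_⟩
    · rintro ξ y y' ⟨s, hs, h1⟩ ⟨t, ht, h2⟩
      rcases cmp_of_chain hS hs ht with h | h
      · exact (s.cv ν).fn ξ y y' h1 (h.2 ν h2)
      · exact (t.cv ν).fn ξ y y' (h.2 ν h1) h2
    · rintro ξ y ⟨s, hs, h1⟩ ξ' h2
      obtain ⟨y', h3⟩ := (s.cv ν).seg ξ y h1 ξ' h2
      exact ⟨y', s, hs, h3⟩
    · rcases lt_or_ge ν (mx p) with h | h
      · have h1 : {ξ | ∃ y, (ξ, y) ∈ {a | ∃ s ∈ S, a ∈ s.F ν}} = {ξ | ∃ y, (ξ, y) ∈ p.F ν} := by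
          ext ξ
          constructor
          · rintro ⟨y, s, hs, h2⟩
            rw [hF s hs ν h] at h2
            exact ⟨y, h2⟩
          · rintro ⟨y, h2⟩
            exact ⟨y, p, hp, h2⟩
        rw [h1]
        exact (p.cv ν).dom
      · have h1 : {ξ | ∃ y, (ξ, y) ∈ {a | ∃ s ∈ S, a ∈ s.F ν}} ⊆
            ⋃ s : S, {ξ | ∃ y, (ξ, y) ∈ s.1.F ν} := by
          rintro ξ ⟨y, s, hs, h2⟩
          exact mem_iUnion.2 ⟨⟨s, hs⟩, y, h2⟩
        refine (mk_le_mk_of_subset h1).trans ((Cardinal.mk_iUnion_le _).trans ?_)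
        have h2 : (⨆ s : S, #{ξ | ∃ y, (ξ, y) ∈ s.1.F ν}) ≤ pz ν :=
          ciSup_le' fun s => (s.1.cv ν).dom
        refine (mul_le_mul' (hc.trans (pz_mono h)) h2).trans ?_
        rw [Cardinal.mul_eq_self (aleph0_le_pz ν)]
    · rintro ⟨a, s, hs, ha⟩
      exact (key s hs).ne ⟨a, ha⟩
    · rintro ξ y ⟨s, hs, h1⟩ ν' h2 h3
      exact (key s hs).tg ξ y h1 ν' h2 h3
  refine ⟨⟨insert δ (UU S), fun ν => {a | ∃ s ∈ S, a ∈ s.F ν}, hcl, hcv⟩, fun s hs =>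
    ⟨hend s hs, fun ν a ha => ⟨s, hs, ha⟩⟩, fun ν hν => ?_⟩
  ext a
  constructor
  · rintro ⟨s, hs, ha⟩
    rwa [hF s hs ν hν] at ha
  · intro ha
    exact ⟨p, hp, ha⟩

end chain

/-! ### Distributivity -/

theorem distrib {T : Type} [Preorder T] {lam : Cardinal.{0}} (hlam : ℵ₀ ≤ lam)
    (hT : ∀ S : Set T, S.Nonempty → IsChain (· ≤ ·) S → #S ≤ lam → ∃ t, ∀ s ∈ S, t ≤ s)
    {J : Type} (hJ : #J ≤ lam) (E : J → Set T) (ho : ∀ j, ∀ t ∈ E j, ∀ t' ≤ t, t' ∈ E j)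
    (hd : ∀ j t, ∃ t' ≤ t, t' ∈ E j) (t₀ : T) : ∃ t ≤ t₀, ∀ j, t ∈ E j := by
  classical
  let r : J → J → Prop := WellOrderingRel
  have hr : IsWellOrder J r := WellOrderingRel.isWellOrder
  let f : J → T := IsWellFounded.fix r fun j ih =>
    if h : ∃ t, t ≤ t₀ ∧ t ∈ E j ∧ ∀ i (hi : r i j), t ≤ ih i hi then h.choose else t₀
  have hf : ∀ j, f j = if h : ∃ t, t ≤ t₀ ∧ t ∈ E j ∧ ∀ i (_ : r i j), t ≤ f i
      then h.choose else t₀ := fun j => IsWellFounded.fix_eq _ _ j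
  have key : ∀ j, f j ≤ t₀ ∧ f j ∈ E j ∧ ∀ i, r i j → f j ≤ f i := by
    intro j
    induction j using IsWellFounded.induction r with
    | _ j ih =>
      have hch : IsChain (· ≤ ·) (insert t₀ (f '' {i | r i j})) := by
        rintro _ (rfl | ⟨i, hi, rfl⟩) _ (rfl | ⟨i', hi', rfl⟩) hne
        · exact absurd rfl hne
        · exact Or.inr (ih i' hi').1
        · exact Or.inl (ih i hi).1
        · rcases trichotomous_of r i i' with h | h | h
          · exact Or.inr ((ih i' hi').2.2 i h)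
          · exact absurd (by rw [h]) hne
          · exact Or.inl ((ih i hi).2.2 i' h)
      have hcard : #(insert t₀ (f '' {i | r i j}) : Set T) ≤ lam := by
        refine (Cardinal.mk_insert_le).trans ?_
        refine (add_le_add_left (Cardinal.mk_image_le.trans ((Cardinal.mk_set_le _).trans hJ)) 1).trans ?_
        rw [Cardinal.add_one_eq hlam]
      obtain ⟨t, ht⟩ := hT _ ⟨t₀, Or.inl rfl⟩ hch hcard
      obtain ⟨t', h1, h2⟩ := hd j t
      have hex : ∃ t, t ≤ t₀ ∧ t ∈ E j ∧ ∀ i (_ : r i j), t ≤ f i :=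
        ⟨t', h1.trans (ht _ (Or.inl rfl)), h2, fun i hi => h1.trans (ht _ (Or.inr ⟨i, hi, rfl⟩))⟩
      rw [hf j, dif_pos hex]
      exact hex.choose_spec
  have hch : IsChain (· ≤ ·) (insert t₀ (range f)) := by
    rintro _ (rfl | ⟨i, rfl⟩) _ (rfl | ⟨i', rfl⟩) hne
    · exact absurd rfl hne
    · exact Or.inr (key i').1
    · exact Or.inl (key i).1
    · rcases trichotomous_of r i i' with h | h | h
      · exact Or.inr ((key i').2.2 i h)
      · exact absurd (by rw [h]) hne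
      · exact Or.inl ((key i).2.2 i' h)
  have hcard : #(insert t₀ (range f) : Set T) ≤ lam := by
    refine (Cardinal.mk_insert_le).trans ?_
    refine (add_le_add_left (Cardinal.mk_range_le.trans hJ) 1).trans ?_
    rw [Cardinal.add_one_eq hlam]
  obtain ⟨t, ht⟩ := hT _ ⟨t₀, Or.inl rfl⟩ hch hcard
  exact ⟨t, ht _ (Or.inl rfl), fun j => ho j _ (key j).2.1 _ (ht _ (Or.inr ⟨j, rfl⟩))⟩

/-! ### Counting -/

/-- The partial functions bounded by `μ`. -/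
def Fm (μ : K) : Set (K → Set (K × K)) :=
  {a | (∀ ν ξ y, (ξ, y) ∈ a ν → ν < μ ∧ ξ < μ ∧ #(Iio y) < pz μ) ∧
    ∀ ν ξ y y', (ξ, y) ∈ a ν → (ξ, y') ∈ a ν → y = y'}

/-- The targets. -/
def Tg (μ : K) : Set K := {y | #(Iio y) < pz μ}

theorem card_Tg (hK : Inac K) (μ : K) : #(Tg μ) = pz μ := by
  obtain ⟨x, hx, hx'⟩ := exists_iio hK (pz_lt hK μ)
  have : Tg μ = Iio x := by
    ext y
    constructor
    · intro hy
      by_contra h
      exact absurd (iio_mono (not_lt.1 h)) (not_le.2 (hx ▸ hy))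
    · exact hx' y
  rw [this, hx]

theorem card_Fm (hK : Inac K) (μ : K) : #(Fm μ) ≤ pz μ := by
  classical
  let g : Fm μ → (Iio μ × Iio μ → Option (Tg μ)) := fun a b =>
    if h : ∃ y : Tg μ, (b.2.1, y.1) ∈ a.1 b.1.1 then some h.choose else none
  have hg : Function.Injective g := by
    rintro ⟨a, ha1, ha2⟩ ⟨b, hb1, hb2⟩ h
    have key : ∀ a b : K → Set (K × K), ∀ (ha : a ∈ Fm μ) (hb : b ∈ Fm μ), g ⟨a, ha⟩ = g ⟨b, hb⟩ →
        ∀ ν z, z ∈ a ν → z ∈ b ν := by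
      rintro a b ⟨ha1, ha2⟩ ⟨hb1, hb2⟩ h ν ⟨ξ, y⟩ hy
      obtain ⟨h1, h2, h3⟩ := ha1 ν ξ y hy
      have h4 := congrFun h (⟨ν, h1⟩, ⟨ξ, h2⟩)
      have h5 : ∃ y : Tg μ, (ξ, y.1) ∈ a ν := ⟨⟨y, h3⟩, hy⟩
      by_cases h6 : ∃ y : Tg μ, (ξ, y.1) ∈ b ν
      · simp only [g, dif_pos h5, dif_pos h6, Option.some.injEq] at h4
        have h7 : (h5.choose).1 = y := ha2 ν ξ _ _ h5.choose_spec hy
        have h8 := h6.choose_spec
        rw [← h4, h7] at h8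
        exact h8
      · simp only [g, dif_pos h5, dif_neg h6] at h4
        exact absurd h4 (Option.some_ne_none _)
    have : a = b := funext fun ν => Set.ext fun z =>
      ⟨key a b ⟨ha1, ha2⟩ ⟨hb1, hb2⟩ h ν z, key b a ⟨hb1, hb2⟩ ⟨ha1, ha2⟩ h.symm ν z⟩
    subst this
    rfl
  refine (Cardinal.mk_le_of_injective hg).trans ?_
  rw [← Cardinal.power_def, Cardinal.mk_option, card_Tg hK, Cardinal.mk_prod, Cardinal.lift_id,
    Cardinal.add_one_eq (aleph0_le_pz μ)]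
  have h1 : #(Iio μ) * #(Iio μ) ≤ sz μ := by
    refine (mul_le_mul' (iio_le_sz μ) (iio_le_sz μ)).trans ?_
    rw [Cardinal.mul_eq_self (aleph0_le_sz μ)]
  refine (Cardinal.power_le_power_left (Cardinal.aleph0_pos.trans_le (aleph0_le_pz μ)).ne'
    h1).trans ?_
  rw [pz, ← Cardinal.power_mul, Cardinal.mul_eq_self (aleph0_le_sz μ)]

theorem F_mem_Fm (p : Cd K) {μ : K} (hμ : mx p ≤ μ) : p.F ∈ Fm μ := by
  refine ⟨fun ν ξ y h => ?_, fun ν ξ y y' h h' => (p.cv ν).fn ξ y y' h h'⟩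
  obtain ⟨h1, ν', h2, h3⟩ := (p.cv ν).ne ⟨_, h⟩
  have h4 : ν < mx p := h3.trans_le (le_mx p h2)
  refine ⟨h4.trans_le hμ, ?_, ((p.cv ν).tg ξ y h _ (mx_mem p) h4).trans_le (pz_mono hμ)⟩
  refine lt_of_lt_of_le ?_ hμ
  by_contra h5
  exact absurd (iio_mono (not_lt.1 h5)) (not_le.2 ((ht_lt h).trans_lt
    (p.cl.sp ν h1 _ (mx_mem p) h4)))

/-- The conditions with the same first component. -/
def Qp (p : Cd K) : Set (Cd K) := {r | r.c = p.c ∧ r ≤ p}

theorem mx_Qp {p r : Cd K} (h : r ∈ Qp p) : mx r = mx p :=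
  mx_eq r (by rw [h.1]; exact mx_mem p) fun y hy => le_mx p (by rwa [h.1] at hy)

theorem card_Qp (hK : Inac K) (p : Cd K) : #(Qp p) ≤ pz (mx p) := by
  refine le_trans ?_ (card_Fm hK (mx p))
  refine Cardinal.mk_le_of_injective (f := fun r : Qp p =>
    (⟨r.1.F, F_mem_Fm r.1 (mx_Qp r.2).le⟩ : Fm (mx p))) ?_
  rintro ⟨r, hr⟩ ⟨r', hr'⟩ h
  have h1 : r.F = r'.F := congrArg Subtype.val h
  exact Subtype.ext (Cd.ext' (hr.1.trans hr'.1.symm) fun ν => by rw [h1])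

/-! ### Merging -/

/-- `r` below the last point of `p` and `q` above. -/
noncomputable def mrg (p r q : Cd K) (hr : r ∈ Qp p) (hq : q ≤ p) : Cd K := by
  classical
  exact
  { c := q.c
    F := fun ν => if ν < mx p then r.F ν else q.F ν
    cl := q.cl
    cv := fun ν => by
      by_cases h : ν < mx p
      · simp only [h, if_true]
        refine (r.cv ν).ext ?_
        rw [hr.1]
        exact hq.1
      · simp only [h, if_false]
        exact q.cv ν }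

theorem mrg_c {p r q : Cd K} (hr : r ∈ Qp p) (hq : q ≤ p) : (mrg p r q hr hq).c = q.c := rfl

theorem mrg_F {p r q : Cd K} (hr : r ∈ Qp p) (hq : q ≤ p) {ν : K} (h : ν < mx p) :
    (mrg p r q hr hq).F ν = r.F ν := by
  classical
  exact if_pos h

theorem mrg_F' {p r q : Cd K} (hr : r ∈ Qp p) (hq : q ≤ p) {ν : K} (h : ¬ ν < mx p) :
    (mrg p r q hr hq).F ν = q.F ν := by
  classical
  exact if_neg h

theorem mrg_le {p r q : Cd K} (hr : r ∈ Qp p) (hq : q ≤ p) : mrg p r q hr hq ≤ r := by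
  refine ⟨by rw [hr.1]; exact hq.1, fun ν => ?_⟩
  by_cases h : ν < mx p
  · rw [mrg_F hr hq h]
  · rw [F_empty r (by rw [mx_Qp hr]; exact not_lt.1 h)]
    exact empty_subset _

/-- The part of `q` below the last point of `p`. -/
noncomputable def qpt (p q : Cd K) (hq : q ≤ p) : Cd K := by
  classical
  exact
  { c := p.c
    F := fun ν => if ν < mx p then q.F ν else ∅
    cl := p.cl
    cv := fun ν => by
      by_cases h : ν < mx p
      · simp only [h, if_true]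
        exact (q.cv ν).restr hq.1 (mx_mem p) h
      · simp only [h, if_false]
        exact CV.empty _ ν }

theorem qpt_F {p q : Cd K} (hq : q ≤ p) {ν : K} (h : ν < mx p) : (qpt p q hq).F ν = q.F ν := by
  classical
  exact if_pos h

theorem qpt_F' {p q : Cd K} (hq : q ≤ p) {ν : K} (h : ¬ ν < mx p) : (qpt p q hq).F ν = ∅ := by
  classical
  exact if_neg h

theorem qpt_mem {p q : Cd K} (hq : q ≤ p) : qpt p q hq ∈ Qp p := by
  refine ⟨rfl, EndExt.refl _, fun ν => ?_⟩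
  by_cases h : ν < mx p
  · rw [qpt_F hq h]
    exact hq.2 ν
  · rw [F_empty p (not_lt.1 h)]
    exact empty_subset _

theorem le_qpt {p q : Cd K} (hq : q ≤ p) : q ≤ qpt p q hq := by
  refine ⟨hq.1, fun ν => ?_⟩
  by_cases h : ν < mx p
  · rw [qpt_F hq h]
  · rw [qpt_F' hq h]
    exact empty_subset _

theorem self_mem_Qp (p : Cd K) : p ∈ Qp p := ⟨rfl, le_rfl⟩

/-- The part of `q` above the last point of `p`. -/
noncomputable def tlp (p q : Cd K) (hq : q ≤ p) : Cd K := mrg p p q (self_mem_Qp p) hq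

theorem tlp_le {p q : Cd K} (hq : q ≤ p) : tlp p q hq ≤ p := mrg_le _ _

/-- Fusion. -/
theorem fusion (hK : Inac K) (p : Cd K) {J : Type} (hJ : #J ≤ pz (mx p)) (D : J → Set (Cd K))
    (ho : ∀ j, ∀ t ∈ D j, ∀ t' ≤ t, t' ∈ D j) (hd : ∀ j, ∀ t ≤ p, ∃ t' ≤ t, t' ∈ D j)
    {q₀ : Cd K} (hq₀ : q₀ ≤ p) (hF₀ : ∀ ν < mx p, q₀.F ν = p.F ν) :
    ∃ q, ∃ hq : q ≤ p, q ≤ q₀ ∧ (∀ ν < mx p, q.F ν = p.F ν) ∧
      ∀ j, ∀ r ∈ Qp p, ∃ r' ≤ r, ∃ hr' : r' ∈ Qp p, mrg p r' q hr' hq ∈ D j := by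
  classical
  let T : Type := {q : Cd K // q ≤ p ∧ ∀ ν < mx p, q.F ν = p.F ν}
  have hmono : ∀ (r : Cd K) (hr : r ∈ Qp p) (q q' : T), q' ≤ q →
      mrg p r q'.1 hr q'.2.1 ≤ mrg p r q.1 hr q.2.1 := by
    intro r hr q q' h
    refine ⟨h.1, fun ν => ?_⟩
    by_cases h1 : ν < mx p
    · rw [mrg_F _ _ h1, mrg_F _ _ h1]
    · rw [mrg_F' _ _ h1, mrg_F' _ _ h1]
      exact h.2 ν
  obtain ⟨q, hqq, hq⟩ := distrib (T := T) (lam := pz (mx p)) (aleph0_le_pz _) (by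
      intro S hSne hS hc
      have h1 : IsChain (· ≤ ·) (insert p (Subtype.val '' S)) := by
        rintro _ (rfl | ⟨a, ha, rfl⟩) _ (rfl | ⟨b, hb, rfl⟩) hne
        · exact absurd rfl hne
        · exact Or.inr b.2.1
        · exact Or.inl a.2.1
        · exact hS ha hb fun h => hne (by rw [h])
      obtain ⟨q, h2, h3⟩ := exists_lb hK (p := p) (S := insert p (Subtype.val '' S)) (Or.inl rfl)
        h1 (by
          rintro _ (rfl | ⟨a, ha, rfl⟩) ν hν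
          · rfl
          · exact a.2.2 ν hν) (by
          refine (Cardinal.mk_insert_le).trans ?_
          refine (add_le_add_left (Cardinal.mk_image_le.trans hc) 1).trans ?_
          rw [Cardinal.add_one_eq (aleph0_le_pz _)])
      exact ⟨⟨q, h2 p (Or.inl rfl), h3⟩, fun s hs => h2 _ (Or.inr ⟨s, hs, rfl⟩)⟩)
    (J := J × Qp p) (by
      rw [Cardinal.mk_prod, Cardinal.lift_id, Cardinal.lift_id]
      refine (mul_le_mul' hJ (card_Qp hK p)).trans ?_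
      rw [Cardinal.mul_eq_self (aleph0_le_pz _)])
    (fun j => {q | ∃ r' ≤ j.2.1, ∃ hr' : r' ∈ Qp p, mrg p r' q.1 hr' q.2.1 ∈ D j.1})
    (by
      rintro j q ⟨r', h1, h2, h3⟩ q' hq'
      exact ⟨r', h1, h2, ho _ _ h3 _ (hmono r' h2 q q' hq')⟩)
    (by
      rintro ⟨j, r, hr⟩ q
      obtain ⟨t, h1, h2⟩ := hd j (mrg p r q.1 hr q.2.1) ((mrg_le _ _).trans hr.2)
      have htp : t ≤ p := h1.trans ((mrg_le _ _).trans hr.2)
      refine ⟨⟨tlp p t htp, tlp_le htp, fun ν hν => mrg_F _ _ hν⟩, ⟨?_, fun ν => ?_⟩,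
        qpt p t htp, ?_, qpt_mem htp, ?_⟩
      · exact h1.1
      · by_cases h3 : ν < mx p
        · change q.1.F ν ⊆ (mrg p p t (self_mem_Qp p) htp).F ν
          rw [mrg_F _ _ h3, q.2.2 ν h3]
        · change q.1.F ν ⊆ (mrg p p t (self_mem_Qp p) htp).F ν
          rw [mrg_F' _ _ h3]
          refine subset_trans ?_ (h1.2 ν)
          rw [mrg_F' _ _ h3]
      · refine ⟨?_, fun ν => ?_⟩
        · rw [hr.1]
          exact EndExt.refl _
        · by_cases h3 : ν < mx p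
          · rw [qpt_F _ h3]
            refine subset_trans ?_ (h1.2 ν)
            rw [mrg_F _ _ h3]
          · rw [F_empty r (by rw [mx_Qp hr]; exact not_lt.1 h3)]
            exact empty_subset _
      · have : mrg p (qpt p t htp) (tlp p t htp) (qpt_mem htp) (tlp_le htp) = t := by
          refine Cd.ext' rfl fun ν => ?_
          by_cases h3 : ν < mx p
          · rw [mrg_F _ _ h3, qpt_F _ h3]
          · rw [mrg_F' _ _ h3, tlp, mrg_F' _ _ h3]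
        rw [this]
        exact h2)
    ⟨q₀, hq₀, hF₀⟩
  exact ⟨q.1, q.2.1, hqq, q.2.2, fun j r hr => hq (j, ⟨r, hr⟩)⟩

/-- Fusion, in the form used later. -/
theorem fusion' (hK : Inac K) (p : Cd K) {q₁ : Cd K} (hq₁ : q₁ ≤ p) {J : Type}
    (hJ : #J ≤ pz (mx p)) (D : J → Set (Cd K)) (ho : ∀ j, ∀ t ∈ D j, ∀ t' ≤ t, t' ∈ D j)
    (hd : ∀ j, ∀ t ≤ p, ∃ t' ≤ t, t' ∈ D j) : ∃ q', ∃ hq' : q' ≤ p, ∃ r ≤ q₁,
      (∀ t ≤ r, ∀ j, ∃ t' ≤ t, ∃ u', ∃ hu' : u' ∈ Qp p, t' ≤ u' ∧ t' ≤ mrg p u' q' hu' hq' ∧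
        mrg p u' q' hu' hq' ∈ D j) ∧
      ∀ t ≤ r, ∀ u, ∀ hu : u ∈ Qp p, t ≤ u → t ≤ mrg p u q' hu hq' := by
  obtain ⟨q', hq', h1, h2, h3⟩ := fusion hK p hJ D ho hd (q₀ := tlp p q₁ hq₁) (tlp_le hq₁)
    (fun ν hν => mrg_F _ _ hν)
  have hr : mrg p (qpt p q₁ hq₁) q' (qpt_mem hq₁) hq' ≤ q₁ := by
    refine ⟨h1.1, fun ν => ?_⟩
    by_cases h : ν < mx p
    · rw [mrg_F _ _ h, qpt_F _ h]
    · rw [mrg_F' _ _ h]
      refine subset_trans ?_ (h1.2 ν)
      rw [tlp, mrg_F' _ _ h]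
  have key : ∀ t ≤ mrg p (qpt p q₁ hq₁) q' (qpt_mem hq₁) hq', ∀ u, ∀ hu : u ∈ Qp p, t ≤ u →
      t ≤ mrg p u q' hu hq' := by
    intro t ht u hu htu
    refine ⟨ht.1, fun ν => ?_⟩
    by_cases h : ν < mx p
    · rw [mrg_F _ _ h]
      exact htu.2 ν
    · rw [mrg_F' _ _ h]
      refine subset_trans ?_ (ht.2 ν)
      rw [mrg_F' _ _ h]
  refine ⟨q', hq', _, hr, fun t ht j => ?_, key⟩
  have htp : t ≤ p := ht.trans (hr.trans hq₁)
  obtain ⟨u', h4, h5, h6⟩ := h3 j (qpt p t htp) (qpt_mem htp)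
  have h7 : mrg p u' t h5 htp ≤ t := by
    refine ⟨EndExt.refl _, fun ν => ?_⟩
    by_cases h : ν < mx p
    · rw [mrg_F _ _ h, ← qpt_F htp h]
      exact h4.2 ν
    · rw [mrg_F' _ _ h]
  refine ⟨mrg p u' t h5 htp, h7, u', h5, mrg_le _ _, ?_, h6⟩
  exact key _ (h7.trans ht) u' h5 (mrg_le _ _)

end Pool.Agent.TH770
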