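import Pool.Agent.TH770.Names

/-!
# The cardinal is regular in the extension
-/

set_option autoImplicit false
set_option linter.unreachableTactic false
set_option linter.unusedTactic false
set_option linter.unusedSectionVars false

namespace Pool.Agent.TH770

open Pool.Agent.W868 Pool.Agent.W868.PName Pool.Agent.H833R3.Levy
open ZFSet (pair)
open Cardinal

variable {K : Type} [LinearOrder K] [hK : Fact (Inac K)]

/-- The pair is in the relation. -/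
def RP (τ : PName (Cd K)) (x y : K) (π : Pkg (Cd K)) : Prop :=
  pair (π.hat (el x)) (π.hat (el y)) ∈ π.val τ

/-- The names used in `RP`. -/
def SP (τ : PName (Cd K)) (x y : K) : Set (PName (Cd K)) := {τ, ck x, ck y}

theorem sp_countable (τ : PName (Cd K)) (x y : K) : (SP τ x y).Countable := by
  unfold SP
  exact (Set.toFinite _).countable

theorem nd_RP (τ : PName (Cd K)) (x y : K) : ND (SP τ x y) (RP τ x y) := by
  have t1 : τ ∈ SP τ x y := by simp [SP]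
  have t2 : check (el x) ∈ SP τ x y := by
    change ck x ∈ SP τ x y
    simp [SP]
  have t3 : check (el y) ∈ SP τ x y := by
    change ck y ∈ SP τ x y
    simp [SP]
  unfold ND
  exact NDfn.mem ((NDfnF.hat t2).pair (NDfnF.hat t3)) (NDfnF.val t1)

theorem sp_sub {π : Pkg (Cd K)} {τ : PName (Cd K)} {x y : K} (h1 : τ ∈ π.N) (h2 : ck x ∈ π.N)
    (h3 : ck y ∈ π.N) : SP τ x y ⊆ π.N := by
  rintro z (rfl | rfl | rfl)
  · exact h1
  · exact h2
  · exact h3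

/-- The property that `τ` is a function from `a` to the cardinal. -/
def IF (τ : PName (Cd K)) (a : K) (π : Pkg (Cd K)) : Prop :=
  ZFSet.IsFunc (π.hat (el a)) (π.hat (kz K)) (π.val τ)

theorem func_uniq {f x y a b b' : ZFSet.{0}} (h : ZFSet.IsFunc x y f) (h1 : pair a b ∈ f)
    (h2 : pair a b' ∈ f) : b = b' := by
  have h3 := (ZFSet.pair_mem_prod.1 (h.1 h1)).1
  exact (h.2 a h3).unique h1 h2

theorem if_uniq {τ : PName (Cd K)} {a x y y' : K} {t : Cd K}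
    (h : Fc {τ, ck a, check (kz K)} (IF τ a) t) (h1 : Fc (SP τ x y) (RP τ x y) t)
    (h2 : Fc (SP τ x y') (RP τ x y') t) : y = y' := by
  obtain ⟨π, h3, h4⟩ := exists_pkg' ({τ, ck a, check (kz K), ck x, ck y, ck y'} :
    Set (PName (Cd K))) (Set.toFinite _).countable t
  have v1 : τ ∈ π.N := h3 (by simp)
  have v2 : ck a ∈ π.N := h3 (by simp)
  have v3 : check (kz K) ∈ π.N := h3 (by simp)
  have v4 : ck x ∈ π.N := h3 (by simp)
  have v5 : ck y ∈ π.N := h3 (by simp)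
  have v6 : ck y' ∈ π.N := h3 (by simp)
  have e1 := h π (by
    rintro z (rfl | rfl | rfl)
    · exact v1
    · exact v2
    · exact v3) ⟨0, h4.le⟩
  have e2 := h1 π (sp_sub v1 v4 v5) ⟨0, h4.le⟩
  have e3 := h2 π (sp_sub v1 v4 v6) ⟨0, h4.le⟩
  exact (hat_el_inj π v5 v6).1 (func_uniq e1 e2 e3)

theorem card_prod_Qp (p : Cd K) (a : K) : #(Set.Iio a × Qp p) < #K := by
  rw [Cardinal.mk_prod, Cardinal.lift_id, Cardinal.lift_id]
  exact Cardinal.mul_lt_of_lt hK.out.aleph0_lt.le (hK.out.small a)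
    ((card_Qp hK.out p).trans_lt (pz_lt hK.out _))

theorem reg_forced (τ : PName (Cd K)) (a : K) : Fc {τ, ck a, check (kz K)} (fun π => IF τ a π →
    ∃ β ∈ π.hat (kz K), ∀ x ∈ π.hat (el a), ∀ y ∈ π.hat (kz K), pair x y ∈ π.val τ → y ∈ β)
    (⊤ : Cd K) := by
  classical
  set S : Set (PName (Cd K)) := {τ, ck a, check (kz K)} with hS
  have s1 : τ ∈ S := by simp [hS]
  have s2 : check (el a) ∈ S := by
    change ck a ∈ S
    simp [hS]
  have s3 : check (kz K) ∈ S := by simp [hS]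
  have hSc : S.Countable := (Set.toFinite _).countable
  have hd0 : ND S (IF τ a) := by
    unfold ND IF
    exact nd_isFunc (NDfnF.hat s2) (NDfnF.hat s3) (NDfnF.val s1)
  have hd : ND S (fun π => IF τ a π → ∃ β ∈ π.hat (kz K), ∀ x ∈ π.hat (el a),
      ∀ y ∈ π.hat (kz K), pair x y ∈ π.val τ → y ∈ β) := by
    unfold ND
    refine NDfn.imp hd0 ?_
    (repeat' first
      | assumption
      | exact NDfnF.proj _
      | exact NDfnF.val (by assumption)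
      | exact NDfnF.hat (by assumption)
      | apply NDfn.not | apply NDfn.and | apply NDfn.or | apply NDfn.imp | apply NDfn.iff
      | apply NDfn.bex | apply NDfn.ball | apply NDfn.ex | apply NDfn.all
      | apply NDfn.eq | apply NDfn.mem | apply NDfnF.pair)
  refine fc_of_dense hd hSc fun q _ => ?_
  obtain ⟨q₁, hq₁, h1 | h1⟩ := fc_dec hd0 hSc q
  swap
  · refine ⟨q₁, hq₁, ∅, Set.countable_empty, fun π hπ _ h0 h2 => ?_⟩
    exact absurd h2 (h1 π hπ ⟨0, h0.le⟩)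
  obtain ⟨q₂, hq₂, ha⟩ := exists_large hK.out q₁ a
  have hJ : #(Set.Iio a) ≤ pz (mx q₂) :=
    (iio_mono ha).trans ((iio_le_sz (mx q₂)).trans (sz_lt_pz _).le)
  obtain ⟨q', hq', r, hr, h2, -⟩ := fusion' hK.out q₂ le_rfl hJ
    (fun j => {t | ∃ y, Fc (SP τ j.1 y) (RP τ j.1 y) t})
    (fun j t ⟨y, hy⟩ t' ht' => ⟨y, hy.mono ht'⟩) (by
      rintro ⟨j, hj⟩ t ht
      obtain ⟨π, h3, h4⟩ := exists_pkg' (S ∪ {ck j}) (hSc.union (Set.countable_singleton _)) t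
      have v1 : S ⊆ π.N := fun x hx => h3 (Or.inl hx)
      have v2 : ck j ∈ π.N := h3 (Or.inr rfl)
      have e1 : IF τ a π := h1 π v1 ⟨0, h4.trans_le (ht.trans hq₂)⟩
      have e2 : π.hat (el j) ∈ π.hat (el a) := (hat_el_mem π v2 (v1 s2)).2 hj
      obtain ⟨w, hw, -⟩ := e1.2 _ e2
      obtain ⟨y, hy, rfl⟩ := (mem_hat_kz π).1 (ZFSet.pair_mem_prod.1 (e1.1 hw)).2
      obtain ⟨k, hk⟩ := fc_gen (nd_RP τ j y) π (sp_sub (v1 s1) v2 hy) hw
      exact ⟨π.g k, h4 ▸ π.g_anti (Nat.zero_le k), y, hk⟩)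
  obtain ⟨o⟩ := hK.out.nonempty
  obtain ⟨β, hβ⟩ := hK.out.reg (Set.Iio a × Qp q₂) (card_prod_Qp q₂ a) (fun j =>
    if h : ∃ y, Fc (SP τ j.1.1 y) (RP τ j.1.1 y) (mrg q₂ j.2.1 q' j.2.2 hq') then h.choose else o)
  refine ⟨r, hr.trans (hq₂.trans hq₁), {ck β}, Set.countable_singleton _,
    fun π hπ hA h0 hif => ?_⟩
  have w1 : ck β ∈ π.N := hA rfl
  refine ⟨π.hat (el β), (π.hat_mem_hat w1 (hπ s3)).2 (el_mem_kz β), ?_⟩
  intro x hx y hy hxy
  obtain ⟨j, hj, hjN, rfl⟩ := (mem_hat_el π).1 hx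
  obtain ⟨y₀, hyN, rfl⟩ := (mem_hat_kz π).1 hy
  rw [hat_el_mem π hyN w1]
  obtain ⟨k, hk⟩ := fc_gen (nd_RP τ j y₀) π (sp_sub (hπ s1) hjN hyN) hxy
  have hkr : π.g k ≤ r := h0 ▸ π.g_anti (Nat.zero_le k)
  obtain ⟨t', ht', u', hu', -, h5, y₁, h6⟩ := h2 (π.g k) hkr ⟨j, hj⟩
  have h7 : t' ≤ q₁ := ht'.trans (hkr.trans (hr.trans hq₂))
  have h8 : y₀ = y₁ := if_uniq (h1.mono h7) (hk.mono ht') (h6.mono h5)
  subst h8
  have h9 := hβ (⟨j, hj⟩, ⟨u', hu'⟩)
  have h10 : ∃ y, Fc (SP τ j y) (RP τ j y) (mrg q₂ u' q' hu' hq') := ⟨y₀, h6⟩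
  simp only [dif_pos h10] at h9
  have h11 : y₀ = h10.choose := by
    refine if_uniq (h1.mono ?_) h6 h10.choose_spec
    exact (mrg_le _ _).trans (hu'.2.trans hq₂)
  rw [h11]
  exact h9

/-- The cardinal is regular in the extension. -/
theorem reg_W (π : Pkg (Cd K)) (hk : check (kz K) ∈ π.N) : ∀ α ∈ π.hat (kz K), ∀ f ∈ π.W,
    ZFSet.IsFunc α (π.hat (kz K)) f → ∃ β ∈ π.hat (kz K), ∀ x ∈ α, ∀ y, pair x y ∈ f → y ∈ β := by
  rintro α hα _ ⟨τ, hτ, rfl⟩ hf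
  obtain ⟨a, ha, rfl⟩ := (mem_hat_kz π).1 hα
  obtain ⟨β, hβ, h1⟩ := reg_forced τ a π (by
    rintro z (rfl | rfl | rfl)
    · exact hτ
    · exact ha
    · exact hk) ⟨0, le_top⟩ hf
  exact ⟨β, hβ, fun x hx y hy => h1 x hx y (ZFSet.pair_mem_prod.1 (hf.1 hy)).2 hy⟩

end Pool.Agent.TH770
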