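import Pool.Agent.TH770.Amal2
import Pool.Agent.W868.Base2

/-!
# Forced properties of the generic extensions
-/

set_option autoImplicit false
set_option linter.unreachableTactic false
set_option linter.unusedTactic false
set_option linter.unusedSectionVars false

namespace Pool.Agent.TH770

open Pool.Agent.W868 Pool.Agent.W868.PName
open ZFSet (pair)
open Cardinal

section fc

variable {P : Type} [Preorder P] [OrderTop P]

/-- The condition `p` forces the property `R`. -/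
def Fc (S : Set (PName P)) (R : Pkg P → Prop) (p : P) : Prop :=
  ∀ π : Pkg P, S ⊆ π.N → (∃ m, π.g m ≤ p) → R π

/-- The property is definable with parameters from `S`. -/
def ND (S : Set (PName P)) (R : Pkg P → Prop) : Prop :=
  NDfn S fun π (_ : Fin 0 → ZFSet.{0}) => R π

variable {S : Set (PName P)} {R : Pkg P → Prop}

theorem Fc.mono {p q : P} (h : Fc S R p) (hq : q ≤ p) : Fc S R q :=
  fun π hS ⟨m, hm⟩ => h π hS ⟨m, hm.trans hq⟩

theorem Fc.mono_set {S' : Set (PName P)} {p : P} (h : Fc S R p) (hS : S ⊆ S') : Fc S' R p :=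
  fun π hS' hm => h π (hS.trans hS') hm

theorem fc_gen (hd : ND S R) (π : Pkg P) (hS : S ⊆ π.N) (hR : R π) : ∃ k, Fc S R (π.g k) :=
  forcing_theorem hd π hS hR

theorem ND.not (hd : ND S R) : ND S fun π => ¬ R π := NDfn.not hd

theorem fc_dec (hd : ND S R) (hS : S.Countable) (p : P) :
    ∃ q ≤ p, Fc S R q ∨ Fc S (fun π => ¬ R π) q := by
  obtain ⟨π, h1, h2⟩ := exists_pkg' S hS p
  by_cases h : R π
  · obtain ⟨k, hk⟩ := fc_gen hd π h1 h
    exact ⟨π.g k, h2 ▸ π.g_anti (Nat.zero_le k), Or.inl hk⟩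
  · obtain ⟨k, hk⟩ := fc_gen hd.not π h1 h
    exact ⟨π.g k, h2 ▸ π.g_anti (Nat.zero_le k), Or.inr hk⟩

theorem not_both (hS : S.Countable) {q : P} (h : Fc S R q) (h' : Fc S (fun π => ¬ R π) q) :
    False := by
  obtain ⟨π, h1, h2⟩ := exists_pkg' S hS q
  exact h' π h1 ⟨0, h2.le⟩ (h π h1 ⟨0, h2.le⟩)

/-- A property is forced if it holds in suitable extensions, densely often. -/
theorem fc_of_dense (hd : ND S R) (hS : S.Countable) {p : P}
    (h : ∀ q ≤ p, ∃ r ≤ q, ∃ A : Set (PName P), A.Countable ∧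
      ∀ π : Pkg P, S ⊆ π.N → A ⊆ π.N → π.g 0 = r → R π) : Fc S R p := by
  intro π hSπ ⟨m, hm⟩
  by_contra hR
  obtain ⟨k, hk⟩ := fc_gen hd.not π hSπ hR
  obtain ⟨r, hr, A, hA, h1⟩ := h (π.g (max m k)) ((π.g_le_left m k).trans hm)
  obtain ⟨π', h2, h3⟩ := exists_pkg' (S ∪ A) (hS.union hA) r
  have h4 : S ⊆ π'.N := fun x hx => h2 (Or.inl hx)
  refine hk π' h4 ⟨0, ?_⟩ (h1 π' h4 (fun x hx => h2 (Or.inr hx)) h3)
  rw [h3]
  exact hr.trans (π.g_le_right m k)

/-- A property that is not forced is refuted by a stronger condition. -/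
theorem exists_not (hd : ND S R) {p : P} (h : ¬ Fc S R p) :
    ∃ q ≤ p, Fc S (fun π => ¬ R π) q := by
  unfold Fc at h
  push Not at h
  obtain ⟨π, hS, ⟨m, hm⟩, hR⟩ := h
  obtain ⟨k, hk⟩ := fc_gen hd.not π hS hR
  exact ⟨π.g (max m k), (π.g_le_left m k).trans hm, Fc.mono hk (π.g_le_right m k)⟩

end fc

/-! ### More definable relations -/

section nd

variable {P : Type} [Preorder P] [OrderTop P] {S : Set (PName P)} {n : ℕ}
  {F G H : Pkg P → (Fin n → ZFSet.{0}) → ZFSet.{0}}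

theorem nd_subset (hF : NDfnF S F) (hG : NDfnF S G) : NDfn S fun π v => F π v ⊆ G π v := by
  have h : NDfn S fun (_ : Pkg P) (w : Fin 2 → ZFSet.{0}) => ∀ x ∈ w 0, x ∈ w 1 := by
    (repeat' first
      | assumption
      | exact NDfnF.proj _
      | exact NDfnF.val (by assumption)
      | exact NDfnF.hat (by assumption)
      | apply NDfn.not | apply NDfn.and | apply NDfn.or | apply NDfn.imp | apply NDfn.iff
      | apply NDfn.bex | apply NDfn.ball | apply NDfn.ex | apply NDfn.all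
      | apply NDfn.eq | apply NDfn.mem | apply NDfnF.pair)
  exact NDfn.comp2 (Q := fun a b => a ⊆ b) h hF hG

theorem nd_isFunc (hF : NDfnF S F) (hG : NDfnF S G) (hH : NDfnF S H) :
    NDfn S fun π v => ZFSet.IsFunc (F π v) (G π v) (H π v) := by
  have h : NDfn S fun (_ : Pkg P) (w : Fin 3 → ZFSet.{0}) =>
      (∀ p ∈ w 2, ∃ a ∈ w 0, ∃ b ∈ w 1, p = pair a b) ∧
      ∀ a ∈ w 0, ∃ b ∈ w 1, pair a b ∈ w 2 ∧ ∀ c ∈ w 1, pair a c ∈ w 2 → c = b := by
    (repeat' first
      | assumption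
      | exact NDfnF.proj _
      | exact NDfnF.val (by assumption)
      | exact NDfnF.hat (by assumption)
      | apply NDfn.not | apply NDfn.and | apply NDfn.or | apply NDfn.imp | apply NDfn.iff
      | apply NDfn.bex | apply NDfn.ball | apply NDfn.ex | apply NDfn.all
      | apply NDfn.eq | apply NDfn.mem | apply NDfnF.pair)
  refine NDfn.comp3 (Q := fun a b c => ZFSet.IsFunc a b c) (h.congr fun π _ v _ => ?_) hF hG hH
  constructor
  · rintro ⟨h1, h2⟩
    have h3 : v 2 ⊆ ZFSet.prod (v 0) (v 1) := by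
      intro p hp
      obtain ⟨a, ha, b, hb, rfl⟩ := h1 p hp
      exact ZFSet.mem_prod.2 ⟨a, ha, b, hb, rfl⟩
    refine ⟨h3, fun z hz => ?_⟩
    obtain ⟨b, hb, h4, h5⟩ := h2 z hz
    exact ⟨b, h4, fun c hc => h5 c (ZFSet.pair_mem_prod.1 (h3 hc)).2 hc⟩
  · rintro ⟨h1, h2⟩
    refine ⟨fun p hp => ZFSet.mem_prod.1 (h1 hp), fun a ha => ?_⟩
    obtain ⟨b, hb, h3⟩ := h2 a ha
    exact ⟨b, (ZFSet.pair_mem_prod.1 (h1 hb)).2, hb, fun c _ hc => h3 c hc⟩

theorem nd_isInj (hF : NDfnF S F) (hG : NDfnF S G) (hH : NDfnF S H) :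
    NDfn S fun π v => IsInj (F π v) (G π v) (H π v) := by
  have h : NDfn S fun (_ : Pkg P) (w : Fin 3 → ZFSet.{0}) => ZFSet.IsFunc (w 0) (w 1) (w 2) ∧
      ∀ a ∈ w 0, ∀ b ∈ w 0, ∀ c ∈ w 1, pair a c ∈ w 2 → pair b c ∈ w 2 → a = b := by
    refine (nd_isFunc (NDfnF.proj _) (NDfnF.proj _) (NDfnF.proj _)).and ?_
    (repeat' first
      | assumption
      | exact NDfnF.proj _
      | exact NDfnF.val (by assumption)
      | exact NDfnF.hat (by assumption)
      | apply NDfn.not | apply NDfn.and | apply NDfn.or | apply NDfn.imp | apply NDfn.iff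
      | apply NDfn.bex | apply NDfn.ball | apply NDfn.ex | apply NDfn.all
      | apply NDfn.eq | apply NDfn.mem | apply NDfnF.pair)
  refine NDfn.comp3 (Q := fun a b c => IsInj a b c) (h.congr fun π _ v _ => ?_) hF hG hH
  constructor
  · rintro ⟨h1, h2⟩
    refine ⟨h1, fun a b c ha hb => ?_⟩
    have h3 := ZFSet.pair_mem_prod.1 (h1.1 ha)
    have h4 := ZFSet.pair_mem_prod.1 (h1.1 hb)
    exact h2 a h3.1 b h4.1 c h3.2 ha hb
  · rintro ⟨h1, h2⟩
    exact ⟨h1, fun a _ b _ c _ h3 h4 => h2 a b c h3 h4⟩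

theorem nd_isBij (hF : NDfnF S F) (hG : NDfnF S G) (hH : NDfnF S H) :
    NDfn S fun π v => IsBij (F π v) (G π v) (H π v) := by
  have h : NDfn S fun (_ : Pkg P) (w : Fin 3 → ZFSet.{0}) => IsInj (w 0) (w 1) (w 2) ∧
      ∀ b ∈ w 1, ∃ a ∈ w 0, pair a b ∈ w 2 := by
    refine (nd_isInj (NDfnF.proj _) (NDfnF.proj _) (NDfnF.proj _)).and ?_
    (repeat' first
      | assumption
      | exact NDfnF.proj _
      | exact NDfnF.val (by assumption)
      | exact NDfnF.hat (by assumption)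
      | apply NDfn.not | apply NDfn.and | apply NDfn.or | apply NDfn.imp | apply NDfn.iff
      | apply NDfn.bex | apply NDfn.ball | apply NDfn.ex | apply NDfn.all
      | apply NDfn.eq | apply NDfn.mem | apply NDfnF.pair)
  exact NDfn.comp3 (Q := fun a b c => IsBij a b c) h hF hG hH

end nd

/-! ### The elements of `K` as ordinals -/

section el

variable {K : Type} [LinearOrder K] [WellFoundedLT K]

/-- The ordinal of an element of `K`. -/
noncomputable def el (x : K) : ZFSet.{0} := (Ordinal.typein (α := K) (· < ·) x).toZFSet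

variable (K) in
/-- The order type of `K`. -/
noncomputable def kz : ZFSet.{0} := (Ordinal.type (α := K) (· < ·)).toZFSet

theorem el_mem_el {x y : K} : el x ∈ el y ↔ x < y := by
  rw [el, el, Ordinal.toZFSet_mem_toZFSet_iff]
  exact Ordinal.typein_lt_typein (α := K) (· < ·)

theorem el_inj {x y : K} (h : el x = el y) : x = y :=
  Ordinal.typein_injective (α := K) (· < ·) (Ordinal.toZFSet_injective h)

theorem mem_kz {z : ZFSet.{0}} : z ∈ kz K ↔ ∃ x : K, el x = z := by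
  rw [kz, Ordinal.mem_toZFSet_iff]
  constructor
  · rintro ⟨a, ha, rfl⟩
    obtain ⟨x, hx⟩ := Ordinal.typein_surj (α := K) (· < ·) ha
    exact ⟨x, by rw [el, hx]⟩
  · rintro ⟨x, rfl⟩
    exact ⟨_, Ordinal.typein_lt_type (α := K) (· < ·) x, rfl⟩

theorem el_mem_kz (x : K) : el x ∈ kz K := mem_kz.2 ⟨x, rfl⟩

theorem mem_el {z : ZFSet.{0}} {y : K} : z ∈ el y ↔ ∃ x < y, el x = z := by
  constructor
  · intro h
    have h1 : z ∈ kz K := by
      rw [kz]
      rw [el] at h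
      obtain ⟨a, ha, rfl⟩ := Ordinal.mem_toZFSet_iff.1 h
      exact Ordinal.mem_toZFSet_iff.2 ⟨a, ha.trans (Ordinal.typein_lt_type (α := K) (· < ·) y), rfl⟩
    obtain ⟨x, rfl⟩ := mem_kz.1 h1
    exact ⟨x, el_mem_el.1 h, rfl⟩
  · rintro ⟨x, hx, rfl⟩
    exact el_mem_el.2 hx

theorem el_ord (x : K) : (el x).IsOrdinal := ZFSet.isOrdinal_toZFSet _

variable (K) in
theorem kz_ord : (kz K).IsOrdinal := ZFSet.isOrdinal_toZFSet _

theorem card_el (x : K) : (el x).card = #(Set.Iio x) := by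
  rw [el, Ordinal.card_toZFSet]
  rfl

variable (K) in
theorem card_kz : (kz K).card = #K := by
  rw [kz, Ordinal.card_toZFSet, Ordinal.card_type]

variable {P : Type} [Preorder P] [OrderTop P]

/-- The name of an element of `K`. -/
noncomputable def ck (x : K) : PName P := check (el x)

theorem ck_inj {x y : K} (h : (ck x : PName P) = ck y) : x = y := el_inj (check_injective h)

variable (π : Pkg P)

theorem mem_hat_kz {z : ZFSet.{0}} : z ∈ π.hat (kz K) ↔ ∃ x : K, ck x ∈ π.N ∧ π.hat (el x) = z := by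
  rw [Pkg.mem_hat]
  constructor
  · rintro ⟨y, h1, h2, rfl⟩
    obtain ⟨x, rfl⟩ := mem_kz.1 h1
    exact ⟨x, h2, rfl⟩
  · rintro ⟨x, h1, rfl⟩
    exact ⟨el x, el_mem_kz x, h1, rfl⟩

theorem mem_hat_el {z : ZFSet.{0}} {y : K} :
    z ∈ π.hat (el y) ↔ ∃ x < y, ck x ∈ π.N ∧ π.hat (el x) = z := by
  rw [Pkg.mem_hat]
  constructor
  · rintro ⟨w, h1, h2, rfl⟩
    obtain ⟨x, hx, rfl⟩ := mem_el.1 h1
    exact ⟨x, hx, h2, rfl⟩
  · rintro ⟨x, hx, h1, rfl⟩
    exact ⟨el x, el_mem_el.2 hx, h1, rfl⟩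

theorem hat_el_mem {x y : K} (hx : ck x ∈ π.N) (hy : ck y ∈ π.N) :
    π.hat (el x) ∈ π.hat (el y) ↔ x < y := by
  rw [π.hat_mem_hat hx hy, el_mem_el]

theorem hat_el_inj {x y : K} (hx : ck x ∈ π.N) (hy : ck y ∈ π.N) :
    π.hat (el x) = π.hat (el y) ↔ x = y := by
  rw [π.hat_inj hx hy]
  exact ⟨el_inj, fun h => by rw [h]⟩

end el

end Pool.Agent.TH770
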