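import Pool.Agent.TH770.Least

/-!
# Sigma_1 formulas, the sets of small hereditary cardinality, and their codes
-/

set_option autoImplicit false
set_option linter.unreachableTactic false
set_option linter.unusedTactic false
set_option linter.unusedSectionVars false

namespace Pool.Agent.TH770

open Pool.Agent.W868 Pool.Agent.W868.PName Pool.Agent.H833R3.Levy
open ZFSet (pair)
open Cardinal

/-- The `Σ₀` formulas: atomic formulas, closed under negation, conjunction and bounded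
quantification. -/
inductive IsSigma0 : {n : ℕ} → Fml Empty n → Prop
  | mem {n : ℕ} (s t : Fin n ⊕ Empty) : IsSigma0 (.mem s t)
  | eq {n : ℕ} (s t : Fin n ⊕ Empty) : IsSigma0 (.eq s t)
  | neg {n : ℕ} {φ : Fml Empty n} (h : IsSigma0 φ) : IsSigma0 (.neg φ)
  | and {n : ℕ} {φ ψ : Fml Empty n} (h : IsSigma0 φ) (h' : IsSigma0 ψ) : IsSigma0 (.and φ ψ)
  | bex {n : ℕ} (t : Fin n ⊕ Empty) {φ : Fml Empty (n + 1)} (h : IsSigma0 φ) :
      IsSigma0 (.ex (.and (.mem (Sum.inl 0) (Sum.map Fin.succ id t)) φ))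

theorem elim_mem {M : Set ZFSet.{0}} {n : ℕ} {v : Fin n → ZFSet.{0}} (hv : ∀ i, v i ∈ M)
    (t : Fin n ⊕ Empty) : Sum.elim v (Empty.elim : Empty → ZFSet.{0}) t ∈ M := by
  cases t with
  | inl i => exact hv i
  | inr e => exact e.elim

theorem elim_succ {n : ℕ} (v : Fin n → ZFSet.{0}) (a : ZFSet.{0}) (t : Fin n ⊕ Empty) :
    Sum.elim (Fin.cons a v : Fin (n + 1) → ZFSet.{0}) (Empty.elim : Empty → ZFSet.{0})
      (Sum.map Fin.succ id t) = Sum.elim v Empty.elim t := by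
  cases t with
  | inl i => rfl
  | inr e => exact e.elim

theorem cons_mem' {M : Set ZFSet.{0}} {n : ℕ} {v : Fin n → ZFSet.{0}} {a : ZFSet.{0}} (ha : a ∈ M)
    (hv : ∀ i, v i ∈ M) : ∀ i, (Fin.cons a v : Fin (n + 1) → ZFSet.{0}) i ∈ M :=
  Pkg.cons_mem ha hv

/-- `Σ₀` formulas are absolute between transitive classes. -/
theorem sigma0_abs {M M' : Set ZFSet.{0}} (hM : ∀ x ∈ M, ∀ y ∈ x, y ∈ M) (hsub : M ⊆ M')
    {n : ℕ} {φ : Fml Empty n} (h : IsSigma0 φ) : ∀ v : Fin n → ZFSet.{0}, (∀ i, v i ∈ M) →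
      (Sat M Empty.elim φ v ↔ Sat M' Empty.elim φ v) := by
  induction h with
  | mem s t => exact fun _ _ => Iff.rfl
  | eq s t => exact fun _ _ => Iff.rfl
  | neg h ih => exact fun v hv => not_congr (ih v hv)
  | and h h' ih ih' => exact fun v hv => and_congr (ih v hv) (ih' v hv)
  | bex t h ih =>
    intro v hv
    simp only [Sat, elim_succ]
    constructor
    · rintro ⟨a, ha, h1, h2⟩
      exact ⟨a, hsub ha, h1, (ih _ (cons_mem' ha hv)).1 h2⟩
    · rintro ⟨a, -, h1, h2⟩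
      have ha : a ∈ M := hM _ (elim_mem hv t) a h1
      exact ⟨a, ha, h1, (ih _ (cons_mem' ha hv)).2 h2⟩

/-- `Σ₁` formulas are upward absolute. -/
theorem sigma1_up {M M' : Set ZFSet.{0}} (hM : ∀ x ∈ M, ∀ y ∈ x, y ∈ M) (hsub : M ⊆ M')
    {n : ℕ} {ψ : Fml Empty (n + 1)} (h : IsSigma0 ψ) {v : Fin n → ZFSet.{0}} (hv : ∀ i, v i ∈ M)
    (hs : Sat M Empty.elim (.ex ψ) v) : Sat M' Empty.elim (.ex ψ) v := by
  obtain ⟨a, ha, h1⟩ := hs
  exact ⟨a, hsub ha, (sigma0_abs hM hsub h _ (cons_mem' ha hv)).1 h1⟩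

/-- In `M`, the set `z` has hereditary cardinality less than `κ`: it belongs to a transitive set
that injects into an element of `κ`. -/
def HC (M : Set ZFSet.{0}) (κ z : ZFSet.{0}) : Prop :=
  ∃ T ∈ M, (∀ x ∈ T, ∀ y ∈ x, y ∈ T) ∧ z ∈ T ∧ ∃ α ∈ κ, ∃ i ∈ M, IsInj T α i

/-- The set `z` is coded by the element `ξ` of the relation `E` on `α`. -/
def Cod (M : Set ZFSet.{0}) (z ξ E α : ZFSet.{0}) : Prop :=
  ∃ T ∈ M, ∃ j ∈ M, (∀ x ∈ T, ∀ y ∈ x, y ∈ T) ∧ (∀ x ∈ T, ∃ a ∈ α, pair a x ∈ j) ∧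
    (∀ a ∈ α, ∀ x ∈ T, ∀ y ∈ T, pair a x ∈ j → pair a y ∈ j → x = y) ∧
    (∀ a ∈ α, ∀ b ∈ α, (pair a b ∈ E ↔ ∃ x ∈ T, ∃ y ∈ T, pair a x ∈ j ∧ pair b y ∈ j ∧ x ∈ y)) ∧
    ξ ∈ α ∧ z ∈ T ∧ pair ξ z ∈ j

theorem cod_uniq {M M' : Set ZFSet.{0}} {z z' ξ E E' α : ZFSet.{0}} (h : Cod M z ξ E α)
    (h' : Cod M' z' ξ E' α) (hE : ∀ a ∈ α, ∀ b ∈ α, (pair a b ∈ E ↔ pair a b ∈ E')) :
    z = z' := by
  obtain ⟨T, -, j, -, h1, h2, h3, h4, hξ, hz, h5⟩ := h
  obtain ⟨T', -, j', -, h1', h2', h3', h4', -, hz', h5'⟩ := h'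
  have key : ∀ x : ZFSet.{0}, ∀ x' a, x ∈ T → x' ∈ T' → a ∈ α → pair a x ∈ j →
      pair a x' ∈ j' → x = x' := by
    intro x
    induction x using ZFSet.inductionOn with
    | _ x ih =>
      intro x' a hx hx' ha hj hj'
      ext y
      constructor
      · intro hy
        have hyT := h1 x hx y hy
        obtain ⟨b, hb, hby⟩ := h2 y hyT
        have h6 : pair b a ∈ E := (h4 b hb a ha).2 ⟨y, hyT, x, hx, hby, hj, hy⟩
        obtain ⟨u, hu, v, hv, h7, h8, h9⟩ := (h4' b hb a ha).1 ((hE b hb a ha).1 h6)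
        obtain rfl := h3' a ha v hv x' hx' h8 hj'
        rw [ih y hy u b hyT hu hb hby h7]
        exact h9
      · intro hy
        have hyT := h1' x' hx' y hy
        obtain ⟨b, hb, hby⟩ := h2' y hyT
        have h6 : pair b a ∈ E' := (h4' b hb a ha).2 ⟨y, hyT, x', hx', hby, hj', hy⟩
        obtain ⟨u, hu, v, hv, h7, h8, h9⟩ := (h4 b hb a ha).1 ((hE b hb a ha).2 h6)
        obtain rfl := h3 a ha v hv x hx h8 hj
        rw [← ih u h9 y b hu hyT hb h7 hby]
        exact h9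
  exact key z z' ξ hz hz' hξ h5 h5'

theorem exists_cod {M : Set ZFSet.{0}} (hM : IsZF M) {κ z : ZFSet.{0}} (hκ : κ ∈ M)
    (h : HC M κ z) : ∃ α ∈ κ, ∃ ξ ∈ α, ∃ E ∈ M, Cod M z ξ E α := by
  have hB := hM.base
  obtain ⟨T, hT, h1, hz, α, hα, i, hi, hinj⟩ := h
  have hαM := hM.trans _ hκ _ hα
  have hd1 : Dfn M M fun w : Fin 2 → ZFSet.{0} => pair (w 1) (w 0) ∈ i := by
    (repeat' first
      | assumption
      | exact DfnF.proj _
      | exact DfnF.const (by assumption)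
      | exact DfnF.const' (by first | assumption | trivial) (by first | assumption | trivial)
      | exact Dfn.prop _
      | apply Dfn.not | apply Dfn.and | apply Dfn.or | apply Dfn.imp | apply Dfn.iff
      | apply hB.bex | apply hB.ball | apply Dfn.ex | apply Dfn.all
      | apply Dfn.eq | apply Dfn.mem | apply hB.pair')
  obtain ⟨j, hj, -, hj'⟩ := hM.rel_mem hαM hT (Q := fun a x => pair x a ∈ i) hd1
  have hd2 : Dfn M M fun w : Fin 2 → ZFSet.{0} => ∃ x ∈ T, ∃ y ∈ T, pair (w 0) x ∈ j ∧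
      pair (w 1) y ∈ j ∧ x ∈ y := by
    (repeat' first
      | assumption
      | exact DfnF.proj _
      | exact DfnF.const (by assumption)
      | exact DfnF.const' (by first | assumption | trivial) (by first | assumption | trivial)
      | exact Dfn.prop _
      | apply Dfn.not | apply Dfn.and | apply Dfn.or | apply Dfn.imp | apply Dfn.iff
      | apply hB.bex | apply hB.ball | apply Dfn.ex | apply Dfn.all
      | apply Dfn.eq | apply Dfn.mem | apply hB.pair')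
  obtain ⟨E, hE, -, hE'⟩ := hM.rel_mem hαM hαM (Q := fun a b => ∃ x ∈ T, ∃ y ∈ T,
      pair a x ∈ j ∧ pair b y ∈ j ∧ x ∈ y) hd2
  have himg : ∀ x ∈ T, ∃ a ∈ α, pair a x ∈ j := by
    intro x hx
    obtain ⟨a, ha, -⟩ := hinj.1.2 x hx
    have h2 := (ZFSet.pair_mem_prod.1 (hinj.1.1 ha)).2
    exact ⟨a, h2, (hj' a x).2 ⟨h2, hx, ha⟩⟩
  obtain ⟨ξ, hξ, hξz⟩ := himg z hz
  refine ⟨α, hα, ξ, hξ, E, hE, T, hT, j, hj, h1, himg, ?_, ?_, hξ, hz, hξz⟩
  · intro a _ x _ y _ h2 h3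
    exact hinj.2 x y a ((hj' a x).1 h2).2.2 ((hj' a y).1 h3).2.2
  · intro a ha b hb
    rw [hE' a b]
    exact ⟨fun h => h.2.2, fun h => ⟨ha, hb, h⟩⟩

section nd

variable {P : Type} [Preorder P] [OrderTop P] {S : Set (PName P)}

/-- Truth of a formula is uniformly definable. -/
theorem nd_sat {n m : ℕ} (φ : Fml Empty n) (σ : Fin n → Fin m ⊕ PName P)
    (hσ : ∀ k, TOver S (σ k)) : NDfn S fun π (v : Fin m → ZFSet.{0}) =>
      Sat π.W Empty.elim φ (fun k => Sum.elim v π.val (σ k)) := by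
  refine ⟨(φ.map Empty.elim).subst σ, over_subst _ _ hσ ((over_map _ _).2 ?_), ?_⟩
  · have h : ∀ {n : ℕ} (φ : Fml Empty n) (T : Set Empty), φ.Over T := by
      intro n φ T
      induction φ with
      | mem s t => exact ⟨fun a _ => a.elim, fun a _ => a.elim⟩
      | eq s t => exact ⟨fun a _ => a.elim, fun a _ => a.elim⟩
      | neg φ ih => exact ih
      | and φ ψ ih ih' => exact ⟨ih, ih'⟩
      | ex φ ih => exact ih
    exact h φ _
  · intro π _ v _
    rw [sat_subst, sat_map]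
    have h : (π.val ∘ Empty.elim : Empty → ZFSet.{0}) = Empty.elim := funext fun e => e.elim
    rw [h]

theorem nd_cod {z ξ E α : PName P} (h1 : z ∈ S) (h2 : ξ ∈ S) (h3 : E ∈ S) (h4 : α ∈ S) :
    ND S fun π => Cod π.W (π.val z) (π.val ξ) (π.val E) (π.val α) := by
  unfold ND Cod
  (repeat' first
      | assumption
      | exact NDfnF.proj _
      | exact NDfnF.val (by assumption)
      | exact NDfnF.hat (by assumption)
      | apply NDfn.not | apply NDfn.and | apply NDfn.or | apply NDfn.imp | apply NDfn.iff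
      | apply NDfn.bex | apply NDfn.ball | apply NDfn.ex | apply NDfn.all
      | apply NDfn.eq | apply NDfn.mem | apply NDfnF.pair)

end nd

theorem mem_nat2 {z : ZFSet.{0}} : z ∈ nat 2 ↔ z = nat 0 ∨ z = nat 1 := by
  have h2 : nat 2 = insert (nat 1) (nat 1) := rfl
  have h1 : nat 1 = insert (nat 0) (nat 0) := rfl
  have h0 : nat 0 = ∅ := rfl
  rw [h2, ZFSet.mem_insert_iff]
  constructor
  · rintro (h | h)
    · exact Or.inr h
    · rw [h1, ZFSet.mem_insert_iff] at h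
      rcases h with h | h
      · exact Or.inl h
      · rw [h0] at h
        exact absurd h (ZFSet.notMem_empty z)
  · rintro (h | h)
    · right
      rw [h1, ZFSet.mem_insert_iff]
      exact Or.inl h
    · exact Or.inl h

end Pool.Agent.TH770
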